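import Pool.Agent.P8H1.KS.Stm2
import Pool.Agent.P8H1.EK.Inv
set_option autoImplicit false

/-!
The element `xi` is a cocycle, and it is invariant under the automorphisms of the field which fix the
number `ζ + 1/ζ`.
-/

namespace Pool.Agent.P8H1.KS

open Pool.Agent.N65.TK (Pt UQ tu tu_mul tu_inv tu_torsion alt_add1 alt_smul1 alt_eq12 alt_eq23
  alt_eq13 alt_add2 alt_add3)
open Pool.Agent.P8H1.PD (LP mo FS br dif al LL)
open Pool.Agent.P8H1.KC (alt_swap12 alt_cyc co_val)
open Pool.Agent.P8H1.EK (tr tau_eq)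

section alt

variable {V W : Type*} [AddCommGroup V] [Module ℚ V] [AddCommGroup W] [Module ℚ W]

theorem key4 (φ : V [⋀^Fin 4]→ₗ[ℚ] W) (e u v w : V) : φ ![e, u, v, w] = φ.curryLeft e ![u, v, w] := rfl

theorem add4 (φ : V [⋀^Fin 4]→ₗ[ℚ] W) (e e' u v w : V) :
    φ ![e + e', u, v, w] = φ ![e, u, v, w] + φ ![e', u, v, w] := by
  simp only [key4, map_add, AlternatingMap.add_apply]

theorem eq4 (φ : V [⋀^Fin 4]→ₗ[ℚ] W) (e v w : V) : φ ![e, e, v, w] = 0 :=
  φ.map_eq_zero_of_eq _ (i := 0) (j := 1) rfl (by decide)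

/-- `(x + w) ∧ x ∧ y ∧ z - u ∧ (z - y) ∧ x ∧ y - u' ∧ (z + y) ∧ x ∧ y = 0` if `u + u' = z + w` -/
theorem sum4 (φ : V [⋀^Fin 4]→ₗ[ℚ] W) (x y z w p q u u' : V) (h1 : p + q = x + w)
    (h2 : u + u' = z + w) :
    φ ![p, x, y, z] + φ ![q, x, y, z] - φ ![u, z + -y, x, y] - φ ![u', y + z, x, y] = 0 := by
  have e1 : φ ![p, x, y, z] + φ ![q, x, y, z] = φ ![w, x, y, z] := by
    rw [← add4, h1, add4, eq4, zero_add]
  have e2 : φ ![u, z + -y, x, y] = φ ![u, z, x, y] := by
    have h3 : (-y : V) = (-1 : ℚ) • y := by simp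
    rw [key4, alt_add1, h3, alt_smul1, alt_eq13, smul_zero, add_zero, key4]
  have e3 : φ ![u', y + z, x, y] = φ ![u', z, x, y] := by
    rw [key4, alt_add1, alt_eq13, zero_add, key4]
  have e4 : φ ![u, z, x, y] + φ ![u', z, x, y] = φ ![w, x, y, z] := by
    rw [← add4, h2, add4, eq4, zero_add, key4, alt_cyc, ← key4]
  rw [e1, e2, e3, sub_sub, e4, sub_self]

end alt

section dif

variable {K : Type*} [Field K] {c : Kˣ}

theorem co_x : (px c).co * (qx c).co = cx c * cw c := by
  ext
  rw [Units.val_mul, co_val, co_val]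
  exact prod_x

theorem co_y : (pf c).co * (qf c).co = uc c (-1) * (cz c * cw c) := by
  ext
  rw [Units.val_mul, co_val, co_val]
  exact prod_y

theorem tu_uc {a : Kˣ} {N : ℕ} (hN : 0 < N) (h : a ^ N = 1) : tu (uc c a) = 0 :=
  tu_torsion hN (by rw [uc_pow, h, uc_one])

theorem dif_br (f : Pt (Srf c)) (g h : (Srf c)ˣ) :
    dif (Srf c) 2 (br f ![g, h]) = al (Srf c) 2 ![tu f.co, tu f.1, tu g, tu h] := by
  unfold dif br
  rw [Finsupp.linearCombination_single, one_smul]
  congr 1
  funext i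
  fin_cases i <;> rfl

end dif

theorem s_dif : S_DIF := by
  rintro K _ c ⟨N, hN, h⟩
  have hi : c⁻¹ ^ N = 1 := by rw [inv_pow, h, inv_one]
  have hm : (-1 : Kˣ) ^ 2 = 1 := by simp
  have t1 : tu (px c).1 = tu (cx c) := by
    show tu (uc c c⁻¹ * cx c) = _
    rw [tu_mul, tu_uc hN hi, zero_add]
  have t2 : tu (qx c).1 = tu (cx c) := by
    show tu (uc c c * cx c) = _
    rw [tu_mul, tu_uc hN h, zero_add]
  have t3 : tu (pf c).1 = tu (cz c) + -tu (cy c) := by
    show tu (uc c (-1) * (cz c * (cy c)⁻¹)) = _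
    rw [tu_mul, tu_uc two_pos hm, zero_add, tu_mul, tu_inv]
  have t4 : tu (qf c).1 = tu (cy c) + tu (cz c) := by
    show tu (uc c (-1) * (cy c * cz c)) = _
    rw [tu_mul, tu_uc two_pos hm, zero_add, tu_mul]
  have t5 : tu (px c).co + tu (qx c).co = tu (cx c) + tu (cw c) := by
    rw [← tu_mul, co_x, tu_mul]
  have t6 : tu (pf c).co + tu (qf c).co = tu (cz c) + tu (cw c) := by
    rw [← tu_mul, co_y, tu_mul, tu_uc two_pos hm, zero_add, tu_mul]
  unfold xi
  rw [map_sub, map_sub, map_add, dif_br, dif_br, dif_br, dif_br, t1, t2, t3, t4]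
  exact sum4 (al (Srf c) 2) _ _ _ _ _ _ _ _ t5 t6

section inv

variable {K : Type*} [Field K] (c : Kˣ) (τ : K →+* K)

/-- `τ` on the coefficients of the Laurent polynomials. -/
noncomputable def coef (τ : K →+* K) : LP K 4 →+* LP K 4 :=
  AddMonoidAlgebra.mapRingHom (Fin 4 → ℤ) τ

theorem coef_single (k : Fin 4 → ℤ) (a : K) :
    coef τ (AddMonoidAlgebra.single k a) = AddMonoidAlgebra.single k (τ a) := by
  unfold coef
  exact AddMonoidAlgebra.mapRingHom_single _ _ _

theorem coef_mono (i : Fin 4) (m : ℤ) :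
    coef τ (mono K i m : LP K 4) = (mono K i m : LP K 4) := by
  show coef τ (AddMonoidAlgebra.single _ _) = AddMonoidAlgebra.single _ _
  rw [coef_single, Units.val_one, map_one]

theorem coef_con (a : K) : coef τ (con a) = con (τ a) := coef_single τ _ _

variable (h : τ (tr c) = tr c)

include h in
theorem idl_le : idl c ≤ (idl c).comap (coef τ) := by
  conv_lhs => unfold idl
  rw [Ideal.span_le]
  rintro P (rfl | rfl)
  · show coef τ (eq1 c) ∈ idl c
    have e : coef τ (eq1 c) = eq1 c := by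
      unfold eq1
      rw [map_sub, map_sub, map_add, coef_mono, coef_mono, coef_mono, coef_con, h]
    rw [e]
    exact Ideal.subset_span (Set.mem_insert _ _)
  · show coef τ (eq2 K) ∈ idl c
    have e : coef τ (eq2 K) = eq2 K := by
      unfold eq2
      rw [map_add, map_add, map_add, map_add, coef_mono, coef_mono, coef_mono, coef_mono, coef_mono]
    rw [e]
    exact Ideal.subset_span (Set.mem_insert_of_mem _ rfl)

/-- The endomorphism of the coordinate ring given by `τ` on the coefficients. -/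
noncomputable def gal : Srf c →+* Srf c := Ideal.quotientMap (idl c) (coef τ) (idl_le c τ h)

theorem gal_cst (a : K) : gal c τ h (cst c a) = cst c (τ a) := by
  show Ideal.quotientMap (idl c) (coef τ) (idl_le c τ h) (Ideal.Quotient.mk (idl c) (con a)) = _
  rw [Ideal.quotientMap_mk, coef_con]
  rfl

theorem gal_mn (a : Kˣ) (k : Fin 4 → ℤ) :
    Units.map (gal c τ h : Srf c →* Srf c) (mn c a k) = mn c (Units.map (τ : K →* K) a) k := by
  ext
  show Ideal.quotientMap (idl c) (coef τ) (idl_le c τ h)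
    (Ideal.Quotient.mk (idl c) (AddMonoidAlgebra.single k (a : K))) = _
  rw [Ideal.quotientMap_mk, coef_single]
  rfl

theorem gal_x : Units.map (gal c τ h : Srf c →* Srf c) (cx c) = cx c := by
  unfold cx
  rw [gal_mn, map_one]

theorem gal_y : Units.map (gal c τ h : Srf c →* Srf c) (cy c) = cy c := by
  unfold cy
  rw [gal_mn, map_one]

theorem gal_z : Units.map (gal c τ h : Srf c →* Srf c) (cz c) = cz c := by
  unfold cz
  rw [gal_mn, map_one]

theorem gal_uc (a : Kˣ) : Units.map (gal c τ h : Srf c →* Srf c) (uc c a) =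
    uc c (Units.map (τ : K →* K) a) := gal_mn c τ h a 0

theorem map_br {A B : Type*} [CommRing A] [CommRing B] (φ : A →+* B) (f : Pt A) (g g' : Aˣ) :
    FS.map φ (br f ![g, g']) = br (f.map φ) ![Units.map (φ : A →* B) g, Units.map (φ : A →* B) g'] := by
  unfold FS.map br
  rw [Finsupp.lmapDomain_apply, Finsupp.mapDomain_single]
  congr 2
  funext i
  fin_cases i <;> rfl

theorem gal_xi : FS.map (gal c τ h) (xi c) = xi c := by
  have hpx : ∀ f : Pt (Srf c), ∀ a : Kˣ, f.1 = uc c a * cx c →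
      (f.map (gal c τ h)).1 = uc c (Units.map (τ : K →* K) a) * cx c := by
    intro f a hf
    show Units.map (gal c τ h : Srf c →* Srf c) f.1 = _
    rw [hf, map_mul, gal_uc, gal_x]
  have hneg : Units.map (τ : K →* K) (-1 : Kˣ) = -1 := by
    ext
    simp
  have e1 : br ((px c).map (gal c τ h)) ![cy c, cz c] + br ((qx c).map (gal c τ h)) ![cy c, cz c] =
      br (px c) ![cy c, cz c] + br (qx c) ![cy c, cz c] := by
    rcases tau_eq τ h with h1 | h1
    · have h2 : (px c).map (gal c τ h) = px c := by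
        apply Subtype.ext
        rw [hpx (px c) c⁻¹ rfl, map_inv, h1]
        rfl
      have h3 : (qx c).map (gal c τ h) = qx c := by
        apply Subtype.ext
        rw [hpx (qx c) c rfl, h1]
        rfl
      rw [h2, h3]
    · have h2 : (px c).map (gal c τ h) = qx c := by
        apply Subtype.ext
        rw [hpx (px c) c⁻¹ rfl, map_inv, h1, inv_inv]
        rfl
      have h3 : (qx c).map (gal c τ h) = px c := by
        apply Subtype.ext
        rw [hpx (qx c) c rfl, h1]
        rfl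
      rw [h2, h3, add_comm]
  have e2 : (pf c).map (gal c τ h) = pf c := by
    apply Subtype.ext
    show Units.map (gal c τ h : Srf c →* Srf c) (uc c (-1) * (cz c * (cy c)⁻¹)) =
      uc c (-1) * (cz c * (cy c)⁻¹)
    rw [map_mul, map_mul, map_inv, gal_uc, gal_y, gal_z, hneg]
  have e3 : (qf c).map (gal c τ h) = qf c := by
    apply Subtype.ext
    show Units.map (gal c τ h : Srf c →* Srf c) (uc c (-1) * (cy c * cz c)) =
      uc c (-1) * (cy c * cz c)
    rw [map_mul, map_mul, gal_uc, gal_y, gal_z, hneg]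
  unfold xi
  rw [map_sub, map_sub, map_add, map_br, map_br, map_br, map_br, gal_x, gal_y, gal_z, e1, e2, e3]

end inv

theorem s_inv : S_INV := by
  intro K _ c τ h
  exact ⟨gal c τ h, gal_cst c τ h, gal_x c τ h, gal_y c τ h, gal_z c τ h, gal_xi c τ h⟩

end Pool.Agent.P8H1.KS
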