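import Pool.Agent.P8H1.KS.Reg3
set_option autoImplicit false

/-!
Bounds for the integrand.
-/

namespace Pool.Agent.P8H1.KS

open Real Set Filter Topology MeasureTheory
open Pool.Agent.N65.TK (Pt D)
open Pool.Agent.P8H1.EK (D_le)

section bounds

variable {k e : ℝ} (he0 : 0 ≤ e) (he1 : e ≤ 1)

include he0 he1

theorem es_le (a : ℝ) : |e * Real.sin a| ≤ 1 := by
  rw [abs_mul, abs_of_nonneg he0]
  have := Real.abs_sin_le_one a
  nlinarith [abs_nonneg (Real.sin a)]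

theorem norm_xe_le (a : ℝ) : ‖xe e a‖ ≤ 3 ∧ ‖(xe e a)⁻¹‖ ≤ 3 := by
  have h := abs_le.1 (es_le he0 he1 a)
  have h1 := Real.exp_one_lt_d9
  have h2 : Real.exp (-(e * Real.sin a)) ≤ Real.exp 1 := Real.exp_le_exp.2 (by linarith)
  have h3 : Real.exp (e * Real.sin a) ≤ Real.exp 1 := Real.exp_le_exp.2 (by linarith)
  rw [norm_inv, norm_xe]
  refine ⟨by linarith, ?_⟩
  rw [← Real.exp_neg, neg_neg]
  linarith

theorem norm_Ce_le (a : ℝ) : ‖Ce e a‖ ≤ 6 := by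
  obtain ⟨h1, h2⟩ := norm_xe_le he0 he1 a
  rw [← xe_add]
  exact (norm_add_le _ _).trans (by linarith)

theorem norm_ad_le (a : ℝ) : ‖ad e a‖ ≤ 2 := by
  unfold ad
  refine (norm_add_le _ _).trans ?_
  rw [norm_one, norm_mul, Complex.norm_I, mul_one, Complex.norm_real, Real.norm_eq_abs, abs_mul,
    abs_of_nonneg he0]
  have := Real.abs_cos_le_one a
  nlinarith [abs_nonneg (Real.cos a)]

theorem norm_Xd_le (a : ℝ) : ‖Xd e a‖ ≤ 4 * π := by
  unfold Xd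
  rw [norm_mul, norm_mul, Complex.norm_I, one_mul, Complex.norm_real,
    Real.norm_of_nonneg (by positivity)]
  have := norm_ad_le he0 he1 a
  have := Real.pi_pos
  nlinarith

theorem norm_sin_le (a : ℝ) : ‖Complex.sin (an e a)‖ ≤ 4 * |Real.sin a| := by
  have hs := es_le he0 he1 a
  unfold an
  rw [Complex.sin_add_mul_I, ← Complex.ofReal_sin, ← Complex.ofReal_cosh, ← Complex.ofReal_cos,
    ← Complex.ofReal_sinh, ← Complex.ofReal_mul, ← Complex.ofReal_mul]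
  refine (norm_add_le _ _).trans ?_
  rw [norm_mul, Complex.norm_I, mul_one, Complex.norm_real, Complex.norm_real, Real.norm_eq_abs,
    Real.norm_eq_abs, abs_mul, abs_mul, abs_of_pos (Real.cosh_pos _)]
  have hc : Real.cosh (e * Real.sin a) ≤ 2 := by
    have h2 : Real.cosh (e * Real.sin a) ≤ Real.cosh 1 := Real.cosh_le_cosh.2 (by rwa [abs_one])
    have h3 : Real.cosh 1 ≤ 2 := by
      rw [Real.cosh_eq]
      have h4 := Real.exp_one_lt_d9
      have h5 : Real.exp (-1) ≤ 1 := Real.exp_le_one_iff.2 (by norm_num)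
      linarith
    linarith
  have hsh : |Real.sinh (e * Real.sin a)| ≤ 2 * |Real.sin a| := by
    have h1 := Real.abs_exp_sub_one_le hs
    have h2 := Real.abs_exp_sub_one_le (x := -(e * Real.sin a)) (by rwa [abs_neg])
    rw [abs_neg] at h2
    have h3 : Real.sinh (e * Real.sin a) =
        ((Real.exp (e * Real.sin a) - 1) - (Real.exp (-(e * Real.sin a)) - 1)) / 2 := by
      rw [Real.sinh_eq]
      ring
    rw [h3, abs_div, abs_two]
    have h4 := abs_sub (Real.exp (e * Real.sin a) - 1) (Real.exp (-(e * Real.sin a)) - 1)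
    have h5 : |e * Real.sin a| ≤ |Real.sin a| := by
      rw [abs_mul, abs_of_nonneg he0]
      nlinarith [abs_nonneg (Real.sin a)]
    linarith
  have h4 := Real.abs_cos_le_one a
  have h6 : |Real.cos a| * |Real.sinh (e * Real.sin a)| ≤ 1 * (2 * |Real.sin a|) := by gcongr
  have h7 : |Real.sin a| * Real.cosh (e * Real.sin a) ≤ |Real.sin a| * 2 := by gcongr
  linarith

theorem norm_Zd_le (a : ℝ) : ‖Zd e a‖ ≤ 32 * π * |Real.sin a| := by
  unfold Zd
  rw [norm_mul, norm_mul, norm_mul, Complex.norm_real, Real.norm_of_nonneg (by positivity),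
    Complex.norm_ofNat]
  have h1 := norm_sin_le he0 he1 a
  have h2 := norm_ad_le he0 he1 a
  have h3 := Real.pi_pos
  have h4 : 2 * ‖Complex.sin (an e a)‖ * ‖ad e a‖ ≤ 2 * (4 * |Real.sin a|) * 2 := by gcongr
  nlinarith

theorem norm_wf_ge (k a : ℝ) : 2 * (e * Real.sin a ^ 2) ≤ ‖wf k e a‖ := by
  have h1 := Ce_im_le he0 a
  have h2 := Complex.abs_im_le_norm (wf k e a)
  have h3 : (wf k e a).im = (Ce e a).im := by
    unfold wf
    rw [Complex.sub_im, Complex.ofReal_im, sub_zero]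
  rw [h3] at h2
  have h4 := neg_le_abs (Ce e a).im
  linarith

theorem norm_wf_le (hk : |k| < 2) (a : ℝ) : ‖wf k e a‖ ≤ 8 := by
  unfold wf
  refine (norm_sub_le _ _).trans ?_
  rw [Complex.norm_real, Real.norm_eq_abs]
  have := norm_Ce_le he0 he1 a
  linarith

/-- the bound for the logarithmic derivative -/
theorem es_Vx (k a : ℝ) : |e * Real.sin a| * ‖Vx k e a‖ ≤ 20 * π := by
  have h1 := norm_Xd_le he0 he1 a
  have h2 := norm_Zd_le he0 he1 a
  have h3 := norm_wf_ge he0 he1 k a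
  have hs := es_le he0 he1 a
  have hpi := Real.pi_pos
  have h4 : |e * Real.sin a| * ‖Zd e a / wf k e a‖ ≤ 16 * π := by
    by_cases h0 : wf k e a = 0
    · rw [h0, div_zero, norm_zero, mul_zero]
      positivity
    · have h5 : 0 < ‖wf k e a‖ := norm_pos_iff.2 h0
      rw [norm_div, mul_div_assoc', div_le_iff₀ h5]
      have h6 : |e * Real.sin a| * ‖Zd e a‖ ≤ |e * Real.sin a| * (32 * π * |Real.sin a|) := by gcongr
      have h7 : |e * Real.sin a| * (32 * π * |Real.sin a|) = 16 * π * (2 * (e * Real.sin a ^ 2)) := by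
        rw [abs_mul, abs_of_nonneg he0, ← sq_abs (Real.sin a)]
        ring
      have h8 : 16 * π * (2 * (e * Real.sin a ^ 2)) ≤ 16 * π * ‖wf k e a‖ := by gcongr
      linarith
  have h5 : |e * Real.sin a| * ‖Xd e a‖ ≤ 1 * (4 * π) := by gcongr
  have h6 : ‖Vx k e a‖ ≤ ‖Xd e a‖ + ‖Zd e a / wf k e a‖ := norm_sub_le _ _
  have h7 : |e * Real.sin a| * ‖Vx k e a‖ ≤
      |e * Real.sin a| * (‖Xd e a‖ + ‖Zd e a / wf k e a‖) := by gcongr
  linarith

end bounds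

section logw

variable {k e : ℝ} {z : ℂ} (hz : ‖z‖ = 1) (hzk : z + z⁻¹ = k)

theorem xe_scale (e a : ℝ) : xe e a = ((Real.exp (-(e * Real.sin a)) : ℝ) : ℂ) * xe 0 a := by
  unfold xe an
  rw [Complex.ofReal_exp, ← Complex.exp_add]
  congr 1
  push_cast
  linear_combination ((e : ℂ) * Complex.sin a) * Complex.I_sq

theorem one_sub_scale {u : ℂ} (hu : ‖u‖ = 1) {r : ℝ} (hr : 0 < r) : ‖1 - u‖ ≤ 2 * ‖1 - r * u‖ := by
  have h1 : ‖1 - u‖ ≤ ‖1 - r * u‖ + ‖(r * u : ℂ) - u‖ := by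
    have := norm_add_le (1 - r * u) ((r * u : ℂ) - u)
    have h2 : (1 - r * u) + ((r * u : ℂ) - u) = 1 - u := by ring
    rwa [h2] at this
  have h2 : ‖(r * u : ℂ) - u‖ = |r - 1| := by
    have h3 : (r * u : ℂ) - u = ((r - 1 : ℝ) : ℂ) * u := by
      push_cast
      ring
    rw [h3, norm_mul, hu, mul_one, Complex.norm_real, Real.norm_eq_abs]
  have h3 : |r - 1| ≤ ‖1 - r * u‖ := by
    have h4 := abs_norm_sub_norm_le (1 : ℂ) (r * u)
    rw [norm_one, norm_mul, hu, mul_one, Complex.norm_real, Real.norm_of_nonneg hr.le] at h4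
    rwa [abs_sub_comm]
  linarith

include hz hzk

theorem wf_scale (he0 : 0 ≤ e) (he1 : e ≤ 1) (a : ℝ) : ‖wf k 0 a‖ ≤ 12 * ‖wf k e a‖ := by
  have h1 := prodX hz hzk e a
  have h2 := prodX hz hzk 0 a
  have hz0 : ‖z⁻¹‖ = 1 := by rw [norm_inv, hz, inv_one]
  have hx0 : ‖xe 0 a‖ = 1 := by rw [norm_xe, zero_mul, neg_zero, Real.exp_zero]
  have hr := Real.exp_pos (-(e * Real.sin a))
  have u1 : ‖z⁻¹ * xe 0 a‖ = 1 := by rw [norm_mul, hz0, hx0, one_mul]
  have u2 : ‖z * xe 0 a‖ = 1 := by rw [norm_mul, hz, hx0, one_mul]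
  have g1 := one_sub_scale u1 hr
  have g2 := one_sub_scale u2 hr
  have e1 : ((Real.exp (-(e * Real.sin a)) : ℝ) : ℂ) * (z⁻¹ * xe 0 a) = z⁻¹ * xe e a := by
    rw [xe_scale e a]
    ring
  have e2 : ((Real.exp (-(e * Real.sin a)) : ℝ) : ℂ) * (z * xe 0 a) = z * xe e a := by
    rw [xe_scale e a]
    ring
  rw [e1] at g1
  rw [e2] at g2
  have n1 := congrArg norm h1
  have n2 := congrArg norm h2
  rw [norm_mul, norm_mul] at n1 n2
  rw [hx0, one_mul] at n2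
  rw [← n2]
  have h3 := (norm_xe_le he0 he1 a).1
  have h4 : ‖1 - z⁻¹ * xe 0 a‖ * ‖1 - z * xe 0 a‖ ≤
      (2 * ‖1 - z⁻¹ * xe e a‖) * (2 * ‖1 - z * xe e a‖) := by gcongr
  have h5 : ‖xe e a‖ * ‖wf k e a‖ ≤ 3 * ‖wf k e a‖ := by gcongr
  nlinarith

theorem log_wf (hk : |k| < 2) (he0 : 0 ≤ e) (he1 : e ≤ 1) {a : ℝ} (h0 : wf k 0 a ≠ 0) :
    |Real.log ‖wf k e a‖| ≤ 11 + |Real.log ‖wf k 0 a‖| := by
  have h1 := wf_scale hz hzk he0 he1 a
  have h2 : 0 < ‖wf k 0 a‖ := norm_pos_iff.2 h0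
  have h3 : 0 < ‖wf k e a‖ := by linarith
  have h4 := norm_wf_le he0 he1 hk a
  have h5 := Real.log_le_sub_one_of_pos h3
  have h6 : Real.log ‖wf k 0 a‖ ≤ Real.log (12 * ‖wf k e a‖) := Real.log_le_log h2 h1
  rw [Real.log_mul (by norm_num) h3.ne'] at h6
  have h7 := Real.log_le_sub_one_of_pos (show (0 : ℝ) < 12 by norm_num)
  have h8 := neg_abs_le (Real.log ‖wf k 0 a‖)
  have h9 := abs_nonneg (Real.log ‖wf k 0 a‖)
  rw [abs_le]
  constructor <;> linarith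

end logw

section zpart

variable {k e : ℝ} (hk : |k| < 2) (he : 0 < e) (he1 : e ≤ 1)

include hk he he1

theorem norm_Ze_le (a b : ℝ) : ‖Ze k e a b‖ ≤ 14 := by
  unfold Ze
  have h1 := norm_Ce_le he.le he1 a
  have h2 := norm_Ce_le he.le he1 b
  have h3 : ‖(k : ℂ)‖ ≤ 2 := by
    rw [Complex.norm_real, Real.norm_eq_abs]
    exact hk.le
  refine (norm_sub_le _ _).trans ?_
  have := norm_sub_le (k : ℂ) (Ce e a)
  linarith

theorem norm_PQ_le (a b : ℝ) : ‖Pf (Ze k e a b)‖ ≤ 4 ∧ ‖Qf (Ze k e a b)‖ ≤ 4 := by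
  have hO := ok_Ze he hk a b
  have h0 := norm_Ze_le hk he he1 a b
  have h1 := congrArg norm hO.Pf_sq
  have h2 := congrArg norm hO.Qf_sq
  rw [norm_pow] at h1 h2
  have h3 := norm_add_le (Ze k e a b) 2
  have h4 := norm_sub_le (Ze k e a b) 2
  rw [Complex.norm_ofNat] at h3 h4
  constructor
  · nlinarith [norm_nonneg (Pf (Ze k e a b))]
  · nlinarith [norm_nonneg (Qf (Ze k e a b))]

theorem norm_zf_le (a b : ℝ) : ‖zf (Ze k e a b)‖ ≤ 16 ∧ ‖(zf (Ze k e a b))⁻¹‖ ≤ 16 := by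
  have hO := ok_Ze he hk a b
  obtain ⟨h1, h2⟩ := norm_PQ_le hk he he1 a b
  have h3 : ‖Sf (Ze k e a b)‖ ≤ 4 := by
    unfold Sf
    rw [norm_div, Complex.norm_ofNat]
    have := norm_add_le (Pf (Ze k e a b)) (Qf (Ze k e a b))
    linarith
  have h4 : ‖(Sf (Ze k e a b))⁻¹‖ ≤ 4 := by
    rw [hO.Sf_inv, norm_div, Complex.norm_ofNat]
    have := norm_sub_le (Pf (Ze k e a b)) (Qf (Ze k e a b))
    linarith
  have h5 : (zf (Ze k e a b))⁻¹ = Sf (Ze k e a b) ^ 2 := by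
    unfold zf
    rw [inv_inv]
  have h6 : zf (Ze k e a b) = (Sf (Ze k e a b))⁻¹ ^ 2 := by
    unfold zf
    rw [inv_pow]
  rw [h5, h6, norm_pow, norm_pow]
  constructor
  · nlinarith [norm_nonneg (Sf (Ze k e a b))⁻¹]
  · nlinarith [norm_nonneg (Sf (Ze k e a b))]

theorem abs_log_of {u : ℂ} {M : ℝ} (hu : u ≠ 0) (h1 : ‖u‖ ≤ M) (h2 : ‖u⁻¹‖ ≤ M) :
    |Real.log ‖u‖| ≤ M := by
  have h0 := norm_pos_iff.2 hu
  have h3 := Real.log_le_sub_one_of_pos h0
  have h4 := Real.one_sub_inv_le_log_of_pos h0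
  rw [norm_inv] at h2
  rw [abs_le]
  constructor <;> linarith

theorem abs_nu_le (a b : ℝ) : |nu k e a b| ≤ 16 := by
  obtain ⟨h1, h2⟩ := norm_zf_le hk he he1 a b
  rw [← log_norm_zf he hk]
  exact abs_log_of hk he he1 (ok_Ze he hk a b).zf_ne h1 h2

theorem abs_mu_le (a b : ℝ) : |mu k e a b| ≤ 8 := by
  unfold mu lf
  rw [Complex.neg_im, abs_neg, ← Complex.ofReal_ofNat, Complex.im_ofReal_mul, Complex.log_im, abs_mul,
    abs_two]
  have h1 := Complex.abs_arg_le_pi (Sf (Ze k e a b))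
  have h2 := Real.pi_lt_four
  linarith

/-- the bound for the logarithmic derivatives of `z` -/
theorem e_zl (a b c : ℝ) (h : c = a ∨ c = b) : e * ‖zl k e a b c‖ ≤ 16 * π := by
  have hO := ok_Ze he hk a b
  have h1 := norm_Zd_le he.le he1 c
  have h2 := Ze_im_ge he.le k a b
  have h3 : 2 * (e * Real.sin c ^ 2) ≤ (Ze k e a b).im := by
    have h4 : 0 ≤ e * Real.sin a ^ 2 := by positivity
    have h5 : 0 ≤ e * Real.sin b ^ 2 := by positivity
    rcases h with rfl | rfl <;> linarith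
  set Z := Ze k e a b with hZ
  have h4 : Z.im ≤ ‖Z - 2‖ := by
    have := Complex.abs_im_le_norm (Z - 2)
    rw [Complex.sub_im] at this
    have h5 : (2 : ℂ).im = 0 := by simp
    rw [h5, sub_zero] at this
    exact (le_abs_self _).trans this
  have h5 : Z.im ≤ ‖Z + 2‖ := by
    have := Complex.abs_im_le_norm (Z + 2)
    rw [Complex.add_im] at this
    have h5 : (2 : ℂ).im = 0 := by simp
    rw [h5, add_zero] at this
    exact (le_abs_self _).trans this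
  have h6 : 4 ≤ ‖Z - 2‖ + ‖Z + 2‖ := by
    have h7 := norm_sub_le (Z + 2) (Z - 2)
    have h8 : Z + 2 - (Z - 2) = 4 := by ring
    rw [h8, Complex.norm_ofNat] at h7
    linarith
  have h7 : ‖rf Z‖ ^ 2 = ‖Z - 2‖ * ‖Z + 2‖ := by
    rw [← norm_pow, hO.rf_sq, ← norm_mul]
    congr 1
    ring
  have h8 : 2 * Z.im ≤ ‖rf Z‖ ^ 2 := by
    rw [h7]
    have hi : 0 ≤ Z.im := hO.im
    rcases le_total 2 ‖Z - 2‖ with h9 | h9
    · nlinarith [norm_nonneg (Z + 2)]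
    · have h10 : 2 ≤ ‖Z + 2‖ := by linarith
      nlinarith [norm_nonneg (Z - 2)]
  have hr := norm_pos_iff.2 hO.rf_ne
  have hpi := Real.pi_pos
  unfold zl
  rw [norm_neg, norm_div, mul_div_assoc', div_le_iff₀ hr]
  refine (sq_le_sq₀ (by positivity) (by positivity)).1 ?_
  have h9 : (e * ‖Zd e c‖) ^ 2 ≤ (e * (32 * π * |Real.sin c|)) ^ 2 := by gcongr
  have h10 : (e * (32 * π * |Real.sin c|)) ^ 2 = (16 * π) ^ 2 * (e * (4 * (e * Real.sin c ^ 2))) := by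
    rw [← sq_abs (Real.sin c)]
    ring
  have h11 : e * (4 * (e * Real.sin c ^ 2)) ≤ 1 * ‖rf Z‖ ^ 2 := by
    have h12 : 0 ≤ e * Real.sin c ^ 2 := by positivity
    have h13 : 4 * (e * Real.sin c ^ 2) ≤ ‖rf Z‖ ^ 2 := by linarith
    exact mul_le_mul he1 h13 (by positivity) zero_le_one
  have h12 : (16 * π) ^ 2 * (e * (4 * (e * Real.sin c ^ 2))) ≤ (16 * π) ^ 2 * (1 * ‖rf Z‖ ^ 2) := by
    gcongr
  calc (e * ‖Zd e c‖) ^ 2 ≤ (16 * π) ^ 2 * (e * (4 * (e * Real.sin c ^ 2))) := by rw [← h10]; exact h9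
    _ ≤ (16 * π) ^ 2 * (1 * ‖rf Z‖ ^ 2) := h12
    _ = (16 * π * ‖rf Z‖) ^ 2 := by ring

end zpart

end Pool.Agent.P8H1.KS
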