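import Pool.Agent.P8H1.KS.Bnd
set_option autoImplicit false

/-!
The integrand is bounded by an integrable function.
-/

namespace Pool.Agent.P8H1.KS

open Real Set Filter Topology MeasureTheory
open Pool.Agent.N65.TK (Pt D)
open Pool.Agent.P8H1.EK (D_le)

/-- the dominating function -/
noncomputable def Gw (k a : ℝ) : ℝ := 1 + |Real.log ‖wf k 0 a‖|

theorem one_le_Gw (k a : ℝ) : 1 ≤ Gw k a := by
  unfold Gw
  linarith [abs_nonneg (Real.log ‖wf k 0 a‖)]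

section

variable {k e : ℝ} {z : ℂ} (hz : ‖z‖ = 1) (hzk : z + z⁻¹ = k) (hk : |k| < 2) (he : 0 < e)
  (he1 : e ≤ 1) {a : ℝ} (h0 : wf k 0 a ≠ 0)

include hz hzk hk he he1 h0

theorem abs_Lw_le : |Lw k e a| ≤ 12 * Gw k a := by
  unfold Lw Gw
  have h1 := log_wf hz hzk hk he.le he1 h0
  have h2 := es_le he.le he1 a
  have h3 := abs_add_le (-(e * Real.sin a)) (Real.log ‖wf k e a‖)
  rw [abs_neg] at h3
  have h4 := abs_nonneg (Real.log ‖wf k 0 a‖)
  linarith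

theorem abs_Ax_le : |Ax k e a| ≤ 200 * Gw k a := by
  have h1 := abs_Lw_le hz hzk hk he he1 h0
  have h2 := es_Vx he.le he1 k a
  have h3 := Complex.abs_im_le_norm (Vx k e a)
  have hpi := Real.pi_lt_four
  have hpi0 := Real.pi_pos
  have hG := one_le_Gw k a
  unfold Ax
  refine (abs_sub _ _).trans ?_
  rw [abs_mul, abs_neg, abs_mul (2 * π), abs_of_pos (show 0 < 2 * π by positivity)]
  have h4 : |e * Real.sin a| * |(Vx k e a).im| ≤ |e * Real.sin a| * ‖Vx k e a‖ := by gcongr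
  have h5 : 2 * π * |Lw k e a| ≤ 2 * 4 * (12 * Gw k a) := by gcongr
  have h6 : 20 * π ≤ 80 * Gw k a := by nlinarith
  linarith

theorem abs_pX_le : |pX k e a| ≤ 200 * Gw k a := by
  have h1 := abs_Lw_le hz hzk hk he he1 h0
  have h2 := es_Vx he.le he1 k a
  have h3 := Complex.abs_re_le_norm (Vx k e a)
  have hpi := Real.pi_lt_four
  have hpi0 := Real.pi_pos
  have hG := one_le_Gw k a
  have hc := Real.abs_cos_le_one a
  unfold pX
  refine (abs_add_le _ _).trans ?_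
  rw [abs_mul, abs_neg, abs_mul (2 * π), abs_of_pos (show 0 < 2 * π by positivity),
    abs_mul e (Real.cos a), abs_of_pos he, abs_mul (e * Real.sin a)]
  have h4 : |e * Real.sin a| * |(Vx k e a).re| ≤ |e * Real.sin a| * ‖Vx k e a‖ := by gcongr
  have h5 : |Lw k e a| * (2 * π * (e * |Real.cos a|)) ≤ (12 * Gw k a) * (2 * 4 * (1 * 1)) := by
    gcongr
  have h6 : 20 * π ≤ 80 * Gw k a := by nlinarith
  linarith

theorem abs_Ph1_le (b : ℝ) : |Ph1 k e a b| ≤ 40000 * Gw k a := by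
  have h1 := abs_Ax_le hz hzk hk he he1 h0
  have h2 := abs_pX_le hz hzk hk he he1 h0
  have h3 := abs_mu_le hk he he1 a b
  have h4 := abs_nu_le hk he he1 a b
  have hpi := Real.pi_lt_four
  have hpi0 := Real.pi_pos
  have hG := one_le_Gw k a
  have hc := Real.abs_cos_le_one b
  have e1 : |e * Real.cos b| ≤ 1 := by
    rw [abs_mul, abs_of_pos he]
    have h5 : e * |Real.cos b| ≤ 1 * 1 := by gcongr
    linarith
  have e3 : 0 < 2 * π / 3 := by positivity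
  have e4 : 2 * π / 3 ≤ 3 := by linarith
  have m1 : |2 * π * mu k e a b + 2 * π / 3 * (e * Real.cos b) * nu k e a b| ≤ 112 := by
    refine (abs_add_le _ _).trans ?_
    rw [abs_mul, abs_mul (2 * π / 3 * (e * Real.cos b)), abs_mul (2 * π / 3), abs_of_pos e3,
      abs_of_pos (show 0 < 2 * π by positivity)]
    have h5 : 2 * π * |mu k e a b| ≤ 2 * 4 * 8 := by gcongr
    have h6 : 2 * π / 3 * |e * Real.cos b| * |nu k e a b| ≤ 3 * 1 * 16 := by gcongr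
    linarith
  have m2 : |Ax k e a * (2 * π * mu k e a b + 2 * π / 3 * (e * Real.cos b) * nu k e a b)| ≤
      200 * Gw k a * 112 := by
    rw [abs_mul]
    gcongr
  have m3 : |2 * π / 3 * (e * Real.cos b) * pX k e a * mu k e a b| ≤ 3 * 1 * (200 * Gw k a) * 8 := by
    rw [abs_mul, abs_mul, abs_mul (2 * π / 3), abs_of_pos e3]
    gcongr
  have m4 : |2 * π / 3 * nu k e a b * pX k e a| ≤ 3 * 16 * (200 * Gw k a) := by
    rw [abs_mul, abs_mul (2 * π / 3), abs_of_pos e3]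
    gcongr
  unfold Ph1
  have h5 := abs_add_le (Ax k e a * (2 * π * mu k e a b + 2 * π / 3 * (e * Real.cos b) * nu k e a b) -
    2 * π / 3 * (e * Real.cos b) * pX k e a * mu k e a b) (2 * π / 3 * nu k e a b * pX k e a)
  have h6 := abs_sub (Ax k e a * (2 * π * mu k e a b + 2 * π / 3 * (e * Real.cos b) * nu k e a b))
    (2 * π / 3 * (e * Real.cos b) * pX k e a * mu k e a b)
  linarith

omit hz hzk h0 in
theorem prod_f (a b : ℝ) : (1 - f3 k e a b) * (1 - f4 k e a b) = -(zf (Ze k e a b) * wf k e a) := by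
  have h1 := (ok_Ze he hk a b).zf_add
  have h2 := xe_add e b
  have h3 := (ok_Ze he hk a b).zf_ne
  have h4 := xe_ne e b
  have h5 : wf k e a = -(Ze k e a b) - Ce e b := by
    unfold wf Ze
    ring
  have h6 : xe e b * (xe e b)⁻¹ = 1 := mul_inv_cancel₀ h4
  have h7 : zf (Ze k e a b) * (zf (Ze k e a b))⁻¹ = 1 := mul_inv_cancel₀ h3
  rw [h5]
  unfold f3 f4
  linear_combination zf (Ze k e a b) ^ 2 * h6 - h7 + zf (Ze k e a b) * h1 + zf (Ze k e a b) * h2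

omit hz hzk h0 in
theorem norm_f_le (a b : ℝ) : (‖f3 k e a b‖ ≤ 48 ∧ ‖(f3 k e a b)⁻¹‖ ≤ 48 ∧ f3 k e a b ≠ 0) ∧
    (‖f4 k e a b‖ ≤ 48 ∧ ‖(f4 k e a b)⁻¹‖ ≤ 48 ∧ f4 k e a b ≠ 0) := by
  obtain ⟨h1, h2⟩ := norm_zf_le hk he he1 a b
  obtain ⟨h3, h4⟩ := norm_xe_le he.le he1 b
  have h5 := (ok_Ze he hk a b).zf_ne
  have h6 := xe_ne e b
  unfold f3 f4
  refine ⟨⟨?_, ?_, neg_ne_zero.2 (mul_ne_zero h5 (inv_ne_zero h6))⟩, ?_, ?_,
    neg_ne_zero.2 (mul_ne_zero h6 h5)⟩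
  · rw [norm_neg, norm_mul]
    have : ‖zf (Ze k e a b)‖ * ‖(xe e b)⁻¹‖ ≤ 16 * 3 := by gcongr
    linarith
  · rw [norm_inv, norm_neg, norm_mul, mul_inv, ← norm_inv, ← norm_inv, inv_inv]
    have : ‖(zf (Ze k e a b))⁻¹‖ * ‖xe e b‖ ≤ 16 * 3 := by gcongr
    linarith
  · rw [norm_neg, norm_mul]
    have : ‖xe e b‖ * ‖zf (Ze k e a b)‖ ≤ 3 * 16 := by gcongr
    linarith
  · rw [norm_inv, norm_neg, norm_mul, mul_inv, ← norm_inv, ← norm_inv]
    have : ‖(xe e b)⁻¹‖ * ‖(zf (Ze k e a b))⁻¹‖ ≤ 3 * 16 := by gcongr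
    linarith

/-- the logarithms of the norms of the factors -/
theorem log_one_sub {f g : ℂ} (b : ℝ) (hf : ‖f‖ ≤ 48) (hg : ‖g‖ ≤ 48)
    (hfg : (1 - f) * (1 - g) = -(zf (Ze k e a b) * wf k e a)) :
    1 - f ≠ 0 ∧ |Real.log ‖1 - f‖| ≤ 80 * Gw k a := by
  obtain ⟨h1, h2⟩ := norm_zf_le hk he he1 a b
  have hzf := (ok_Ze he hk a b).zf_ne
  have hwf : wf k e a ≠ 0 := w_ne he hk a
  have hne : (1 - f) * (1 - g) ≠ 0 := by
    rw [hfg]
    exact neg_ne_zero.2 (mul_ne_zero hzf hwf)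
  have hf1 := left_ne_zero_of_mul hne
  have hg1 := right_ne_zero_of_mul hne
  refine ⟨hf1, ?_⟩
  have nf := norm_pos_iff.2 hf1
  have ng := norm_pos_iff.2 hg1
  have h3 := congrArg norm hfg
  rw [norm_mul, norm_neg, norm_mul] at h3
  have h4 := congrArg Real.log h3
  rw [Real.log_mul nf.ne' ng.ne', Real.log_mul (norm_ne_zero_iff.2 hzf) (norm_ne_zero_iff.2 hwf)] at h4
  have h5 := abs_log_of hk he he1 hzf h1 h2
  have h6 := log_wf hz hzk hk he.le he1 h0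
  have h7 : ‖1 - f‖ ≤ 49 := by
    have := norm_sub_le 1 f
    rw [norm_one] at this
    linarith
  have h8 : ‖1 - g‖ ≤ 49 := by
    have := norm_sub_le 1 g
    rw [norm_one] at this
    linarith
  have h9 := Real.log_le_sub_one_of_pos nf
  have h10 := Real.log_le_sub_one_of_pos ng
  have h11 := abs_le.1 h5
  have h12 := abs_le.1 h6
  have h13 := abs_nonneg (Real.log ‖wf k 0 a‖)
  unfold Gw
  rw [abs_le]
  constructor <;> linarith

omit hz hzk hk he he1 h0 in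
theorem log_norm_le_mul {f : ℂ} (h0 : f ≠ 0) (h2 : ‖f⁻¹‖ ≤ 48) :
    |Real.log ‖f‖| ≤ 48 * ‖1 - f‖ := by
  have hp := norm_pos_iff.2 h0
  have h3 := Real.log_le_sub_one_of_pos hp
  have h4 := Real.one_sub_inv_le_log_of_pos hp
  rw [norm_inv] at h2
  have h5 : 1 - ‖f‖⁻¹ = ‖f‖⁻¹ * (‖f‖ - 1) := by field_simp
  have h6 : |‖f‖ - 1| ≤ ‖1 - f‖ := by
    have := abs_norm_sub_norm_le f 1
    rw [norm_one] at this
    rwa [norm_sub_rev] at this
  refine le_trans ?_ (mul_le_mul_of_nonneg_left h6 (by norm_num))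
  rcases le_total 1 ‖f‖ with h | h
  · rw [abs_of_nonneg (Real.log_nonneg h), abs_of_nonneg (by linarith)]
    linarith
  · rw [abs_of_nonpos (Real.log_nonpos hp.le h), abs_of_nonpos (by linarith)]
    rw [h5] at h4
    have h7 : ‖f‖⁻¹ * (1 - ‖f‖) ≤ 48 * (1 - ‖f‖) := mul_le_mul_of_nonneg_right h2 (by linarith)
    linarith

theorem pp_le {f g l : ℂ} (b : ℝ) (hf0 : f ≠ 0) (hf : ‖f‖ ≤ 48) (hf' : ‖f⁻¹‖ ≤ 48) (hg : ‖g‖ ≤ 48)
    (hfg : (1 - f) * (1 - g) = -(zf (Ze k e a b) * wf k e a)) (hl : e * ‖l‖ ≤ 20 * π) :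
    e * |pp f l| ≤ 200000 * Gw k a := by
  obtain ⟨h1, h2⟩ := log_one_sub hz hzk hk he he1 h0 b hf hg hfg
  have h3 := log_norm_le_mul hf0 hf'
  have n1 := norm_pos_iff.2 h1
  have hG := one_le_Gw k a
  have h4 : |pp f l| ≤ (80 * Gw k a + 48 * 48) * ‖l‖ := by
    unfold pp
    refine (abs_sub _ _).trans ?_
    rw [abs_mul, abs_mul]
    have h5 := Complex.abs_re_le_norm l
    have h6 := Complex.abs_re_le_norm (-(f * l) / (1 - f))
    rw [norm_div, norm_neg, norm_mul] at h6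
    have h7 : |Real.log ‖1 - f‖| * |l.re| ≤ 80 * Gw k a * ‖l‖ := by gcongr
    have h8 : |Real.log ‖f‖| * |(-(f * l) / (1 - f)).re| ≤
        (48 * ‖1 - f‖) * (48 * ‖l‖ / ‖1 - f‖) := by
      have h9 : ‖f‖ * ‖l‖ / ‖1 - f‖ ≤ 48 * ‖l‖ / ‖1 - f‖ := by gcongr
      have h10 := h6.trans h9
      gcongr
    have h9 : (48 * ‖1 - f‖) * (48 * ‖l‖ / ‖1 - f‖) = 48 * 48 * ‖l‖ := by
      field_simp
    linarith
  have hpi := Real.pi_lt_four
  have h5 : e * |pp f l| ≤ e * ((80 * Gw k a + 48 * 48) * ‖l‖) := by gcongr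
  have h6 : e * ((80 * Gw k a + 48 * 48) * ‖l‖) = (80 * Gw k a + 48 * 48) * (e * ‖l‖) := by ring
  have h7 : (80 * Gw k a + 48 * 48) * (e * ‖l‖) ≤ (80 * Gw k a + 48 * 48) * 80 := by
    have : e * ‖l‖ ≤ 80 := by linarith
    gcongr
  linarith

theorem Phf_le {f g l0 l1 : ℂ} (b : ℝ) (hf0 : f ≠ 0) (hf : ‖f‖ ≤ 48) (hf' : ‖f⁻¹‖ ≤ 48)
    (hg : ‖g‖ ≤ 48) (hfg : (1 - f) * (1 - g) = -(zf (Ze k e a b) * wf k e a))
    (hl0 : e * ‖l0‖ ≤ 20 * π) (hl1 : e * ‖l1‖ ≤ 20 * π) :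
    |Phf e a b f l0 l1| ≤ 2000000 * Gw k a := by
  have p0 := pp_le hz hzk hk he he1 h0 b hf0 hf hf' hg hfg hl0
  have p1 := pp_le hz hzk hk he he1 h0 b hf0 hf hf' hg hfg hl1
  have hG := one_le_Gw k a
  have hD : |D f| ≤ 12 * 48 := D_le hf (abs_log_of hk he he1 hf0 hf hf')
  have hpi := Real.pi_lt_four
  have hpi0 := Real.pi_pos
  have hpi2 : π ^ 2 ≤ 16 := by nlinarith
  have ca1 := Real.abs_cos_le_one a
  have cb1 := Real.abs_cos_le_one b
  have e2 : e ^ 2 ≤ 1 := by nlinarith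
  have h1 : |1 - 1 / 3 * (e ^ 2 * Real.cos a * Real.cos b)| ≤ 2 := by
    have h2 : |e ^ 2 * Real.cos a * Real.cos b| ≤ 1 := by
      rw [abs_mul, abs_mul, abs_of_nonneg (sq_nonneg e)]
      have : e ^ 2 * |Real.cos a| * |Real.cos b| ≤ 1 * 1 * 1 := by gcongr
      linarith
    have h3 := abs_le.1 h2
    rw [abs_le]
    constructor <;> linarith
  have h2 : |4 * π ^ 2 * (D f * (1 - 1 / 3 * (e ^ 2 * Real.cos a * Real.cos b)))| ≤
      4 * 16 * (12 * 48 * 2) := by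
    rw [abs_mul, abs_mul (D f), abs_of_pos (show 0 < 4 * π ^ 2 by positivity)]
    gcongr
  have e3 : 0 < 2 * π / 3 := by positivity
  have e4 : 2 * π / 3 ≤ 3 := by linarith
  have key : ∀ s l : ℝ, |s| ≤ 1 → e * |l| ≤ 200000 * Gw k a → |2 * π / 3 * (e * s * l)| ≤
      3 * (200000 * Gw k a) := by
    intro s l hs hl
    rw [abs_mul, abs_of_pos e3, abs_mul, abs_mul, abs_of_pos he]
    have h3 : e * |s| * |l| = |s| * (e * |l|) := by ring
    have h4 : |s| * (e * |l|) ≤ 1 * (200000 * Gw k a) := by gcongr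
    rw [h3]
    have h5 : 2 * π / 3 * (|s| * (e * |l|)) ≤ 3 * (1 * (200000 * Gw k a)) := by gcongr
    linarith
  have h3 := key _ _ (Real.abs_sin_le_one a) p0
  have h4 := key _ _ (Real.abs_sin_le_one b) p1
  unfold Phf
  have h5 := abs_add_le (4 * π ^ 2 * (D f * (1 - 1 / 3 * (e ^ 2 * Real.cos a * Real.cos b))) +
    2 * π / 3 * (e * Real.sin a * pp f l0)) (2 * π / 3 * (e * Real.sin b * pp f l1))
  have h6 := abs_add_le (4 * π ^ 2 * (D f * (1 - 1 / 3 * (e ^ 2 * Real.cos a * Real.cos b))))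
    (2 * π / 3 * (e * Real.sin a * pp f l0))
  linarith

theorem Phi_le (b : ℝ) : |Phi k e a b| ≤ 5000000 * Gw k a := by
  obtain ⟨⟨h1, h2, h3⟩, h4, h5, h6⟩ := norm_f_le hk he he1 a b
  have h7 := prod_f hk he he1 a b
  have h8 : (1 - f4 k e a b) * (1 - f3 k e a b) = -(zf (Ze k e a b) * wf k e a) := by
    rw [mul_comm, h7]
  have l0 := e_zl hk he he1 a b a (Or.inl rfl)
  have l1 := e_zl hk he he1 a b b (Or.inr rfl)
  have lx := norm_Xd_le he.le he1 b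
  have hpi := Real.pi_pos
  have l0' : e * ‖zl k e a b a‖ ≤ 20 * π := by linarith
  have ex : e * ‖Xd e b‖ ≤ 4 * π := by
    have : e * ‖Xd e b‖ ≤ 1 * (4 * π) := by gcongr
    linarith
  have lm : e * ‖zl k e a b b - Xd e b‖ ≤ 20 * π := by
    have h9 := norm_sub_le (zl k e a b b) (Xd e b)
    have h10 : e * ‖zl k e a b b - Xd e b‖ ≤ e * (‖zl k e a b b‖ + ‖Xd e b‖) := by gcongr
    linarith
  have lp : e * ‖zl k e a b b + Xd e b‖ ≤ 20 * π := by
    have h9 := norm_add_le (zl k e a b b) (Xd e b)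
    have h10 : e * ‖zl k e a b b + Xd e b‖ ≤ e * (‖zl k e a b b‖ + ‖Xd e b‖) := by gcongr
    linarith
  have q1 := abs_Ph1_le hz hzk hk he he1 h0 b
  have q2 := Phf_le hz hzk hk he he1 h0 b h3 h1 h2 h4 h7 l0' lm
  have q3 := Phf_le hz hzk hk he he1 h0 b h6 h4 h5 h1 h8 l0' lp
  have hG := one_le_Gw k a
  unfold Phi
  have r1 := abs_sub (Ph1 k e a b - Phf e a b (f3 k e a b) (zl k e a b a) (zl k e a b b - Xd e b))
    (Phf e a b (f4 k e a b) (zl k e a b a) (zl k e a b b + Xd e b))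
  have r2 := abs_sub (Ph1 k e a b) (Phf e a b (f3 k e a b) (zl k e a b a) (zl k e a b b - Xd e b))
  linarith

end

end Pool.Agent.P8H1.KS
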