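import Mathlib
set_option autoImplicit false

/-!
The coordinates of the torus in the surface: `x = exp(i a - e sin a)`, `y = exp(i b - e sin b)`,
`z + 1/z = Z = k - x - 1/x - y - 1/y`.
-/

namespace Pool.Agent.P8H1.KS

open Real Set Filter Topology

section sqrt

/-- the square root on the closed upper half plane -/
noncomputable def sr (w : ℂ) : ℂ :=
  Complex.exp ((π / 4 : ℝ) * Complex.I) * Complex.exp (Complex.log (-Complex.I * w) / 2)

theorem sr_sq {w : ℂ} (h : w ≠ 0) : sr w ^ 2 = w := by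
  unfold sr
  have h1 : -Complex.I * w ≠ 0 := mul_ne_zero (neg_ne_zero.2 Complex.I_ne_zero) h
  rw [mul_pow, ← Complex.exp_nat_mul, ← Complex.exp_nat_mul]
  have h2 : ((2 : ℕ) : ℂ) * (((π / 4 : ℝ) : ℂ) * Complex.I) = π / 2 * Complex.I := by
    push_cast
    ring
  have h3 : ((2 : ℕ) : ℂ) * (Complex.log (-Complex.I * w) / 2) = Complex.log (-Complex.I * w) := by
    push_cast
    ring
  rw [h2, h3, Complex.exp_pi_div_two_mul_I, Complex.exp_log h1]
  linear_combination (-w) * Complex.I_sq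

theorem sr_ne (w : ℂ) : sr w ≠ 0 := mul_ne_zero (Complex.exp_ne_zero _) (Complex.exp_ne_zero _)

theorem mem_slit {w : ℂ} (h : 0 ≤ w.im) (h0 : w ≠ 0) : -Complex.I * w ∈ Complex.slitPlane := by
  have h1 : (-Complex.I * w).re = w.im := by simp
  have h2 : (-Complex.I * w).im = -w.re := by simp
  rcases eq_or_lt_of_le h with h3 | h3
  · right
    rw [h2]
    intro h4
    apply h0
    exact Complex.ext (by simpa using h4) (by simpa using h3.symm)
  · left
    rw [h1]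
    exact h3

theorem sr_quad {w : ℂ} (h : 0 ≤ w.im) : 0 ≤ (sr w).re ∧ 0 ≤ (sr w).im := by
  have h1 : (-Complex.I * w).re = w.im := by simp
  have h2 : |(-Complex.I * w).arg| ≤ π / 2 := Complex.abs_arg_le_pi_div_two_iff.2 (by rw [h1]; exact h)
  rw [abs_le] at h2
  have h3 : sr w = Complex.exp (((Real.log ‖-Complex.I * w‖ / 2 : ℝ) : ℂ) +
      ((π / 4 + (-Complex.I * w).arg / 2 : ℝ) : ℂ) * Complex.I) := by
    unfold sr
    rw [← Complex.exp_add]
    congr 1
    unfold Complex.log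
    push_cast
    ring
  have hpi := Real.pi_pos
  rw [h3, Complex.exp_re, Complex.exp_im]
  simp only [Complex.add_re, Complex.ofReal_re, Complex.mul_re, Complex.I_re, mul_zero,
    Complex.ofReal_im, Complex.I_im, mul_one, sub_self, add_zero, Complex.add_im, Complex.mul_im,
    zero_add]
  constructor
  · refine mul_nonneg (Real.exp_pos _).le (Real.cos_nonneg_of_mem_Icc ⟨?_, ?_⟩) <;> linarith
  · refine mul_nonneg (Real.exp_pos _).le (Real.sin_nonneg_of_nonneg_of_le_pi ?_ ?_) <;> linarith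

theorem hasDerivAt_sr {w : ℂ} (h : 0 ≤ w.im) (h0 : w ≠ 0) : HasDerivAt sr (1 / (2 * sr w)) w := by
  have h1 : HasDerivAt (fun w : ℂ => -Complex.I * w) (-Complex.I) w := by
    simpa using (hasDerivAt_id w).const_mul (-Complex.I)
  have h2 := (((h1.clog (mem_slit h h0)).div_const 2).cexp).const_mul
    (Complex.exp ((π / 4 : ℝ) * Complex.I))
  refine h2.congr_deriv ?_
  have h3 := sr_sq h0
  have h4 : Complex.exp ((π / 4 : ℝ) * Complex.I) *
      (Complex.exp (Complex.log (-Complex.I * w) / 2) * (-Complex.I / (-Complex.I * w) / 2)) =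
      sr w / (2 * w) := by
    unfold sr
    have := Complex.I_ne_zero
    field_simp
  rw [h4]
  have h5 := sr_ne w
  rw [div_eq_div_iff (by simpa using h0) (by simpa using h5)]
  linear_combination 2 * h3

theorem contDiffAt_sr {w : ℂ} (h : 0 ≤ w.im) (h0 : w ≠ 0) : ContDiffAt ℂ 2 sr w := by
  have h1 : ContDiffAt ℂ 2 (fun w : ℂ => -Complex.I * w) w := contDiffAt_const.mul contDiffAt_id
  have h2 : ContDiffAt ℂ 2 (fun w : ℂ => Complex.log (-Complex.I * w)) w :=
    (Complex.contDiffAt_log (mem_slit h h0)).comp w h1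
  exact contDiffAt_const.mul ((h2.div_const 2).cexp)

end sqrt

section root

/-- the admissible values -/
structure Ok (Z : ℂ) : Prop where
  im : 0 ≤ Z.im
  ne : Z ≠ 2
  ne' : Z ≠ -2

/-- the root `√(Z + 2)` -/
noncomputable def Pf (Z : ℂ) : ℂ := sr (Z + 2)

/-- the root `√(Z - 2)` -/
noncomputable def Qf (Z : ℂ) : ℂ := sr (Z - 2)

/-- the function `(√(Z + 2) + √(Z - 2)) / 2` -/
noncomputable def Sf (Z : ℂ) : ℂ := (Pf Z + Qf Z) / 2

/-- the function `z` -/
noncomputable def zf (Z : ℂ) : ℂ := (Sf Z ^ 2)⁻¹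

/-- the logarithm of `z` -/
noncomputable def lf (Z : ℂ) : ℂ := -(2 * Complex.log (Sf Z))

/-- the root `√(Z² - 4)` -/
noncomputable def rf (Z : ℂ) : ℂ := Pf Z * Qf Z

variable {Z : ℂ}

theorem Ok.p (h : Ok Z) : 0 ≤ (Z + 2).im ∧ Z + 2 ≠ 0 := by
  refine ⟨by simpa using h.im, fun h1 => h.ne' ?_⟩
  linear_combination h1

theorem Ok.q (h : Ok Z) : 0 ≤ (Z - 2).im ∧ Z - 2 ≠ 0 := by
  refine ⟨by simpa using h.im, fun h1 => h.ne ?_⟩
  linear_combination h1

theorem Ok.Pf_sq (h : Ok Z) : Pf Z ^ 2 = Z + 2 := sr_sq h.p.2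

theorem Ok.Qf_sq (h : Ok Z) : Qf Z ^ 2 = Z - 2 := sr_sq h.q.2

theorem Ok.mul_inv (h : Ok Z) : Sf Z * ((Pf Z - Qf Z) / 2) = 1 := by
  unfold Sf
  linear_combination (1 / 4 : ℂ) * h.Pf_sq - (1 / 4 : ℂ) * h.Qf_sq

theorem Ok.Sf_ne (h : Ok Z) : Sf Z ≠ 0 := left_ne_zero_of_mul_eq_one h.mul_inv

theorem Ok.Sf_inv (h : Ok Z) : (Sf Z)⁻¹ = (Pf Z - Qf Z) / 2 := inv_eq_of_mul_eq_one_right h.mul_inv

theorem Ok.Sf_slit (h : Ok Z) : Sf Z ∈ Complex.slitPlane := by
  obtain ⟨h1, h2⟩ := sr_quad h.p.1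
  obtain ⟨h3, h4⟩ := sr_quad h.q.1
  have h5 : (Sf Z).re = ((sr (Z + 2)).re + (sr (Z - 2)).re) / 2 := by
    unfold Sf Pf Qf
    simp
  rcases eq_or_lt_of_le (show 0 ≤ (Sf Z).re by rw [h5]; linarith) with h6 | h6
  · right
    intro h7
    exact h.Sf_ne (Complex.ext (by simpa using h6.symm) (by simpa using h7))
  · left
    exact h6

theorem Ok.zf_ne (h : Ok Z) : zf Z ≠ 0 := inv_ne_zero (pow_ne_zero 2 h.Sf_ne)

theorem Ok.zf_add (h : Ok Z) : zf Z + (zf Z)⁻¹ = Z := by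
  unfold zf
  rw [inv_inv, ← inv_pow, h.Sf_inv]
  unfold Sf
  linear_combination (1 / 2 : ℂ) * h.Pf_sq + (1 / 2 : ℂ) * h.Qf_sq

theorem Ok.exp_lf (h : Ok Z) : Complex.exp (lf Z) = zf Z := by
  unfold lf zf
  rw [Complex.exp_neg, ← Nat.cast_two, Complex.exp_nat_mul, Complex.exp_log h.Sf_ne]

theorem Ok.rf_ne (_ : Ok Z) : rf Z ≠ 0 := mul_ne_zero (sr_ne _) (sr_ne _)

theorem Ok.rf_sq (h : Ok Z) : rf Z ^ 2 = Z ^ 2 - 4 := by
  unfold rf
  rw [mul_pow, h.Pf_sq, h.Qf_sq]
  ring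

theorem Ok.deriv_Sf (h : Ok Z) : HasDerivAt Sf (Sf Z / (2 * rf Z)) Z := by
  have h1 : HasDerivAt Pf (1 / (2 * sr (Z + 2))) Z := (hasDerivAt_sr h.p.1 h.p.2).comp_add_const Z 2
  have h2 : HasDerivAt Qf (1 / (2 * sr (Z - 2))) Z := (hasDerivAt_sr h.q.1 h.q.2).comp_sub_const Z 2
  refine ((h1.add h2).div_const 2).congr_deriv ?_
  unfold Sf rf Pf Qf
  have h3 := sr_ne (Z + 2)
  have h4 := sr_ne (Z - 2)
  field_simp
  ring

theorem Ok.deriv_zf (h : Ok Z) : HasDerivAt zf (-(zf Z / rf Z)) Z := by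
  have h1 := (h.deriv_Sf.pow 2).inv (pow_ne_zero 2 h.Sf_ne)
  refine h1.congr_deriv ?_
  unfold zf
  have h2 := h.Sf_ne
  have h3 := h.rf_ne
  simp only [Pi.pow_apply]
  field_simp
  ring

theorem Ok.deriv_lf (h : Ok Z) : HasDerivAt lf (-(rf Z)⁻¹) Z := by
  have h1 := ((h.deriv_Sf.clog h.Sf_slit).const_mul 2).neg
  refine h1.congr_deriv ?_
  have h2 := h.Sf_ne
  have h3 := h.rf_ne
  field_simp

theorem Ok.smooth_Sf (h : Ok Z) : ContDiffAt ℂ 2 Sf Z := by
  have h1 : ContDiffAt ℂ 2 Pf Z :=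
    (contDiffAt_sr h.p.1 h.p.2).comp Z (contDiffAt_id.add contDiffAt_const)
  have h2 : ContDiffAt ℂ 2 Qf Z :=
    (contDiffAt_sr h.q.1 h.q.2).comp Z (contDiffAt_id.sub contDiffAt_const)
  exact (h1.add h2).div_const 2

theorem Ok.smooth_zf (h : Ok Z) : ContDiffAt ℂ 2 zf Z :=
  (h.smooth_Sf.pow 2).inv (pow_ne_zero 2 h.Sf_ne)

theorem Ok.smooth_lf (h : Ok Z) : ContDiffAt ℂ 2 lf Z := by
  have h1 : ContDiffAt ℂ 2 (fun Z : ℂ => Complex.log (Sf Z)) Z :=
    (Complex.contDiffAt_log h.Sf_slit).comp Z h.smooth_Sf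
  exact (contDiffAt_const.mul h1).neg

end root

section angle

/-- the complex angle `a + i e sin a` -/
noncomputable def an (e a : ℝ) : ℂ := (a : ℂ) + ((e * Real.sin a : ℝ) : ℂ) * Complex.I

/-- the coordinate `x` -/
noncomputable def xe (e a : ℝ) : ℂ := Complex.exp (Complex.I * an e a)

/-- the function `x + 1/x` -/
noncomputable def Ce (e a : ℝ) : ℂ := 2 * Complex.cos (an e a)

/-- the function `Z` -/
noncomputable def Ze (k e a b : ℝ) : ℂ := (k : ℂ) - Ce e a - Ce e b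

/-- the derivative of `a + i e sin a` -/
noncomputable def ad (e a : ℝ) : ℂ := 1 + ((e * Real.cos a : ℝ) : ℂ) * Complex.I

variable {k e a b : ℝ}

theorem xe_ne (e a : ℝ) : xe e a ≠ 0 := Complex.exp_ne_zero _

theorem xe_inv (e a : ℝ) : (xe e a)⁻¹ = Complex.exp (-(Complex.I * an e a)) :=
  (Complex.exp_neg _).symm

theorem xe_add (e a : ℝ) : xe e a + (xe e a)⁻¹ = Ce e a := by
  rw [xe_inv]
  unfold xe Ce
  rw [Complex.two_cos, mul_comm Complex.I, neg_mul]

theorem xe_sub (e a : ℝ) : xe e a - (xe e a)⁻¹ = 2 * Complex.I * Complex.sin (an e a) := by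
  rw [xe_inv]
  unfold xe
  have h := Complex.two_sin (an e a)
  have h1 : 2 * Complex.I * Complex.sin (an e a) = Complex.I * (2 * Complex.sin (an e a)) := by ring
  rw [h1, h, mul_comm Complex.I (an e a), neg_mul]
  linear_combination (Complex.exp (an e a * Complex.I) - Complex.exp (-(an e a * Complex.I))) *
    Complex.I_sq

theorem norm_xe (e a : ℝ) : ‖xe e a‖ = Real.exp (-(e * Real.sin a)) := by
  have h : Complex.I * an e a = ((-(e * Real.sin a) : ℝ) : ℂ) + (a : ℂ) * Complex.I := by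
    unfold an
    push_cast
    linear_combination ((e : ℂ) * Complex.sin a) * Complex.I_sq
  unfold xe
  rw [h, Complex.norm_exp]
  congr 1
  rw [Complex.add_re, Complex.ofReal_re, Complex.re_ofReal_mul, Complex.I_re, mul_zero, add_zero]

theorem log_norm_xe (e a : ℝ) : Real.log ‖xe e a‖ = -(e * Real.sin a) := by
  rw [norm_xe, Real.log_exp]

theorem Ce_eq (e a : ℝ) : Ce e a = ((2 * Real.cos a * Real.cosh (e * Real.sin a) : ℝ) : ℂ) -
    ((2 * Real.sin a * Real.sinh (e * Real.sin a) : ℝ) : ℂ) * Complex.I := by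
  unfold Ce an
  rw [Complex.cos_add_mul_I]
  push_cast
  ring

theorem Ce_re (e a : ℝ) : (Ce e a).re = 2 * Real.cos a * Real.cosh (e * Real.sin a) := by
  rw [Ce_eq, Complex.sub_re, Complex.ofReal_re, Complex.re_ofReal_mul, Complex.I_re, mul_zero,
    sub_zero]

theorem Ce_im (e a : ℝ) : (Ce e a).im = -(2 * Real.sin a * Real.sinh (e * Real.sin a)) := by
  rw [Ce_eq, Complex.sub_im, Complex.ofReal_im, Complex.im_ofReal_mul, Complex.I_im, mul_one,
    zero_sub]

theorem sinh_ge (he : 0 ≤ e) (s : ℝ) : e * s ^ 2 ≤ s * Real.sinh (e * s) := by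
  rcases le_total 0 s with h | h
  · have h1 : e * s ≤ Real.sinh (e * s) := Real.self_le_sinh_iff.2 (mul_nonneg he h)
    nlinarith
  · have h1 : Real.sinh (e * s) ≤ e * s := Real.sinh_le_self_iff.2 (mul_nonpos_of_nonneg_of_nonpos he h)
    nlinarith

theorem Ce_im_le (he : 0 ≤ e) (a : ℝ) : (Ce e a).im ≤ -(2 * (e * Real.sin a ^ 2)) := by
  rw [Ce_im]
  have := sinh_ge he (Real.sin a)
  linarith

theorem Ze_im_ge (he : 0 ≤ e) (k a b : ℝ) :
    2 * (e * Real.sin a ^ 2) + 2 * (e * Real.sin b ^ 2) ≤ (Ze k e a b).im := by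
  have h1 := Ce_im_le he a
  have h2 := Ce_im_le he b
  unfold Ze
  rw [Complex.sub_im, Complex.sub_im, Complex.ofReal_im]
  linarith

theorem cos_of_sin {a : ℝ} (h : Real.sin a = 0) : Real.cos a = 1 ∨ Real.cos a = -1 := by
  have h1 := Real.sin_sq_add_cos_sq a
  rw [h] at h1
  have h2 : (Real.cos a - 1) * (Real.cos a + 1) = 0 := by linarith
  rcases mul_eq_zero.1 h2 with h3 | h3
  · left; linarith
  · right; linarith

theorem ok_Ze (he : 0 < e) (hk : |k| < 2) (a b : ℝ) : Ok (Ze k e a b) := by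
  have h0 := Ze_im_ge he.le k a b
  have h1 : 0 ≤ 2 * (e * Real.sin a ^ 2) := by positivity
  have h2 : 0 ≤ 2 * (e * Real.sin b ^ 2) := by positivity
  rw [abs_lt] at hk
  have key : ∀ t : ℝ, t = 2 ∨ t = -2 → Ze k e a b ≠ (t : ℂ) := by
    intro t ht h3
    rw [h3, Complex.ofReal_im] at h0
    have h4 : Real.sin a = 0 := by
      have : e * Real.sin a ^ 2 = 0 := by linarith
      exact pow_eq_zero_iff two_ne_zero |>.1 ((mul_eq_zero.1 this).resolve_left he.ne')
    have h5 : Real.sin b = 0 := by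
      have : e * Real.sin b ^ 2 = 0 := by linarith
      exact pow_eq_zero_iff two_ne_zero |>.1 ((mul_eq_zero.1 this).resolve_left he.ne')
    have h6 := congrArg Complex.re h3
    unfold Ze at h6
    rw [Complex.sub_re, Complex.sub_re, Complex.ofReal_re, Ce_re, Ce_re, h4, h5, mul_zero,
      Real.cosh_zero, Complex.ofReal_re] at h6
    rcases cos_of_sin h4 with h7 | h7 <;> rcases cos_of_sin h5 with h8 | h8 <;>
      rw [h7, h8] at h6 <;> rcases ht with rfl | rfl <;> linarith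
  refine ⟨by linarith, ?_, ?_⟩
  · have := key 2 (Or.inl rfl)
    simpa using this
  · have := key (-2) (Or.inr rfl)
    simpa using this

theorem hd_an (e a : ℝ) : HasDerivAt (an e) (ad e a) a := by
  unfold an ad
  have h1 : HasDerivAt (fun a : ℝ => e * Real.sin a) (e * Real.cos a) a :=
    (Real.hasDerivAt_sin a).const_mul e
  have h2 : HasDerivAt (fun a : ℝ => (a : ℂ)) 1 a := by simpa using (hasDerivAt_id a).ofReal_comp
  exact h2.add (h1.ofReal_comp.mul_const Complex.I)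

theorem hd_xe (e a : ℝ) : HasDerivAt (xe e) (xe e a * (Complex.I * ad e a)) a :=
  ((hd_an e a).const_mul Complex.I).cexp

theorem hd_Ce (e a : ℝ) : HasDerivAt (Ce e) (-(2 * Complex.sin (an e a) * ad e a)) a := by
  have h1 := ((Complex.hasDerivAt_cos (an e a)).comp a (hd_an e a)).const_mul 2
  refine h1.congr_deriv ?_
  ring

theorem smooth_an (e : ℝ) : ContDiff ℝ 2 (an e) := by
  unfold an
  have h1 : ContDiff ℝ 2 fun a : ℝ => e * Real.sin a := contDiff_const.mul Real.contDiff_sin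
  exact (Complex.ofRealCLM.contDiff).add ((Complex.ofRealCLM.contDiff.comp h1).mul contDiff_const)

theorem smooth_xe (e : ℝ) : ContDiff ℝ 2 (xe e) := (contDiff_const.mul (smooth_an e)).cexp

theorem smooth_Ce (e : ℝ) : ContDiff ℝ 2 (Ce e) := by
  unfold Ce
  have h : ContDiff ℝ 2 Complex.cos := Complex.contDiff_cos.restrict_scalars ℝ
  exact contDiff_const.mul (h.comp (smooth_an e))

theorem xe_per (e a : ℝ) : xe e (a + 2 * π) = xe e a := by
  unfold xe an
  rw [Real.sin_add_two_pi]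
  have h : Complex.I * (((a + 2 * π : ℝ) : ℂ) + ((e * Real.sin a : ℝ) : ℂ) * Complex.I) =
      Complex.I * ((a : ℂ) + ((e * Real.sin a : ℝ) : ℂ) * Complex.I) + 2 * π * Complex.I := by
    push_cast
    ring
  rw [h, Complex.exp_periodic]

theorem Ce_per (e a : ℝ) : Ce e (a + 2 * π) = Ce e a := by
  rw [← xe_add, ← xe_add, xe_per]

end angle

end Pool.Agent.P8H1.KS
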