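import Pool.Agent.P8H1.EK.Defs
set_option autoImplicit false

/-!
The K3 surfaces `x + 1/x + y + 1/y + z + 1/z = k`, `k = ζ + 1/ζ`, `ζ` a root of unity, and an element
of the group `B_2 ⊗ Λ^2 A^*` of an open part with coordinate ring `A`.
-/

namespace Pool.Agent.P8H1.KS

open Pool.Agent.N65.TK (Pt)
open Pool.Agent.P8H1.PD (LP mo FS br)
open Pool.Agent.P8H1.EK (tr)

variable (K : Type*) [Field K]

/-- The monomial `X_i^m`. -/
noncomputable def mono (i : Fin 4) (m : ℤ) : (LP K 4)ˣ := mo 1 (Pi.single i m)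

variable {K}

/-- The constants. -/
noncomputable def con : K →+* LP K 4 := AddMonoidAlgebra.singleZeroRingHom

/-- The first equation `x + 1/x - (ζ + 1/ζ) - w`. -/
noncomputable def eq1 (c : Kˣ) : LP K 4 :=
  (mono K 0 1 : LP K 4) + (mono K 0 (-1) : LP K 4) - con (tr c) - (mono K 3 1 : LP K 4)

variable (K)

/-- The second equation `y + 1/y + z + 1/z + w`. -/
noncomputable def eq2 : LP K 4 :=
  (mono K 1 1 : LP K 4) + (mono K 1 (-1) : LP K 4) + (mono K 2 1 : LP K 4) +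
    (mono K 2 (-1) : LP K 4) + (mono K 3 1 : LP K 4)

variable {K}

/-- The ideal of the relations `x + 1/x - (ζ + 1/ζ) = w`, `y + 1/y + z + 1/z = - w` between the
coordinates `x, y, z, w` of the torus. -/
noncomputable def idl (c : Kˣ) : Ideal (LP K 4) := Ideal.span {eq1 c, eq2 K}

/-- The coordinate ring of the open part of the surface `x + 1/x + y + 1/y + z + 1/z = ζ + 1/ζ` where
the function `w = x + 1/x - (ζ + 1/ζ) = - (y + 1/y + z + 1/z)` does not vanish. -/
def Srf (c : Kˣ) : Type _ := LP K 4 ⧸ idl c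

variable (c : Kˣ)

noncomputable instance : CommRing (Srf c) := Ideal.Quotient.commRing (idl c)

/-- The restriction of functions to the surface. -/
noncomputable def proj : LP K 4 →+* Srf c := Ideal.Quotient.mk (idl c)

/-- The constants. -/
noncomputable def cst : K →+* Srf c := (proj c).comp con

/-- The unit `a x^(k_0) y^(k_1) z^(k_2) w^(k_3)` on the surface. -/
noncomputable def mn (a : Kˣ) (k : Fin 4 → ℤ) : (Srf c)ˣ :=
  Units.map (proj c : LP K 4 →* Srf c) (mo a k)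

/-- The coordinate `x`. -/
noncomputable def cx : (Srf c)ˣ := mn c 1 (Pi.single 0 1)

/-- The coordinate `y`. -/
noncomputable def cy : (Srf c)ˣ := mn c 1 (Pi.single 1 1)

/-- The coordinate `z`. -/
noncomputable def cz : (Srf c)ˣ := mn c 1 (Pi.single 2 1)

/-- The coordinate `w`. -/
noncomputable def cw : (Srf c)ˣ := mn c 1 (Pi.single 3 1)

/-- The constant `a` as a unit. -/
noncomputable def uc (a : Kˣ) : (Srf c)ˣ := mn c a 0

variable {c}

theorem mn_mul (a b : Kˣ) (k l : Fin 4 → ℤ) : mn c (a * b) (k + l) = mn c a k * mn c b l := by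
  unfold mn
  rw [← map_mul]
  congr 1
  ext1
  show AddMonoidAlgebra.single (k + l) ((a * b : Kˣ) : K) =
    AddMonoidAlgebra.single k (a : K) * AddMonoidAlgebra.single l (b : K)
  rw [AddMonoidAlgebra.single_mul_single, Units.val_mul]

theorem mn_one : mn c (1 : Kˣ) 0 = 1 := by
  unfold mn
  rw [← map_one (Units.map (proj c : LP K 4 →* Srf c))]
  congr 1

theorem mn_inv (a : Kˣ) (k : Fin 4 → ℤ) : (mn c a k)⁻¹ = mn c a⁻¹ (-k) := by
  have h : mn c a k * mn c a⁻¹ (-k) = 1 := by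
    rw [← mn_mul, mul_inv_cancel, add_neg_cancel, mn_one]
  exact inv_eq_of_mul_eq_one_right h

theorem uc_mul (a b : Kˣ) : uc c (a * b) = uc c a * uc c b := by
  unfold uc
  rw [← mn_mul, add_zero]

theorem uc_one : uc c 1 = 1 := mn_one

theorem uc_inv (a : Kˣ) : uc c a⁻¹ = (uc c a)⁻¹ := by
  have h : uc c a * uc c a⁻¹ = 1 := by rw [← uc_mul, mul_inv_cancel, uc_one]
  exact (inv_eq_of_mul_eq_one_right h).symm

theorem uc_pow (a : Kˣ) (m : ℕ) : uc c a ^ m = uc c (a ^ m) := by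
  induction m with
  | zero => rw [pow_zero, pow_zero, uc_one]
  | succ m ih => rw [pow_succ, ih, pow_succ, uc_mul]

theorem uc_val (a : Kˣ) : (uc c a : Srf c) = cst c a := rfl

theorem uc_neg_one : (uc c (-1) : Srf c) = -1 := by
  rw [uc_val, Units.val_neg, Units.val_one, map_neg, map_one]

theorem rel_x : (cx c : Srf c) + ((cx c)⁻¹ : (Srf c)ˣ) - cst c (tr c) = cw c := by
  have h : proj c (eq1 c) = 0 :=
    Ideal.Quotient.eq_zero_iff_mem.2 (Ideal.subset_span (Set.mem_insert _ _))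
  unfold eq1 at h
  rw [map_sub, sub_eq_zero, map_sub, map_add] at h
  have h1 : (cx c)⁻¹ = mn c 1 (Pi.single 0 (-1)) := by
    unfold cx
    rw [mn_inv, inv_one, ← Pi.single_neg]
  rw [h1]
  exact h

theorem rel_y : (cy c : Srf c) + ((cy c)⁻¹ : (Srf c)ˣ) + cz c + ((cz c)⁻¹ : (Srf c)ˣ) = -cw c := by
  have h : proj c (eq2 K) = 0 :=
    Ideal.Quotient.eq_zero_iff_mem.2 (Ideal.subset_span (Set.mem_insert_of_mem _ rfl))
  unfold eq2 at h
  rw [map_add, map_add, map_add, map_add] at h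
  have h1 : (cy c)⁻¹ = mn c 1 (Pi.single 1 (-1)) := by
    unfold cy
    rw [mn_inv, inv_one, ← Pi.single_neg]
  have h2 : (cz c)⁻¹ = mn c 1 (Pi.single 2 (-1)) := by
    unfold cz
    rw [mn_inv, inv_one, ← Pi.single_neg]
  rw [h1, h2]
  exact eq_neg_of_add_eq_zero_left h

theorem uc_add (a : Kˣ) : (uc c a : Srf c) + (uc c a⁻¹ : (Srf c)ˣ) = cst c (tr a) := by
  rw [uc_val, uc_val, ← map_add]
  rfl

theorem uc_mul_inv (a : Kˣ) : (uc c a : Srf c) * (uc c a⁻¹ : (Srf c)ˣ) = 1 := by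
  rw [uc_inv]
  exact Units.mul_inv _

/-- `(1 - x / ζ) (1 - x ζ) = x w` -/
theorem prod_x : (1 - ((uc c c⁻¹ * cx c : (Srf c)ˣ) : Srf c)) *
    (1 - ((uc c c * cx c : (Srf c)ˣ) : Srf c)) = ((cx c * cw c : (Srf c)ˣ) : Srf c) := by
  rw [Units.val_mul, Units.val_mul, Units.val_mul]
  exact EK.prod_aux (Units.mul_inv _) (uc_mul_inv _) (uc_add _) rel_x

theorem prod_aux {A : Type*} [CommRing A] {y y' z z' w m : A} (h1 : y * y' = 1) (h2 : z * z' = 1)
    (hm : m = -1) (h : y + y' + z + z' = -w) :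
    (1 - m * (z * y')) * (1 - m * (y * z)) = m * (z * w) := by
  subst hm
  linear_combination (z ^ 2) * h1 + z * h - h2

/-- `(1 + z / y) (1 + y z) = - z w` -/
theorem prod_y : (1 - ((uc c (-1) * (cz c * (cy c)⁻¹) : (Srf c)ˣ) : Srf c)) *
    (1 - ((uc c (-1) * (cy c * cz c) : (Srf c)ˣ) : Srf c)) =
      ((uc c (-1) * (cz c * cw c) : (Srf c)ˣ) : Srf c) := by
  simp only [Units.val_mul]
  exact prod_aux (Units.mul_inv _) (Units.mul_inv (cz c)) uc_neg_one rel_y

theorem isUnit_prod_x : IsUnit ((1 - ((uc c c⁻¹ * cx c : (Srf c)ˣ) : Srf c)) *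
    (1 - ((uc c c * cx c : (Srf c)ˣ) : Srf c))) := by
  rw [prod_x]
  exact Units.isUnit _

theorem isUnit_prod_y : IsUnit ((1 - ((uc c (-1) * (cz c * (cy c)⁻¹) : (Srf c)ˣ) : Srf c)) *
    (1 - ((uc c (-1) * (cy c * cz c) : (Srf c)ˣ) : Srf c))) := by
  rw [prod_y]
  exact Units.isUnit _

variable (c)

/-- The function `x / ζ`. -/
noncomputable def px : Pt (Srf c) :=
  ⟨uc c c⁻¹ * cx c, isUnit_of_mul_isUnit_left isUnit_prod_x⟩

/-- The function `x ζ`. -/
noncomputable def qx : Pt (Srf c) :=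
  ⟨uc c c * cx c, isUnit_of_mul_isUnit_right isUnit_prod_x⟩

/-- The function `- z / y`. -/
noncomputable def pf : Pt (Srf c) :=
  ⟨uc c (-1) * (cz c * (cy c)⁻¹), isUnit_of_mul_isUnit_left isUnit_prod_y⟩

/-- The function `- y z`. -/
noncomputable def qf : Pt (Srf c) :=
  ⟨uc c (-1) * (cy c * cz c), isUnit_of_mul_isUnit_right isUnit_prod_y⟩

/-- The element `({x / ζ}_2 + {x ζ}_2) ⊗ y ∧ z - ({- z / y}_2 + {- y z}_2) ⊗ x ∧ y`. -/
noncomputable def xi : FS (Srf c) 2 :=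
  br (px c) ![cy c, cz c] + br (qx c) ![cy c, cz c] - br (pf c) ![cx c, cy c] -
    br (qf c) ![cx c, cy c]

end Pool.Agent.P8H1.KS
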