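import Pool.Agent.P8H1.KS.Lw
set_option autoImplicit false

/-!
Package EVAL (helper38).
-/

namespace Pool.Agent.P8H1.KS

open Real Set MeasureTheory Filter Topology
open Pool.Agent.N65.TK (D Dc)
open Pool.Agent.P8H1.EK (D_conj' Dc_neg)

theorem sr_of_pos {x : ℝ} (h : 0 < x) : sr ((x ^ 2 : ℝ) : ℂ) = (x : ℂ) := by
  have hw : ((x ^ 2 : ℝ) : ℂ) ≠ 0 := Complex.ofReal_ne_zero.2 (by positivity)
  have h1 := sr_sq hw
  obtain ⟨h2, h3⟩ := sr_quad (w := ((x ^ 2 : ℝ) : ℂ)) (by rw [Complex.ofReal_im])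
  generalize sr ((x ^ 2 : ℝ) : ℂ) = s at *
  have h4 : (s - x) * (s + x) = 0 := by
    push_cast at h1
    linear_combination h1
  rcases mul_eq_zero.1 h4 with h5 | h5
  · linear_combination h5
  · exfalso
    have h6 : s = ((-x : ℝ) : ℂ) := by
      push_cast
      linear_combination h5
    rw [h6, Complex.ofReal_re] at h2
    linarith

theorem sr_of_neg {y : ℝ} (h : 0 < y) : sr ((-y ^ 2 : ℝ) : ℂ) = (y : ℂ) * Complex.I := by
  have hw : ((-y ^ 2 : ℝ) : ℂ) ≠ 0 := Complex.ofReal_ne_zero.2 (neg_ne_zero.2 (by positivity))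
  have h1 := sr_sq hw
  obtain ⟨h2, h3⟩ := sr_quad (w := ((-y ^ 2 : ℝ) : ℂ)) (by rw [Complex.ofReal_im])
  generalize sr ((-y ^ 2 : ℝ) : ℂ) = s at *
  have h4 : (s - y * Complex.I) * (s + y * Complex.I) = 0 := by
    push_cast at h1
    linear_combination h1 - (y : ℂ) ^ 2 * Complex.I_sq
  rcases mul_eq_zero.1 h4 with h5 | h5
  · linear_combination h5
  · exfalso
    have h6 : s = ((-y : ℝ) : ℂ) * Complex.I := by
      push_cast
      linear_combination h5
    rw [h6, Complex.im_ofReal_mul, Complex.I_im, mul_one] at h3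
    linarith

theorem Dc_per (θ : ℝ) : Dc (θ + 2 * π) = Dc θ := by
  unfold Dc
  congr 1
  have h : (((θ + 2 * π : ℝ)) : ℂ) * Complex.I = θ * Complex.I + 2 * π * Complex.I := by
    push_cast
    ring
  rw [h, Complex.exp_periodic]

theorem Gc_zero (b : ℝ) : Gc b 0 = 0 := by
  unfold Gc
  have h : π - 0 + b = -(π - 0 - b) + 2 * π := by ring
  rw [h, Dc_per, Dc_neg]
  ring

theorem Gc_pi (b : ℝ) : Gc b π = 0 := by
  unfold Gc
  have h : π - π + b = -(π - π - b) := by ring
  rw [h, Dc_neg]
  ring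

theorem xe_zero (b : ℝ) : xe 0 b = Complex.exp (b * Complex.I) := by
  unfold xe an
  congr 1
  push_cast
  ring

theorem conj_f {k a b : ℝ} (h : (starRingEnd ℂ) (zf (Ze k 0 a b)) = zf (Ze k 0 a b)) :
    D (f3 k 0 a b) + D (f4 k 0 a b) = 0 := by
  have h1 : f3 k 0 a b = (starRingEnd ℂ) (f4 k 0 a b) := by
    unfold f3 f4
    rw [map_neg, map_mul, h, xe_zero, ← Complex.exp_conj, map_mul, Complex.conj_ofReal,
      Complex.conj_I, ← Complex.exp_neg, mul_comm]
    congr 3
    ring
  rw [h1, D_conj']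
  ring

theorem phi_zero (k a b : ℝ) : Phi k 0 a b = 4 * π ^ 2 *
    (-(mu k 0 a b) * Real.log |k - 2 * Real.cos a| - (D (f3 k 0 a b) + D (f4 k 0 a b))) := by
  have hL : Lw k 0 a = Real.log |k - 2 * Real.cos a| := by
    unfold Lw wf
    rw [Ce_zero, ← Complex.ofReal_sub, Complex.norm_real, Real.norm_eq_abs, abs_sub_comm]
    ring
  unfold Phi Ph1 Phf Ax pX
  rw [hL]
  ring

/-- the statement in the three cases -/
theorem key {k a b : ℝ} (h1 : 2 * (Sf (Ze k 0 a b)).arg = ca b (k - 2 * Real.cos a))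
    (h2 : D (f3 k 0 a b) + D (f4 k 0 a b) = Gc b (ca b (k - 2 * Real.cos a))) :
    Phi k 0 a b = 4 * π ^ 2 * hh k a b := by
  have h3 : mu k 0 a b = -(ca b (k - 2 * Real.cos a)) := by
    unfold mu lf
    rw [Complex.neg_im, ← h1]
    congr 1
    rw [Complex.mul_im, Complex.log_im]
    simp
  rw [phi_zero, h3, h2]
  unfold hh
  ring

theorem s_eval : S_EVAL := by
  intro k a b hw hZ
  rw [ok_zero] at hZ
  obtain ⟨hZ1, hZ2⟩ := hZ
  have hZe := Ze_zero k a b
  obtain ⟨Z, hZdef⟩ : ∃ Z : ℝ, Z = k - 2 * Real.cos a - 2 * Real.cos b := ⟨_, rfl⟩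
  rw [← hZdef] at hZ1 hZ2 hZe
  have hca : ca b (k - 2 * Real.cos a) = Real.arccos (Z / 2) := by
    unfold ca
    rw [hZdef]
  have hpi := Real.pi_pos
  rcases lt_or_ge Z (-2) with h1 | h1
  · -- Z < -2
    have hc : Real.arccos (Z / 2) = π := Real.arccos_of_le_neg_one (by linarith)
    have hp : Pf (Z : ℂ) = ((√(-(Z + 2)) : ℝ) : ℂ) * Complex.I := by
      unfold Pf
      rw [← sr_of_neg (Real.sqrt_pos.2 (by linarith : 0 < -(Z + 2))),
        Real.sq_sqrt (by linarith)]
      congr 1
      push_cast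
      ring
    have hq : Qf (Z : ℂ) = ((√(-(Z - 2)) : ℝ) : ℂ) * Complex.I := by
      unfold Qf
      rw [← sr_of_neg (Real.sqrt_pos.2 (by linarith : 0 < -(Z - 2))),
        Real.sq_sqrt (by linarith)]
      congr 1
      push_cast
      ring
    obtain ⟨r, hr0, hr⟩ : ∃ r : ℝ, 0 < r ∧ Sf (Z : ℂ) = (r : ℂ) * Complex.I := by
      refine ⟨(√(-(Z + 2)) + √(-(Z - 2))) / 2, ?_, ?_⟩
      · have := Real.sqrt_pos.2 (by linarith : 0 < -(Z + 2))
        have := Real.sqrt_pos.2 (by linarith : 0 < -(Z - 2))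
        positivity
      · unfold Sf
        rw [hp, hq]
        push_cast
        ring
    apply key
    · rw [hca, hc, hZe, hr, Complex.arg_real_mul _ hr0, Complex.arg_I]
      ring
    · rw [hca, hc, Gc_pi]
      apply conj_f
      rw [hZe]
      unfold zf
      rw [hr, map_inv₀, map_pow, map_mul, Complex.conj_ofReal, Complex.conj_I]
      congr 1
      ring
  · rcases lt_or_ge 2 Z with h2 | h2
    · -- Z > 2
      have hc : Real.arccos (Z / 2) = 0 := Real.arccos_of_one_le (by linarith)
      have hp : Pf (Z : ℂ) = ((√(Z + 2) : ℝ) : ℂ) := by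
        unfold Pf
        rw [← sr_of_pos (Real.sqrt_pos.2 (by linarith : 0 < Z + 2)), Real.sq_sqrt (by linarith)]
        congr 1
        push_cast
        ring
      have hq : Qf (Z : ℂ) = ((√(Z - 2) : ℝ) : ℂ) := by
        unfold Qf
        rw [← sr_of_pos (Real.sqrt_pos.2 (by linarith : 0 < Z - 2)), Real.sq_sqrt (by linarith)]
        congr 1
        push_cast
        ring
      obtain ⟨r, hr0, hr⟩ : ∃ r : ℝ, 0 < r ∧ Sf (Z : ℂ) = (r : ℂ) := by
        refine ⟨(√(Z + 2) + √(Z - 2)) / 2, ?_, ?_⟩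
        · have := Real.sqrt_pos.2 (by linarith : 0 < Z + 2)
          have := Real.sqrt_pos.2 (by linarith : 0 < Z - 2)
          positivity
        · unfold Sf
          rw [hp, hq]
          push_cast
          ring
      apply key
      · rw [hca, hc, hZe, hr, Complex.arg_ofReal_of_nonneg hr0.le]
        ring
      · rw [hca, hc, Gc_zero]
        apply conj_f
        rw [hZe]
        unfold zf
        rw [hr, map_inv₀, map_pow, Complex.conj_ofReal]
    · -- -2 < Z < 2
      have h1' : -2 < Z := lt_of_le_of_ne h1 (Ne.symm hZ2)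
      have h2' : Z < 2 := lt_of_le_of_ne h2 hZ1
      obtain ⟨c, hc⟩ : ∃ c : ℝ, c = Real.arccos (Z / 2) := ⟨_, rfl⟩
      have hcos : Real.cos c = Z / 2 := by
        rw [hc, Real.cos_arccos (by linarith) (by linarith)]
      have hc0 : 0 < c := by
        rw [hc]
        exact Real.arccos_pos.2 (by linarith)
      have hcpi : c < π := by
        rcases lt_or_eq_of_le (Real.arccos_le_pi (Z / 2)) with h | h
        · rw [hc]; exact h
        · exfalso
          rw [hc, h, Real.cos_pi] at hcos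
          linarith
      have hcs : 0 < Real.cos (c / 2) := Real.cos_pos_of_mem_Ioo ⟨by linarith, by linarith⟩
      have hsn : 0 < Real.sin (c / 2) := Real.sin_pos_of_pos_of_lt_pi (by linarith) (by linarith)
      have hcc : Real.cos c = 2 * Real.cos (c / 2) ^ 2 - 1 := by
        rw [← Real.cos_two_mul]
        congr 1
        ring
      have hss := Real.sin_sq_add_cos_sq (c / 2)
      have hp : Pf (Z : ℂ) = ((2 * Real.cos (c / 2) : ℝ) : ℂ) := by
        unfold Pf
        rw [← sr_of_pos (by positivity : 0 < 2 * Real.cos (c / 2))]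
        congr 1
        have h5 : (2 * Real.cos (c / 2)) ^ 2 = Z + 2 := by nlinarith
        rw [h5]
        push_cast
        ring
      have hq : Qf (Z : ℂ) = ((2 * Real.sin (c / 2) : ℝ) : ℂ) * Complex.I := by
        unfold Qf
        rw [← sr_of_neg (by positivity : 0 < 2 * Real.sin (c / 2))]
        congr 1
        have h5 : -(2 * Real.sin (c / 2)) ^ 2 = Z - 2 := by nlinarith
        rw [h5]
        push_cast
        ring
      have hS : Sf (Z : ℂ) = Complex.exp (((c / 2 : ℝ) : ℂ) * Complex.I) := by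
        unfold Sf
        rw [hp, hq, Complex.exp_mul_I, ← Complex.ofReal_cos, ← Complex.ofReal_sin]
        push_cast
        ring
      have hzf : zf (Z : ℂ) = Complex.exp (-((c : ℂ) * Complex.I)) := by
        unfold zf
        rw [hS, ← Complex.exp_nat_mul, ← Complex.exp_neg]
        congr 1
        push_cast
        ring
      have hm1 : (-1 : ℂ) = Complex.exp ((π : ℂ) * Complex.I) := by
        rw [Complex.exp_pi_mul_I]
      apply key
      · rw [hca, ← hc, hZe, hS, Complex.arg_exp_mul_I, toIocMod_eq_self _ |>.2]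
        · ring
        · constructor <;> linarith
      · rw [hca, ← hc]
        unfold Gc Dc f3 f4
        rw [hZe, hzf, xe_zero]
        congr 2
        · have h6 : ∀ u v : ℂ, -(u * v⁻¹) = (-1) * (u * v⁻¹) := fun u v => by ring
          rw [h6, hm1, ← Complex.exp_neg, ← Complex.exp_add, ← Complex.exp_add]
          congr 1
          push_cast
          ring
        · have h6 : ∀ u v : ℂ, -(u * v) = (-1) * (u * v) := fun u v => by ring
          rw [h6, hm1, ← Complex.exp_add, ← Complex.exp_add]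
          congr 1
          push_cast
          ring

end Pool.Agent.P8H1.KS
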