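import Pool.Agent.P8H1.PD.Rel
set_option autoImplicit false

/-!
The regulator form for `m = 2`, and integration by parts over the unit square.
-/

namespace Pool.Agent.P8H1.KS

open Real Set Filter Topology MeasureTheory
open Pool.Agent.N65.TK (D)
open Pool.Agent.P8H1.PD (frm mat dl)

/-- `log |1 - f| ∂_i log |f| - log |f| ∂_i log |1 - f|` -/
noncomputable def pq (f : (Fin 2 → ℝ) → ℂ) (t : Fin 2 → ℝ) (i : Fin 2) : ℝ :=
  Real.log ‖1 - f t‖ * (dl f t i).re - Real.log ‖f t‖ * (dl (fun s => 1 - f s) t i).re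

theorem integral_quad (a b c : ℝ) : ∫ τ in (-1 : ℝ)..1, (a - τ ^ 2 * b - (1 - τ ^ 2) / 2 * c) =
    2 * a - 2 / 3 * b - 2 / 3 * c := by
  have h : ∀ τ : ℝ, a - τ ^ 2 * b - (1 - τ ^ 2) / 2 * c = (a - c / 2) + (c / 2 - b) * τ ^ 2 := by
    intro τ
    ring
  simp only [h]
  rw [intervalIntegral.integral_add intervalIntegrable_const
    ((intervalIntegral.intervalIntegrable_pow 2).const_mul _), intervalIntegral.integral_const,
    intervalIntegral.integral_const_mul, integral_pow]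
  norm_num
  ring

theorem frm2 (f : (Fin 2 → ℝ) → ℂ) (g : Fin 2 → (Fin 2 → ℝ) → ℂ) (t : Fin 2 → ℝ) :
    frm f g t = D (f t) * (((dl (g 0) t 0).im * (dl (g 1) t 1).im -
        (dl (g 0) t 1).im * (dl (g 1) t 0).im) -
        1 / 3 * ((dl (g 0) t 0).re * (dl (g 1) t 1).re - (dl (g 0) t 1).re * (dl (g 1) t 0).re)) -
      1 / 3 * (Real.log ‖g 0 t‖ * (pq f t 0 * (dl (g 1) t 1).im - pq f t 1 * (dl (g 1) t 0).im)) +
      1 / 3 * (Real.log ‖g 1 t‖ * (pq f t 0 * (dl (g 0) t 1).im - pq f t 1 * (dl (g 0) t 0).im)) := by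
  unfold frm
  have h : ∀ τ : ℝ, (mat f g τ t).det.re =
      D (f t) * ((dl (g 0) t 0).im * (dl (g 1) t 1).im - (dl (g 0) t 1).im * (dl (g 1) t 0).im) -
      τ ^ 2 * (D (f t) * ((dl (g 0) t 0).re * (dl (g 1) t 1).re -
        (dl (g 0) t 1).re * (dl (g 1) t 0).re)) -
      (1 - τ ^ 2) / 2 * (Real.log ‖g 0 t‖ * (pq f t 0 * (dl (g 1) t 1).im -
        pq f t 1 * (dl (g 1) t 0).im) -
        Real.log ‖g 1 t‖ * (pq f t 0 * (dl (g 0) t 1).im - pq f t 1 * (dl (g 0) t 0).im)) := by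
    intro τ
    rw [Matrix.det_fin_three]
    have e00 : mat f g τ t 0 0 = (D (f t) : ℂ) := rfl
    have e01 : mat f g τ t 0 1 = ((((1 - τ ^ 2) / 2 * pq f t 0 : ℝ)) : ℂ) := rfl
    have e02 : mat f g τ t 0 2 = ((((1 - τ ^ 2) / 2 * pq f t 1 : ℝ)) : ℂ) := rfl
    have e10 : mat f g τ t 1 0 = (Real.log ‖g 0 t‖ : ℂ) := rfl
    have e11 : mat f g τ t 1 1 = ((dl (g 0) t 0).im : ℂ) + Complex.I * τ * (dl (g 0) t 0).re := rfl
    have e12 : mat f g τ t 1 2 = ((dl (g 0) t 1).im : ℂ) + Complex.I * τ * (dl (g 0) t 1).re := rfl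
    have e20 : mat f g τ t 2 0 = (Real.log ‖g 1 t‖ : ℂ) := rfl
    have e21 : mat f g τ t 2 1 = ((dl (g 1) t 0).im : ℂ) + Complex.I * τ * (dl (g 1) t 0).re := rfl
    have e22 : mat f g τ t 2 2 = ((dl (g 1) t 1).im : ℂ) + Complex.I * τ * (dl (g 1) t 1).re := rfl
    rw [e00, e01, e02, e10, e11, e12, e20, e21, e22]
    simp only [Complex.add_re, Complex.sub_re, Complex.mul_re, Complex.add_im, Complex.mul_im,
      Complex.ofReal_re, Complex.ofReal_im, Complex.I_re, Complex.I_im]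
    ring
  simp only [h]
  rw [integral_quad]
  ring

section square

theorem pre_icc : (MeasurableEquiv.finTwoArrow : (Fin 2 → ℝ) ≃ᵐ ℝ × ℝ) ⁻¹'
    (Icc (0 : ℝ) 1 ×ˢ Icc (0 : ℝ) 1) = Icc (0 : Fin 2 → ℝ) 1 := by
  ext x
  constructor
  · rintro ⟨h1, h2⟩
    refine ⟨fun i => ?_, fun i => ?_⟩
    · fin_cases i
      · exact h1.1
      · exact h2.1
    · fin_cases i
      · exact h1.2
      · exact h2.2
  · rintro ⟨h1, h2⟩
    exact ⟨⟨h1 0, h2 0⟩, ⟨h1 1, h2 1⟩⟩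

theorem vec_eta (t : Fin 2 → ℝ) : ![t 0, t 1] = t := by
  funext i
  fin_cases i <;> rfl

theorem integrable_prod {F : (Fin 2 → ℝ) → ℝ} (hF : IntegrableOn F (Icc 0 1)) :
    Integrable (Function.uncurry fun r s : ℝ => F ![r, s])
      ((volume.restrict (Icc (0 : ℝ) 1)).prod (volume.restrict (Icc (0 : ℝ) 1))) := by
  rw [Measure.prod_restrict]
  have h := (volume_preserving_finTwoArrow ℝ).integrableOn_comp_preimage
    (MeasurableEquiv.finTwoArrow).measurableEmbedding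
    (f := Function.uncurry fun r s : ℝ => F ![r, s]) (s := Icc (0 : ℝ) 1 ×ˢ Icc (0 : ℝ) 1)
  refine h.1 ?_
  rw [pre_icc]
  refine hF.congr_fun (fun t _ => ?_) measurableSet_Icc
  show F t = F ![t 0, t 1]
  rw [vec_eta]

theorem sqB {F : (Fin 2 → ℝ) → ℝ} (hF : IntegrableOn F (Icc 0 1)) :
    ∫ t in Icc (0 : Fin 2 → ℝ) 1, F t = ∫ r in (0 : ℝ)..1, ∫ s in (0 : ℝ)..1, F ![r, s] := by
  have h1 := (volume_preserving_finTwoArrow ℝ).setIntegral_preimage_emb
    (MeasurableEquiv.finTwoArrow).measurableEmbedding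
    (Function.uncurry fun r s : ℝ => F ![r, s]) (Icc (0 : ℝ) 1 ×ˢ Icc (0 : ℝ) 1)
  rw [pre_icc] at h1
  have h2 : ∀ t : Fin 2 → ℝ, (Function.uncurry fun r s : ℝ => F ![r, s])
      ((MeasurableEquiv.finTwoArrow : (Fin 2 → ℝ) ≃ᵐ ℝ × ℝ) t) = F t := by
    intro t
    show F ![t 0, t 1] = F t
    rw [vec_eta]
  simp only [h2] at h1
  rw [h1]
  have h3 := integrable_prod hF
  rw [Measure.volume_eq_prod, ← Measure.prod_restrict, integral_prod _ h3, intervalIntegral.integral_of_le zero_le_one,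
    ← integral_Icc_eq_integral_Ioc]
  refine setIntegral_congr_fun measurableSet_Icc fun r _ => ?_
  show (∫ s in Icc (0 : ℝ) 1, F ![r, s]) = _
  rw [intervalIntegral.integral_of_le zero_le_one, integral_Icc_eq_integral_Ioc]

theorem sqA {F : (Fin 2 → ℝ) → ℝ} (hF : IntegrableOn F (Icc 0 1)) :
    ∫ t in Icc (0 : Fin 2 → ℝ) 1, F t = ∫ s in (0 : ℝ)..1, ∫ r in (0 : ℝ)..1, F ![r, s] := by
  rw [sqB hF]
  have h3 := integral_integral_swap (integrable_prod hF)
  rw [intervalIntegral.integral_of_le zero_le_one, intervalIntegral.integral_of_le zero_le_one,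
    ← integral_Icc_eq_integral_Ioc, ← integral_Icc_eq_integral_Ioc]
  simp only [intervalIntegral.integral_of_le (zero_le_one (α := ℝ)), ← integral_Icc_eq_integral_Ioc]
  exact h3

theorem cont_vec0 (s : ℝ) : Continuous fun r : ℝ => (![r, s] : Fin 2 → ℝ) := by
  refine continuous_pi fun i => ?_
  fin_cases i
  · exact continuous_id
  · exact continuous_const

theorem cont_vec1 (r : ℝ) : Continuous fun s : ℝ => (![r, s] : Fin 2 → ℝ) := by
  refine continuous_pi fun i => ?_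
  fin_cases i
  · exact continuous_const
  · exact continuous_id

theorem ibp0 {H F : (Fin 2 → ℝ) → ℝ} (hF : Continuous F)
    (hd : ∀ s r, HasDerivAt (fun r => H ![r, s]) (F ![r, s]) r) (hp : ∀ s, H ![1, s] = H ![0, s]) :
    ∫ t in Icc (0 : Fin 2 → ℝ) 1, F t = 0 := by
  rw [sqA (hF.continuousOn.integrableOn_compact isCompact_Icc)]
  have h : ∀ s : ℝ, ∫ r in (0 : ℝ)..1, F ![r, s] = 0 := by
    intro s
    rw [intervalIntegral.integral_eq_sub_of_hasDerivAt (fun r _ => hd s r)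
      ((hF.comp (cont_vec0 s)).intervalIntegrable _ _), hp, sub_self]
  simp only [h, intervalIntegral.integral_zero]

theorem ibp1 {H F : (Fin 2 → ℝ) → ℝ} (hF : Continuous F)
    (hd : ∀ r s, HasDerivAt (fun s => H ![r, s]) (F ![r, s]) s) (hp : ∀ r, H ![r, 1] = H ![r, 0]) :
    ∫ t in Icc (0 : Fin 2 → ℝ) 1, F t = 0 := by
  rw [sqB (hF.continuousOn.integrableOn_compact isCompact_Icc)]
  have h : ∀ r : ℝ, ∫ s in (0 : ℝ)..1, F ![r, s] = 0 := by
    intro r
    rw [intervalIntegral.integral_eq_sub_of_hasDerivAt (fun s _ => hd r s)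
      ((hF.comp (cont_vec1 r)).intervalIntegrable _ _), hp, sub_self]
  simp only [h, intervalIntegral.integral_zero]

theorem hd_vec0 (r s : ℝ) : HasDerivAt (fun r : ℝ => (![r, s] : Fin 2 → ℝ)) (Pi.single 0 1) r := by
  rw [hasDerivAt_pi]
  intro i
  fin_cases i
  · exact hasDerivAt_id r
  · exact hasDerivAt_const r s

theorem hd_vec1 (r s : ℝ) : HasDerivAt (fun s : ℝ => (![r, s] : Fin 2 → ℝ)) (Pi.single 1 1) s := by
  rw [hasDerivAt_pi]
  intro i
  fin_cases i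
  · exact hasDerivAt_const s r
  · exact hasDerivAt_id s

theorem dl0 {u : (Fin 2 → ℝ) → ℂ} (hu : Differentiable ℝ u) {u' : ℂ} {r s : ℝ}
    (h : HasDerivAt (fun r => u ![r, s]) u' r) : dl u ![r, s] 0 = u' / u ![r, s] := by
  unfold dl
  have h1 := (hu ![r, s]).hasFDerivAt.comp_hasDerivAt r (hd_vec0 r s)
  rw [h1.unique h]

theorem dl1 {u : (Fin 2 → ℝ) → ℂ} (hu : Differentiable ℝ u) {u' : ℂ} {r s : ℝ}
    (h : HasDerivAt (fun s => u ![r, s]) u' s) : dl u ![r, s] 1 = u' / u ![r, s] := by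
  unfold dl
  have h1 := (hu ![r, s]).hasFDerivAt.comp_hasDerivAt s (hd_vec1 r s)
  rw [h1.unique h]

end square

end Pool.Agent.P8H1.KS
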