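import Pool.Agent.P8H1.KS.Defs
import Pool.Agent.P8H1.EK.Circ
set_option autoImplicit false

/-!
Packages of the project KS (K3 surfaces `x + 1/x + y + 1/y + z + 1/z = ζ + 1/ζ`).
-/

namespace Pool.Agent.P8H1.KS

open Real
open Pool.Agent.N65.TK (Dc Ls Kap)
open Pool.Agent.P8H1.PD (FS bnd Rels)
open scoped WithZero

/-- PACKAGE RES (250-300 lines). All residues of the element `xi` vanish modulo the relations.
Use the library `Pool.Agent.P8H1.PD.Res` (`Qt`, `mk_mul`, `mk_tors`, `mk_self`, `mk_alt`, `od_mul`,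
`ub_mul`, `ub_of_red`, `red_*`, `ubh`), model: `bnd_term`, `exists_one` there.

STEP 1 (B2). For a field `κ` and a point `s : Pt κ` let `P(s; g)` be the class of `br s ![g]` in
`Qt κ 1`; it is additive in `g` (`mk_mul`), zero for torsion `g` (`mk_tors`) and for `g = s.1`
(`mk_self`). Claim: `P(s; s.co) = 0`. If `κ` is finite every `g` is torsion. Otherwise fix `g`, put
`Q(s) = P(s; g)`. The five term relation (last but one family of `Rels`) for `x ≠ y` is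
`R(x,y) : Q(x) - Q(y) + Q(y/x) - Q(y(1-x)/(x(1-y))) + Q((1-x)/(1-y)) = 0`. `R(x,y) - R(1-y,1-x)` gives
`Q(x) + Q(1-x) = C` independent of `x`. `R(x,y) + R(y,x)` gives `I(a) + I(c) = I(ac)` for
`I(a) = Q(a) + Q(1/a)`, all `a, c ≠ 0, 1`, `ac ≠ 1` (`x = (c-1)/(ac-1)`, `y = ax`); also
`I(1/a) = I(a)`; so `I(c) = I(1/a) + I(ac) = 2 I(a) + I(c)`, `I(a) = 0` (choose `c` not in
`{0, 1, 1/a}`). Then `3 C = I(x) + I(1-x) + I(1-1/x) = 0`. So `Q(s) = - Q(s.co)` and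
`P(s; s.co) = - P(s.co; s.co) = 0`.

STEP 2. Let `X, Y, Z, W` be the images of `cx, cy, cz, cw` in `L`, `k` the image of `cst (tr c)`
(`v k ≤ 1`), `X + 1/X - k = W`, `Y + 1/Y + Z + 1/Z = -W`, `f3 = -Z/Y`, `f4 = -YZ`,
`(1 - f3)(1 - f4) = -Z W`, `f3 f4 = Z²`, hence `(1 - f3)(1 - 1/f3)(1 - f4)(1 - 1/f4) = W²`.
Write `x, y, z, w` for `ub v π` of `X, Y, Z, W` and `a, b, c` for the orders `od v` of `X, Y, Z`.
(i) `a > 0`: `v(XW - 1) = v(X(X - k)) < 1`, so `od W = -a`, `w = 1/x`. (ii) `a < 0`: replace `X` by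
`1/X`: `od W = a`, `w = x`. (iii) `a = 0`: `v W ≤ 1`.

TERMS `{X/ζ}`, `{Xζ}` (residue only if `a = 0`; it is `b P(f; z) - c P(f; y) = P(f; z^b y^(-c))`): by
(iii) and `one_lt_val_pair` (as in `exists_one`) either `f3, f4` are both units, then `b = c = 0`, or
`f4` is a unit with reduction 1 (`c = -b`, `-y z = 1`), or `f3` is (`c = b`, `-z/y = 1`); in all cases
`z^b y^(-c)` is torsion.

TERM `{f3}` (only if `c = b` and the reduction `t` of `f3` is `≠ 0, 1`; then `u = ub(1 - f3) = 1 - t`,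
`z = -t y`; the residue is `P(t; y^a x^(-b))`). If `b = 0`: `v W ≤ 1`, so `a = 0` by (i), (ii). If
`b > 0`: `1 - f4 = 1 + YZ` has order 0, `ub = 1`, so `b + od W = 0`, `u = - z w`. If `b < 0`:
`ub(1 - f4) = y z`, order `2b`; `od W = b`, `u y z = - z w`. With (i), (ii), (iii): `|a| = |b|` and
`a, b > 0`: `y/x = u/t`; `a < 0 < b`: `x y = u/t`; `a > 0 > b`: `x y = -1/u`; `a, b < 0`:
`y/x = -1/u`. So `y^a x^(-b)` is a product of powers of `-1, t, u`, and STEP 1 gives 0.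

TERM `{f4}`: the same lemma with `Y` replaced by `1/Y`. -/
def S_RES.{u, w} : Prop := ∀ {K : Type u} [Field K] (c : Kˣ), (∃ N : ℕ, 0 < N ∧ c ^ N = 1) →
  ∀ (L : Type w) [Field L] (φ : Srf c →+* L) (v : Valuation L ℤᵐ⁰) (ϖ : Lˣ),
    v (ϖ : L) = WithZero.exp (-1) → bnd v ϖ (FS.map φ (xi c)) ∈ Rels (Kap v) 1

/-- the angle `arccos((T - 2 cos b) / 2)`, where the argument is truncated to `[-1, 1]` -/
noncomputable def ca (b T : ℝ) : ℝ := Real.arccos ((T - 2 * Real.cos b) / 2)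

/-- `Dc` is the Clausen function -/
noncomputable def Gc (b s : ℝ) : ℝ := Dc (π - s - b) + Dc (π - s + b)

/-- the primitive -/
noncomputable def gc (b T : ℝ) : ℝ := (ca b T - π / 2) * Real.log |T| - Gc b (ca b T)

/-- PACKAGE SGN (150 lines). (1) `gc (b + π) T = - gc b (-T)` for all real `b, T`, because
`ca (b + π) T = π - ca b (-T)` and `Gc (b + π) s = - Gc b (π - s)` (`Dc` is odd and `2π`-periodic,
`EK.Dc_neg`).
(2) `gc b T - gc b (-T) < 0` for `T > 0`, and (3) this function of `T` is strictly decreasing for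
`T > 0`. Proof: `Gc b` is continuous (`EK.continuous_Dc`) and
`Gc b ' (s) = log |2 cos s + 2 cos b|` wherever `cos s + cos b ≠ 0` (`hasDerivAt_Dc` is for angles in
`(0, 2π)`, extend by periodicity; `Ls θ = log (2 sin (θ/2))`;
`|2 sin((π-s-b)/2)| |2 sin((π-s+b)/2)| = |2 cos s + 2 cos b|`). For `T > 0` put
`φ_T(s) = Gc b s - s log T`, `c = ca b T < c' = ca b (-T)`. On `[c, c']` one has
`|2 cos s + 2 cos b| ≤ T`, so `φ_T` is strictly decreasing there (there is at most one point with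
`cos s = - cos b`, split the interval at it; `strictAntiOn_of_hasDerivWithinAt_neg`; in the open
interval `|2 cos s + 2 cos b| < T`), and `gc b T - gc b (-T) = φ_T(c') - φ_T(c) < 0`. For
`T₁ > T₂ > 0`, with `c₁ ≤ c₂ < c₂' ≤ c₁'`: `[φ_T₁(c₁') - φ_T₁(c₁)] - [φ_T₂(c₂') - φ_T₂(c₂)] ≤
[φ_T₁(c₂') - φ_T₁(c₂)] - [φ_T₂(c₂') - φ_T₂(c₂)] = -(c₂' - c₂)(log T₁ - log T₂) < 0`. -/
def S_SGN : Prop :=
  (∀ b T : ℝ, gc (b + π) T = -gc b (-T)) ∧
  (∀ b T : ℝ, 0 < T → gc b T - gc b (-T) < 0) ∧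
  (∀ b T₁ T₂ : ℝ, 0 < T₂ → T₂ < T₁ → gc b T₁ - gc b (-T₁) < gc b T₂ - gc b (-T₂))

end Pool.Agent.P8H1.KS
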