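import Pool.Agent.P8H1.KS.Defs
import Pool.Agent.P8H1.KS.Crd
import Pool.Agent.P8H1.EK.Path
import Pool.Agent.P8H1.EK.Reg
set_option autoImplicit false

/-!
The tori in the surface.
-/

namespace Pool.Agent.P8H1.KS

open Real Set Filter Topology
open Pool.Agent.N65.TK (Pt norm_root)
open Pool.Agent.P8H1.PD (LP mo Tor FS br)
open Pool.Agent.P8H1.EK (tr ev ev_single ev_eq chr tr_val re_le)

section eval

variable {E : Type*} [NormedAddCommGroup E] [NormedSpace ℝ E]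

theorem zpow_smooth {f : E → ℂˣ} (hf : ContDiff ℝ 2 fun t => (f t : ℂ)) (m : ℤ) :
    ContDiff ℝ 2 fun t => ((f t ^ m : ℂˣ) : ℂ) := by
  obtain ⟨k, rfl | rfl⟩ := m.eq_nat_or_neg
  · simp only [zpow_natCast, Units.val_pow_eq_pow_val]
    exact hf.pow k
  · simp only [zpow_neg, zpow_natCast, Units.val_inv_eq_inv_val, Units.val_pow_eq_pow_val]
    exact (hf.pow k).inv fun t => pow_ne_zero k (f t).ne_zero

variable {K : Type*} [Field K] (c : Kˣ) (σ : K →+* ℂ)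

theorem ev_smooth {X : E → Fin 4 → ℂˣ} (hs : ∀ l, ContDiff ℝ 2 fun t => (X t l : ℂ))
    (P : LP K 4) : ContDiff ℝ 2 fun t => ev σ (X t) P := by
  simp only [ev_eq]
  refine ContDiff.sum fun k _ => contDiff_const.mul ?_
  simp only [Units.coe_prod]
  exact contDiff_prod fun l _ => zpow_smooth (hs l) (k l)

theorem ev_mono (X : Fin 4 → ℂˣ) (i : Fin 4) (m : ℤ) :
    ev σ X (mono K i m : LP K 4) = ((X i ^ m : ℂˣ) : ℂ) := by
  show ev σ X (AddMonoidAlgebra.single _ _) = _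
  rw [ev_single, Units.val_one, map_one, one_mul, Finset.prod_eq_single i]
  · rw [Pi.single_eq_same]
  · intro l _ hl
    rw [Pi.single_eq_of_ne hl, zpow_zero]
  · intro h
    exact absurd (Finset.mem_univ i) h

theorem ev_con (X : Fin 4 → ℂˣ) (a : K) : ev σ X (con a) = σ a := by
  show ev σ X (AddMonoidAlgebra.single _ _) = _
  rw [ev_single]
  simp

theorem ev_zero {X : Fin 4 → ℂˣ} (h1 : (X 0 : ℂ) + (X 0 : ℂ)⁻¹ - σ (tr c) = X 3)
    (h2 : (X 1 : ℂ) + (X 1 : ℂ)⁻¹ + X 2 + (X 2 : ℂ)⁻¹ + X 3 = 0)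
    (P : LP K 4) (hP : P ∈ idl c) : ev σ X P = 0 := by
  have h : idl c ≤ RingHom.ker (ev σ X) := by
    unfold idl
    rw [Ideal.span_le]
    rintro Q (rfl | rfl)
    · show ev σ X (eq1 c) = 0
      unfold eq1
      rw [map_sub, map_sub, map_add, ev_mono, ev_mono, ev_mono, ev_con]
      simp only [zpow_one, zpow_neg, Units.val_inv_eq_inv_val]
      rw [h1, sub_self]
    · show ev σ X (eq2 K) = 0
      unfold eq2
      rw [map_add, map_add, map_add, map_add, ev_mono, ev_mono, ev_mono, ev_mono, ev_mono]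
      simp only [zpow_one, zpow_neg, Units.val_inv_eq_inv_val]
      exact h2
  exact h hP

/-- The torus given by the coordinates. -/
noncomputable def mkTor (X : (Fin 2 → ℝ) → Fin 4 → ℂˣ)
    (h1 : ∀ t, (X t 0 : ℂ) + (X t 0 : ℂ)⁻¹ - σ (tr c) = X t 3)
    (h2 : ∀ t, (X t 1 : ℂ) + (X t 1 : ℂ)⁻¹ + X t 2 + (X t 2 : ℂ)⁻¹ + X t 3 = 0)
    (hs : ∀ l, ContDiff ℝ 2 fun t => (X t l : ℂ)) (hp : ∀ t i, X (t + Pi.single i 1) = X t) :
    Tor (Srf c) 2 where
  e t := Ideal.Quotient.lift (idl c) (ev σ (X t)) (ev_zero c σ (h1 t) (h2 t))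
  smooth h := by
    obtain ⟨P, rfl⟩ := Ideal.Quotient.mk_surjective h
    exact ev_smooth σ hs P
  periodic t i := by
    have h := hp t i
    simp only [h] <;> rfl

variable (X : (Fin 2 → ℝ) → Fin 4 → ℂˣ)
    (h1 : ∀ t, (X t 0 : ℂ) + (X t 0 : ℂ)⁻¹ - σ (tr c) = X t 3)
    (h2 : ∀ t, (X t 1 : ℂ) + (X t 1 : ℂ)⁻¹ + X t 2 + (X t 2 : ℂ)⁻¹ + X t 3 = 0)
    (hs : ∀ l, ContDiff ℝ 2 fun t => (X t l : ℂ)) (hp : ∀ t i, X (t + Pi.single i 1) = X t)

theorem mkTor_mn (t : Fin 2 → ℝ) (a : Kˣ) (k : Fin 4 → ℤ) :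
    (mkTor c σ X h1 h2 hs hp).e t (mn c a k) = σ a * ((∏ l, X t l ^ (k l) : ℂˣ) : ℂ) :=
  ev_single σ (X t) k a

theorem mkTor_single (t : Fin 2 → ℝ) (a : Kˣ) (i : Fin 4) :
    (mkTor c σ X h1 h2 hs hp).e t (mn c a (Pi.single i 1)) = σ a * X t i := by
  rw [mkTor_mn, Finset.prod_eq_single i]
  · rw [Pi.single_eq_same, zpow_one]
  · intro l _ hl
    rw [Pi.single_eq_of_ne hl, zpow_zero]
  · intro h
    exact absurd (Finset.mem_univ i) h

theorem mkTor_cst (t : Fin 2 → ℝ) (a : K) : (mkTor c σ X h1 h2 hs hp).e t (cst c a) = σ a :=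
  ev_con σ (X t) a

end eval

section torus

/-- the angles -/
noncomputable def a0 (t : Fin 2 → ℝ) : ℝ := 2 * π * t 0

/-- the angles -/
noncomputable def a1 (t : Fin 2 → ℝ) : ℝ := 2 * π * t 1

/-- the function `Z` on the torus -/
noncomputable def Zt (k e : ℝ) (t : Fin 2 → ℝ) : ℂ := Ze k e (a0 t) (a1 t)

theorem a0_smooth : ContDiff ℝ 2 a0 := contDiff_const.mul (contDiff_apply ℝ ℝ 0)

theorem a1_smooth : ContDiff ℝ 2 a1 := contDiff_const.mul (contDiff_apply ℝ ℝ 1)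

theorem Zt_smooth (k e : ℝ) : ContDiff ℝ 2 (Zt k e) := by
  unfold Zt Ze
  exact (contDiff_const.sub ((smooth_Ce e).comp a0_smooth)).sub ((smooth_Ce e).comp a1_smooth)

theorem fun_per {α : Type*} (f : ℝ → α) (hf : ∀ a, f (a + 2 * π) = f a) (t : Fin 2 → ℝ) (i j : Fin 2) :
    f (2 * π * (t + Pi.single i 1 : Fin 2 → ℝ) j) = f (2 * π * t j) := by
  rw [Pi.add_apply]
  by_cases h : j = i
  · subst h
    rw [Pi.single_eq_same, mul_add, mul_one, hf]
  · rw [Pi.single_eq_of_ne h, add_zero]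

theorem Zt_per (k e : ℝ) (t : Fin 2 → ℝ) (i : Fin 2) : Zt k e (t + Pi.single i 1) = Zt k e t := by
  unfold Zt Ze a0 a1
  rw [fun_per (Ce e) (Ce_per e) t i 0, fun_per (Ce e) (Ce_per e) t i 1]

theorem w_ne {k e : ℝ} (he : 0 < e) (hk : |k| < 2) (a : ℝ) : Ce e a - (k : ℂ) ≠ 0 := by
  intro h
  have h0 := Ce_im_le he.le a
  have h1 : Ce e a = (k : ℂ) := by linear_combination h
  rw [h1, Complex.ofReal_im] at h0
  have h2 : 0 ≤ e * Real.sin a ^ 2 := by positivity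
  have h4 : Real.sin a = 0 := by
    have : e * Real.sin a ^ 2 = 0 := by linarith
    exact pow_eq_zero_iff two_ne_zero |>.1 ((mul_eq_zero.1 this).resolve_left he.ne')
  have h6 := congrArg Complex.re h1
  rw [Ce_re, h4, mul_zero, Real.cosh_zero, Complex.ofReal_re] at h6
  rw [abs_lt] at hk
  rcases cos_of_sin h4 with h7 | h7 <;> rw [h7] at h6 <;> linarith

variable {K : Type*} [Field K] (c : Kˣ) (σ : K →+* ℂ) {k e : ℝ} (hk0 : σ (tr c) = k)
  (hk : |k| < 2) (he : 0 < e)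

theorem zt_smooth (he : 0 < e) (hk : |k| < 2) : ContDiff ℝ 2 fun t => zf (Zt k e t) := by
  rw [contDiff_iff_contDiffAt]
  intro t
  exact ContDiffAt.comp (g := zf) (f := Zt k e) t
    ((ok_Ze he hk (a0 t) (a1 t)).smooth_zf.restrict_scalars ℝ) (Zt_smooth k e).contDiffAt

/-- the coordinates -/
noncomputable def crd (t : Fin 2 → ℝ) : Fin 4 → ℂˣ :=
  ![Units.mk0 (xe e (a0 t)) (xe_ne _ _), Units.mk0 (xe e (a1 t)) (xe_ne _ _),
    Units.mk0 (zf (Zt k e t)) (ok_Ze he hk _ _).zf_ne,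
    Units.mk0 (Ce e (a0 t) - (k : ℂ)) (w_ne he hk _)]

/-- The torus. -/
noncomputable def tor : Tor (Srf c) 2 :=
  mkTor c σ (crd hk he) (fun t => by
      show xe e (a0 t) + (xe e (a0 t))⁻¹ - σ (tr c) = Ce e (a0 t) - (k : ℂ)
      rw [xe_add, hk0])
    (fun t => by
      show xe e (a1 t) + (xe e (a1 t))⁻¹ + zf (Zt k e t) + (zf (Zt k e t))⁻¹ +
        (Ce e (a0 t) - (k : ℂ)) = 0
      have h := (ok_Ze he hk (a0 t) (a1 t)).zf_add
      rw [xe_add]
      have h2 : Zt k e t = Ze k e (a0 t) (a1 t) := rfl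
      rw [h2]
      unfold Ze at h ⊢
      linear_combination h)
    (fun l => by
      fin_cases l
      · exact (smooth_xe e).comp a0_smooth
      · exact (smooth_xe e).comp a1_smooth
      · exact zt_smooth he hk
      · exact ((smooth_Ce e).comp a0_smooth).sub contDiff_const)
    (fun t i => by
      unfold crd
      have e0 : xe e (a0 (t + Pi.single i 1)) = xe e (a0 t) := fun_per (xe e) (xe_per e) t i 0
      have e1 : xe e (a1 (t + Pi.single i 1)) = xe e (a1 t) := fun_per (xe e) (xe_per e) t i 1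
      have e2 : Ce e (a0 (t + Pi.single i 1)) = Ce e (a0 t) := fun_per (Ce e) (Ce_per e) t i 0
      have e3 := Zt_per k e t i
      simp only [e0, e1, e2, e3])

theorem tor_cst (t : Fin 2 → ℝ) (a : K) : (tor c σ hk0 hk he).e t (cst c a) = σ a :=
  mkTor_cst c σ _ _ _ _ _ t a

theorem tor_x (t : Fin 2 → ℝ) : (tor c σ hk0 hk he).e t (cx c) = xe e (a0 t) := by
  unfold cx tor
  rw [mkTor_single, Units.val_one, map_one, one_mul]
  rfl

theorem tor_y (t : Fin 2 → ℝ) : (tor c σ hk0 hk he).e t (cy c) = xe e (a1 t) := by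
  unfold cy tor
  rw [mkTor_single, Units.val_one, map_one, one_mul]
  rfl

theorem tor_z (t : Fin 2 → ℝ) : (tor c σ hk0 hk he).e t (cz c) = zf (Zt k e t) := by
  unfold cz tor
  rw [mkTor_single, Units.val_one, map_one, one_mul]
  rfl

theorem tor_w (t : Fin 2 → ℝ) : (tor c σ hk0 hk he).e t (cw c) = Ce e (a0 t) - (k : ℂ) := by
  unfold cw tor
  rw [mkTor_single, Units.val_one, map_one, one_mul]
  rfl

theorem tor_uc (t : Fin 2 → ℝ) (a : Kˣ) : (tor c σ hk0 hk he).e t (uc c a) = σ a := by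
  rw [uc_val]
  exact tor_cst c σ hk0 hk he t a

end torus

end Pool.Agent.P8H1.KS
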