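import Pool.Agent.P8H1.KS.Phi
import Pool.Agent.P8H1.KS.Tor
import Pool.Agent.P8H1.KS.Stm
set_option autoImplicit false

/-!
Packages of the project KS, second part.
-/

namespace Pool.Agent.P8H1.KS

open Real Set MeasureTheory
open Pool.Agent.N65.TK (Dc D)
open Pool.Agent.P8H1.PD (FS bnd Rels dif)
open Pool.Agent.P8H1.EK (tr)

/-- PACKAGE ALG (150 lines), first part; model: `EK.dif_xi` in `Pool/Agent/P8H1/EK/Alg.lean` (there
for `m = 1`; here `m = 2`, the alternating product `al` has four entries). In `tu` notation: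
`tu (px).1 = tu (qx).1 = tu cx` (`ζ` is torsion), `tu (px).co + tu (qx).co = tu cx + tu cw` (by
`prod_x`), `tu (pf).1 = tu cz - tu cy`, `tu (qf).1 = tu cz + tu cy` (`-1` is torsion),
`tu (pf).co + tu (qf).co = tu cz + tu cw` (by `prod_y`). With `C(f; g, h) = al ![tu (1 - f), tu f, tu g,
tu h]` the sum is `(x + w) ∧ x ∧ y ∧ z - u3 ∧ (z - y) ∧ x ∧ y - u4 ∧ (z + y) ∧ x ∧ y =
w ∧ x ∧ y ∧ z - (u3 + u4) ∧ z ∧ x ∧ y = w ∧ x ∧ y ∧ z - w ∧ z ∧ x ∧ y = 0`. -/
def S_DIF.{u} : Prop := ∀ {K : Type u} [Field K] (c : Kˣ), (∃ N : ℕ, 0 < N ∧ c ^ N = 1) →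
  dif (Srf c) 2 (xi c) = 0

/-- PACKAGE ALG, second part; model: `Pool/Agent/P8H1/EK/Inv.lean` (`coef`, `coef_single`, `tau_eq`;
copy `coef` for `LP K 4` with `con`, `mono` of `KS.Defs`). -/
def S_INV.{u} : Prop := ∀ {K : Type u} [Field K] (c : Kˣ) (τ : K →+* K), τ (tr c) = tr c →
  ∃ f : Srf c →+* Srf c, (∀ a, f (cst c a) = cst c (τ a)) ∧
    Units.map (f : Srf c →* Srf c) (cx c) = cx c ∧ Units.map (f : Srf c →* Srf c) (cy c) = cy c ∧
    Units.map (f : Srf c →* Srf c) (cz c) = cz c ∧ FS.map f (xi c) = xi c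

/-- the limit of the integrand, up to the factor `4 π²` -/
noncomputable def hh (k a b : ℝ) : ℝ :=
  ca b (k - 2 * Real.cos a) * Real.log |k - 2 * Real.cos a| - Gc b (ca b (k - 2 * Real.cos a))

/-- PACKAGE EVAL (150 lines). At `e = 0`: `Xd`, `Zd` are explicit, `wf = 2 cos a - k`, `Ax = -2 π log
‖wf‖`, `pX = 0`; `Z = Ze k 0 a b = k - 2 cos a - 2 cos b` is real and `≠ ± 2`. Case `|Z| < 2`:
`Pf Z = √(Z + 2)`, `Qf Z = i √(2 - Z)`, `Sf Z = exp(i c / 2)` with `c = arccos(Z / 2)`, so `nu = 0`,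
`mu = -c`, `zf Z = exp(-i c)`, `f3 = exp(i (π - c - b))`, `f4 = exp(i (π - c + b))` and
`D f3 + D f4 = Gc b c` (`Dc` unfolds to `D (exp (i θ))`). Case `Z > 2`: `Sf Z > 0` real, `mu = 0`,
`c = 0`; case `Z < -2`: `Sf Z = i r`, `r > 0`, `mu = -π`, `c = π`; in both cases `zf Z` is real, `f4` is
the complex conjugate of `f3`, so `D f3 + D f4 = 0` (compare `D_conj` in the library of `N65.TK`, or
`EK.Dc_neg`), and `Gc b 0 = Gc b π = 0` (`Dc` is odd and `2π`-periodic). -/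
def S_EVAL : Prop := ∀ k a b : ℝ, k - 2 * Real.cos a ≠ 0 → Ok (Ze k 0 a b) →
  Phi k 0 a b = 4 * π ^ 2 * hh k a b

/-- PACKAGE LIMC (100 lines). The integrand is continuous in `e` at `e = 0`: all building blocks are
(`Ok.smooth_zf`, `Ok.smooth_lf` give continuity of `zf`, `lf` at `Ze k 0 a b`, also `rf` (`contDiffAt_sr`);
`D` is continuous; the arguments of the logarithms do not vanish at `e = 0`: `wf k 0 a ≠ 0`,
`(1 - f3) (1 - f4) = -z wf`). -/
def S_LIMC : Prop := ∀ k a b : ℝ, k - 2 * Real.cos a ≠ 0 → Ok (Ze k 0 a b) →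
  ContinuousAt (fun e => Phi k e a b) 0

/-- PACKAGE LW (150 lines), part one. Fubini with `sqA`, `sqB`, `pre_icc` in `KS/Frm.lean`, or directly;
`circleIntegrable_log_norm_sub_const`, `circleAverage_log_norm_sub_const₁` (Mathlib) for the factors of
`|2 cos a - k| = ‖e^{ia} - z‖ ‖e^{ia} - z⁻¹‖`, `‖z‖ = 1`, `z + 1/z = k`. -/
def S_LW : Prop := ∀ k : ℝ, |k| < 2 →
  IntegrableOn (fun t : Fin 2 → ℝ => Real.log |k - 2 * Real.cos (a0 t)|) (Icc 0 1) ∧
  ∫ t in Icc (0 : Fin 2 → ℝ) 1, Real.log |k - 2 * Real.cos (a0 t)| = 0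

/-- PACKAGE LW, part two: the exceptional set is a null set (for fixed `t 0` it is finite; compare
`EK.countable_cos`). -/
def S_AE : Prop := ∀ k : ℝ, |k| < 2 → ∀ᵐ t : Fin 2 → ℝ ∂(volume.restrict (Icc (0 : Fin 2 → ℝ) 1)),
  k - 2 * Real.cos (a0 t) ≠ 0 ∧ Ok (Ze k 0 (a0 t) (a1 t))

/-- PACKAGE NEG (200 lines). `hh k a b = gc b (k - X) + π / 2 log |k - X|`, `X = 2 cos a`; the second
term has integral 0 (`S_LW`). `Γ_b(T) = gc b T - gc b (-T) = gc b T + gc (b + π) T`. By the shifts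
`a → a + π` (`X → -X`) and `b → b + π` of the periodic integrand four times the integral is the integral
of `Γ_b(k - X) + Γ_b(k + X)`. `Γ_b` is odd, negative and strictly decreasing for `T > 0`. For `k > 0` the
bracket is negative for all `X`: it is symmetric in `X`; for `X ≥ 0`, if `k ≥ X` both terms are `≤ 0` and
the second is `< 0`; if `X > k` then `0 < X - k < X + k` and `Γ_b(k + X) < Γ_b(X - k) = -Γ_b(k - X)`.
For `k < 0` use the oddness. -/
def S_NEG : Prop := S_SGN → S_LW → ∀ k : ℝ, |k| < 2 → k ≠ 0 →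
  IntegrableOn (fun t : Fin 2 → ℝ => hh k (a0 t) (a1 t)) (Icc 0 1) ∧
  (∫ t in Icc (0 : Fin 2 → ℝ) 1, hh k (a0 t) (a1 t)) * k < 0

end Pool.Agent.P8H1.KS
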