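import Pool.Agent.P8H1.KS.Bnd2
import Pool.Agent.P8H1.KS.Stm2
set_option autoImplicit false

/-!
The limit of the regulators.
-/

namespace Pool.Agent.P8H1.KS

open Real Set Filter Topology MeasureTheory
open Pool.Agent.N65.TK (Pt D norm_root)
open Pool.Agent.P8H1.EK (tr)

section cont

variable {K : Type*} [Field K] (c : Kˣ) (σ : K →+* ℂ) {k e : ℝ} (hk0 : σ (tr c) = k)
  (hk : |k| < 2) (he : 0 < e)

theorem cont_pp {X : Type*} [TopologicalSpace X] {f l : X → ℂ} (hf : Continuous f)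
    (h0 : ∀ t, f t ≠ 0) (h1 : ∀ t, 1 - f t ≠ 0) (hl : Continuous l) :
    Continuous fun t => pp (f t) (l t) := by
  unfold pp
  exact (((continuous_const.sub hf).norm.log fun t => norm_ne_zero_iff.2 (h1 t)).mul
    (Complex.continuous_re.comp hl)).sub ((hf.norm.log fun t => norm_ne_zero_iff.2 (h0 t)).mul
    (Complex.continuous_re.comp (((hf.mul hl).neg).div (continuous_const.sub hf) h1)))

theorem cont_Phf {f l0 l1 : (Fin 2 → ℝ) → ℂ} (hf : Continuous f) (hD : Continuous fun t => D (f t))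
    (h0 : ∀ t, f t ≠ 0) (h1 : ∀ t, 1 - f t ≠ 0) (hl0 : Continuous l0) (hl1 : Continuous l1) :
    Continuous fun t => Phf e (a0 t) (a1 t) (f t) (l0 t) (l1 t) := by
  unfold Phf
  have c0 : Continuous fun t => Real.cos (a0 t) := Real.continuous_cos.comp cont_a0
  have c1 : Continuous fun t => Real.cos (a1 t) := Real.continuous_cos.comp cont_a1
  have s0 : Continuous fun t => Real.sin (a0 t) := Real.continuous_sin.comp cont_a0
  have s1 : Continuous fun t => Real.sin (a1 t) := Real.continuous_sin.comp cont_a1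
  exact ((continuous_const.mul (hD.mul (continuous_const.sub (continuous_const.mul
    ((continuous_const.mul c0).mul c1))))).add (continuous_const.mul ((continuous_const.mul s0).mul
    (cont_pp hf h0 h1 hl0)))).add (continuous_const.mul ((continuous_const.mul s1).mul
    (cont_pp hf h0 h1 hl1)))

include hk he in
theorem one_sub_f_ne (a b : ℝ) : 1 - f3 k e a b ≠ 0 ∧ 1 - f4 k e a b ≠ 0 := by
  have h1 := (ok_Ze he hk a b).zf_add
  have h2 := xe_add e b
  have h3 := (ok_Ze he hk a b).zf_ne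
  have h4 := xe_ne e b
  have h5 : wf k e a = -(Ze k e a b) - Ce e b := by
    unfold wf Ze
    ring
  have h6 : xe e b * (xe e b)⁻¹ = 1 := mul_inv_cancel₀ h4
  have h7 : zf (Ze k e a b) * (zf (Ze k e a b))⁻¹ = 1 := mul_inv_cancel₀ h3
  have h8 : (1 - f3 k e a b) * (1 - f4 k e a b) = -(zf (Ze k e a b) * wf k e a) := by
    rw [h5]
    unfold f3 f4
    linear_combination zf (Ze k e a b) ^ 2 * h6 - h7 + zf (Ze k e a b) * h1 + zf (Ze k e a b) * h2
  have h9 : (1 - f3 k e a b) * (1 - f4 k e a b) ≠ 0 := by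
    rw [h8]
    exact neg_ne_zero.2 (mul_ne_zero h3 (w_ne he hk a))
  exact ⟨left_ne_zero_of_mul h9, right_ne_zero_of_mul h9⟩

include c hk0 hk he in
theorem cont_Phi : Continuous fun t => Phi k e (a0 t) (a1 t) := by
  obtain ⟨cz0, cz1⟩ := cont_zl c σ hk0 hk he
  have cA : Continuous fun t => Ax k e (a0 t) := (cont_Ax hk he).comp cont_a0
  have cP : Continuous fun t => pX k e (a0 t) := (cont_pX hk he).comp cont_a0
  have cM := cont_mu (e := e) hk he
  have cN := cont_nu (e := e) hk he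
  have cc : Continuous fun t => e * Real.cos (a1 t) :=
    continuous_const.mul (Real.continuous_cos.comp cont_a1)
  have cX : Continuous fun t => Xd e (a1 t) := (cont_Xd e).comp cont_a1
  have c3 : Continuous fun t => f3 k e (a0 t) (a1 t) := by
    refine ((tor c σ hk0 hk he).smooth ((pf c).1 : Srf c)).continuous.congr fun t => ?_
    exact val_pf c σ hk0 hk he t
  have c4 : Continuous fun t => f4 k e (a0 t) (a1 t) := by
    refine ((tor c σ hk0 hk he).smooth ((qf c).1 : Srf c)).continuous.congr fun t => ?_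
    exact val_qf c σ hk0 hk he t
  have d3 : Continuous fun t => D (f3 k e (a0 t) (a1 t)) := by
    refine (cont_DT (tor c σ hk0 hk he) (pf c)).congr fun t => ?_
    rw [val_pf]
  have d4 : Continuous fun t => D (f4 k e (a0 t) (a1 t)) := by
    refine (cont_DT (tor c σ hk0 hk he) (qf c)).congr fun t => ?_
    rw [val_qf]
  have n3 : ∀ t, f3 k e (a0 t) (a1 t) ≠ 0 := fun t => by
    rw [← val_pf c σ hk0 hk he t]
    exact tor_ne c σ hk0 hk he _ t
  have n4 : ∀ t, f4 k e (a0 t) (a1 t) ≠ 0 := fun t => by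
    rw [← val_qf c σ hk0 hk he t]
    exact tor_ne c σ hk0 hk he _ t
  have m := fun t : Fin 2 → ℝ => one_sub_f_ne (k := k) (e := e) hk he (a0 t) (a1 t)
  unfold Phi
  refine (Continuous.sub ?_ (cont_Phf c3 d3 n3 (fun t => (m t).1) cz0 (cz1.sub cX))).sub
    (cont_Phf c4 d4 n4 (fun t => (m t).2) cz0 (cz1.add cX))
  unfold Ph1
  exact ((cA.mul ((continuous_const.mul cM).add ((continuous_const.mul cc).mul cN))).sub
    (((continuous_const.mul cc).mul cP).mul cM)).add ((continuous_const.mul cN).mul cP)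

end cont

theorem norm_wf_zero (k a : ℝ) : ‖wf k 0 a‖ = |k - 2 * Real.cos a| := by
  unfold wf
  rw [Ce_eq]
  simp only [zero_mul, Real.cosh_zero, Real.sinh_zero, mul_one, mul_zero, Complex.ofReal_zero,
    sub_zero]
  rw [← Complex.ofReal_sub, Complex.norm_real, Real.norm_eq_abs, abs_sub_comm]

section main

variable {K : Type*} [Field K] (c : Kˣ) (σ : K →+* ℂ) {k : ℝ} (hk0 : σ (tr c) = k)
  (hk : |k| < 2) (hc : ∃ N : ℕ, 0 < N ∧ c ^ N = 1)

include hc hk hk0 in
theorem tendsto_Phi (h1 : S_EVAL) (h2 : S_LIMC) (h3 : S_LW) (h4 : S_AE) :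
    Tendsto (fun e => ∫ t in Icc (0 : Fin 2 → ℝ) 1, Phi k e (a0 t) (a1 t)) (𝓝[>] 0)
      (𝓝 (∫ t in Icc (0 : Fin 2 → ℝ) 1, 4 * π ^ 2 * hh k (a0 t) (a1 t))) := by
  have hz := norm_root σ hc
  have hzk := zk c σ hk0
  refine tendsto_integral_filter_of_dominated_convergence (fun t => 5000000 * Gw k (a0 t))
    ?_ ?_ ?_ ?_
  · filter_upwards [self_mem_nhdsWithin] with e he
    exact (cont_Phi c σ hk0 hk he).aestronglyMeasurable
  · have : Ioc (0 : ℝ) 1 ∈ 𝓝[>] (0 : ℝ) := Ioc_mem_nhdsGT one_pos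
    filter_upwards [this] with e he
    filter_upwards [h4 k hk] with t ht
    have h0 : wf k 0 (a0 t) ≠ 0 := by
      intro h
      have h5 := norm_wf_zero k (a0 t)
      rw [h, norm_zero] at h5
      exact ht.1 (abs_eq_zero.1 h5.symm)
    exact Phi_le hz hzk hk he.1 he.2 h0 (a1 t)
  · have h5 : IntegrableOn (fun t : Fin 2 → ℝ => Gw k (a0 t)) (Icc 0 1) := by
      unfold Gw
      simp only [norm_wf_zero]
      refine Integrable.add ?_ (h3 k hk).1.abs
      exact int_cont continuous_const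
    exact h5.const_mul _
  · filter_upwards [h4 k hk] with t ht
    rw [← h1 k _ _ ht.1 ht.2]
    exact (h2 k _ _ ht.1 ht.2).tendsto.mono_left nhdsWithin_le_nhds

include hc hk hk0 in
/-- A torus with nonzero regulator. -/
theorem exists_tor (h1 : S_EVAL) (h2 : S_LIMC) (h3 : S_LW) (h4 : S_AE) (h5 : S_SGN) (h6 : S_NEG)
    (hk1 : k ≠ 0) : ∃ (e : ℝ) (he : 0 < e), (tor c σ hk0 hk he).reg (xi c) * k < 0 := by
  have h7 := (h6 h5 h3 k hk hk1).2
  have h8 := (tendsto_Phi c σ hk0 hk hc h1 h2 h3 h4).mul_const k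
  rw [integral_const_mul, mul_assoc] at h8
  have h9 : 4 * π ^ 2 * ((∫ t in Icc (0 : Fin 2 → ℝ) 1, hh k (a0 t) (a1 t)) * k) < 0 :=
    mul_neg_of_pos_of_neg (by positivity) h7
  have h10 := h8.eventually (gt_mem_nhds h9)
  obtain ⟨e, he, he'⟩ := (h10.and self_mem_nhdsWithin).exists
  refine ⟨e, he', ?_⟩
  rw [reg_tor c σ hk0 hk he' hc]
  exact he

end main

end Pool.Agent.P8H1.KS
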