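import Pool.Agent.P8H1.KS.Lw
import Pool.Agent.P8H1.EK.Lim
set_option autoImplicit false

/-!
Package LIMC (helper38).
-/

namespace Pool.Agent.P8H1.KS

open Real Set MeasureTheory Filter Topology
open Pool.Agent.N65.TK (D)

section cont

theorem c_an (a : ℝ) : Continuous fun e => an e a := by
  unfold an
  fun_prop

theorem c_ad (a : ℝ) : Continuous fun e => ad e a := by
  unfold ad
  fun_prop

theorem c_xe (a : ℝ) : Continuous fun e => xe e a := by
  unfold xe
  exact Complex.continuous_exp.comp (continuous_const.mul (c_an a))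

theorem c_Ce (a : ℝ) : Continuous fun e => Ce e a := by
  unfold Ce
  exact continuous_const.mul (Complex.continuous_cos.comp (c_an a))

theorem c_Ze (k a b : ℝ) : Continuous fun e => Ze k e a b := by
  unfold Ze
  exact (continuous_const.sub (c_Ce a)).sub (c_Ce b)

theorem c_Xd (a : ℝ) : Continuous fun e => Xd e a := by
  unfold Xd
  exact continuous_const.mul (continuous_const.mul (c_ad a))

theorem c_Zd (a : ℝ) : Continuous fun e => Zd e a := by
  unfold Zd
  exact continuous_const.mul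
    ((continuous_const.mul (Complex.continuous_sin.comp (c_an a))).mul (c_ad a))

theorem c_wf (k a : ℝ) : Continuous fun e => wf k e a := by
  unfold wf
  exact (c_Ce a).sub continuous_const

variable {k a b : ℝ} (hw : k - 2 * Real.cos a ≠ 0) (hZ : Ok (Ze k 0 a b))

theorem wf_zero : wf k 0 a = ((2 * Real.cos a - k : ℝ) : ℂ) := by
  unfold wf
  rw [Ce_zero]
  push_cast
  ring

include hw in
theorem wf_ne : wf k 0 a ≠ 0 := by
  rw [wf_zero, Complex.ofReal_ne_zero]
  intro h
  apply hw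
  linarith

include hw in
theorem c_Vx : ContinuousAt (fun e => Vx k e a) 0 := by
  unfold Vx
  exact (c_Xd a).continuousAt.sub ((c_Zd a).continuousAt.div (c_wf k a).continuousAt (wf_ne hw))

include hw in
theorem c_Lw : ContinuousAt (fun e => Lw k e a) 0 := by
  unfold Lw
  refine ContinuousAt.add (by fun_prop) ?_
  exact ((c_wf k a).norm.continuousAt).log (norm_ne_zero_iff.2 (wf_ne hw))

include hw in
theorem c_Ax : ContinuousAt (fun e => Ax k e a) 0 := by
  unfold Ax
  refine ContinuousAt.sub (ContinuousAt.mul (by fun_prop) ?_) (continuousAt_const.mul (c_Lw hw))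
  exact Complex.continuous_im.continuousAt.comp (c_Vx hw)

include hw in
theorem c_pX : ContinuousAt (fun e => pX k e a) 0 := by
  unfold pX
  refine ContinuousAt.add ((c_Lw hw).mul (by fun_prop)) (ContinuousAt.mul (by fun_prop) ?_)
  exact Complex.continuous_re.continuousAt.comp (c_Vx hw)

include hZ in
theorem c_lf : ContinuousAt (fun e => lf (Ze k e a b)) 0 :=
  ContinuousAt.comp (g := lf) (f := fun e => Ze k e a b) hZ.smooth_lf.continuousAt
    (c_Ze k a b).continuousAt

include hZ in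
theorem c_zf : ContinuousAt (fun e => zf (Ze k e a b)) 0 :=
  ContinuousAt.comp (g := zf) (f := fun e => Ze k e a b) hZ.smooth_zf.continuousAt
    (c_Ze k a b).continuousAt

include hZ in
theorem c_rf : ContinuousAt (fun e => rf (Ze k e a b)) 0 := by
  have h1 : ContDiffAt ℂ 2 Pf (Ze k 0 a b) :=
    (contDiffAt_sr hZ.p.1 hZ.p.2).comp (Ze k 0 a b) (contDiffAt_id.add contDiffAt_const)
  have h2 : ContDiffAt ℂ 2 Qf (Ze k 0 a b) :=
    (contDiffAt_sr hZ.q.1 hZ.q.2).comp (Ze k 0 a b) (contDiffAt_id.sub contDiffAt_const)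
  exact ContinuousAt.comp (g := rf) (f := fun e => Ze k e a b) (h1.continuousAt.mul h2.continuousAt)
    (c_Ze k a b).continuousAt

include hZ in
theorem c_mu : ContinuousAt (fun e => mu k e a b) 0 :=
  Complex.continuous_im.continuousAt.comp (c_lf hZ)

include hZ in
theorem c_nu : ContinuousAt (fun e => nu k e a b) 0 :=
  Complex.continuous_re.continuousAt.comp (c_lf hZ)

include hw hZ in
theorem c_Ph1 : ContinuousAt (fun e => Ph1 k e a b) 0 := by
  have h1 := c_Ax hw
  have h2 := c_mu hZ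
  have h3 := c_nu hZ
  have h4 := c_pX hw
  unfold Ph1
  have h5 : ContinuousAt (fun e : ℝ => 2 * π / 3 * (e * Real.cos b)) 0 := by fun_prop
  exact ((h1.mul ((continuousAt_const.mul h2).add (h5.mul h3))).sub ((h5.mul h4).mul h2)).add
    ((continuousAt_const.mul h3).mul h4)

include hZ in
theorem c_zl (c : ℝ) : ContinuousAt (fun e => zl k e a b c) 0 := by
  unfold zl
  exact ((c_Zd c).continuousAt.div (c_rf hZ) hZ.rf_ne).neg

include hZ in
theorem c_f3 : ContinuousAt (fun e => f3 k e a b) 0 := by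
  unfold f3
  exact ((c_zf hZ).mul ((c_xe b).continuousAt.inv₀ (xe_ne _ _))).neg

include hZ in
theorem c_f4 : ContinuousAt (fun e => f4 k e a b) 0 := by
  unfold f4
  exact ((c_xe b).continuousAt.mul (c_zf hZ)).neg

include hZ in
theorem prod34 : (1 - f3 k 0 a b) * (1 - f4 k 0 a b) = -(zf (Ze k 0 a b) * wf k 0 a) := by
  have h1 := hZ.zf_add
  have h2 := xe_add 0 b
  have h3 : zf (Ze k 0 a b) * (zf (Ze k 0 a b))⁻¹ = 1 := mul_inv_cancel₀ hZ.zf_ne
  have h4 : xe 0 b * (xe 0 b)⁻¹ = 1 := mul_inv_cancel₀ (xe_ne _ _)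
  unfold f3 f4 wf
  have h5 : Ze k 0 a b = (k : ℂ) - Ce 0 a - Ce 0 b := rfl
  generalize zf (Ze k 0 a b) = z at *
  generalize xe 0 b = y at *
  rw [h5] at h1
  linear_combination z * h1 - h3 + z ^ 2 * h4 + z * h2

include hw hZ in
theorem ne34 : 1 - f3 k 0 a b ≠ 0 ∧ 1 - f4 k 0 a b ≠ 0 := by
  have h : (1 - f3 k 0 a b) * (1 - f4 k 0 a b) ≠ 0 := by
    rw [prod34 hZ]
    exact neg_ne_zero.2 (mul_ne_zero hZ.zf_ne (wf_ne hw))
  exact ⟨left_ne_zero_of_mul h, right_ne_zero_of_mul h⟩

theorem c_pp {f l : ℝ → ℂ} (hf : ContinuousAt f 0) (hl : ContinuousAt l 0) (h0 : f 0 ≠ 0)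
    (h1 : 1 - f 0 ≠ 0) : ContinuousAt (fun e => pp (f e) (l e)) 0 := by
  unfold pp
  have h2 : ContinuousAt (fun e => 1 - f e) 0 := continuousAt_const.sub hf
  refine ContinuousAt.sub (ContinuousAt.mul ?_ ?_) (ContinuousAt.mul ?_ ?_)
  · exact h2.norm.log (norm_ne_zero_iff.2 h1)
  · exact Complex.continuous_re.continuousAt.comp hl
  · exact hf.norm.log (norm_ne_zero_iff.2 h0)
  · exact Complex.continuous_re.continuousAt.comp ((hf.mul hl).neg.div h2 h1)

theorem c_Phf {f l0 l1 : ℝ → ℂ} (hf : ContinuousAt f 0) (hl0 : ContinuousAt l0 0)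
    (hl1 : ContinuousAt l1 0) (h0 : f 0 ≠ 0) (h1 : 1 - f 0 ≠ 0) :
    ContinuousAt (fun e => Phf e a b (f e) (l0 e) (l1 e)) 0 := by
  unfold Phf
  have hD : ContinuousAt (fun e => D (f e)) 0 :=
    ContinuousAt.comp (g := D) (f := f)
      (Pool.Agent.P8H1.EK.contAt_D h0 fun h => h1 (by rw [h, sub_self])) hf
  refine ContinuousAt.add (ContinuousAt.add ?_ ?_) ?_
  · exact continuousAt_const.mul (hD.mul (by fun_prop))
  · exact continuousAt_const.mul (ContinuousAt.mul (by fun_prop) (c_pp hf hl0 h0 h1))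
  · exact continuousAt_const.mul (ContinuousAt.mul (by fun_prop) (c_pp hf hl1 h0 h1))

end cont

theorem s_limc : S_LIMC := by
  intro k a b hw hZ
  unfold Phi
  obtain ⟨h3, h4⟩ := ne34 hw hZ
  refine ContinuousAt.sub (ContinuousAt.sub (c_Ph1 hw hZ) ?_) ?_
  · refine c_Phf (c_f3 hZ) (c_zl hZ a) ((c_zl hZ b).sub (c_Xd b).continuousAt) ?_ h3
    unfold f3
    exact neg_ne_zero.2 (mul_ne_zero hZ.zf_ne (inv_ne_zero (xe_ne _ _)))
  · refine c_Phf (c_f4 hZ) (c_zl hZ a) ((c_zl hZ b).add (c_Xd b).continuousAt) ?_ h4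
    unfold f4
    exact neg_ne_zero.2 (mul_ne_zero (xe_ne _ _) hZ.zf_ne)

end Pool.Agent.P8H1.KS
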