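import Pool.Agent.P8H1.KS.Stm2
import Pool.Agent.P8H38.KS.LwCore
set_option autoImplicit false

/-!
Package LW (helper38).
-/

namespace Pool.Agent.P8H1.KS

open Real Set MeasureTheory

theorem s_lw : S_LW := by
  intro k hk
  obtain ⟨h1, h2⟩ := Pool.Agent.P8H38.KS.core1 k hk
  obtain ⟨h3, h4⟩ := Pool.Agent.P8H38.KS.core2 _ h1
  exact ⟨h3, h4.trans h2⟩

theorem Ce_zero (a : ℝ) : Ce 0 a = ((2 * Real.cos a : ℝ) : ℂ) := by
  rw [Ce_eq]
  simp

theorem Ze_zero (k a b : ℝ) : Ze k 0 a b = ((k - 2 * Real.cos a - 2 * Real.cos b : ℝ) : ℂ) := by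
  unfold Ze
  rw [Ce_zero, Ce_zero]
  push_cast
  ring

theorem ok_zero {k a b : ℝ} : Ok (Ze k 0 a b) ↔
    k - 2 * Real.cos a - 2 * Real.cos b ≠ 2 ∧ k - 2 * Real.cos a - 2 * Real.cos b ≠ -2 := by
  rw [Ze_zero]
  constructor
  · intro h
    refine ⟨fun h1 => h.ne ?_, fun h1 => h.ne' ?_⟩
    · rw [h1]
      norm_num
    · rw [h1]
      push_cast
      rfl
  · rintro ⟨h1, h2⟩
    refine ⟨by rw [Complex.ofReal_im], fun h => h1 ?_, fun h => h2 ?_⟩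
    · exact_mod_cast h
    · exact_mod_cast h

theorem s_ae : S_AE := by
  intro k _
  filter_upwards [Pool.Agent.P8H38.KS.core3 k] with t ht
  exact ⟨ht.1, ok_zero.2 ht.2⟩

end Pool.Agent.P8H1.KS
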