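import Pool.Agent.P8H1.KS.Stm2
import Pool.Agent.P8H1.KS.Frm
set_option autoImplicit false

/-!
Package NEG of the project KS: the sign of the limit integral (written by helper76).
-/

namespace Pool.Agent.P8H1.KS

open Real Set MeasureTheory
open Pool.Agent.N65.TK (Dc D)
open Pool.Agent.P8H1.EK (continuous_Dc)

theorem hh_eq (k a b : ℝ) : hh k a b = gc b (k - 2 * Real.cos a) + π / 2 * Real.log |k - 2 * Real.cos a| := by
  unfold hh gc
  ring

theorem continuous_ca {b T : (Fin 2 → ℝ) → ℝ} (hb : Continuous b) (hT : Continuous T) :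
    Continuous fun t => ca (b t) (T t) :=
  Real.continuous_arccos.comp ((hT.sub (continuous_const.mul (Real.continuous_cos.comp hb))).div_const 2)

theorem continuous_Gc_ca {b T : (Fin 2 → ℝ) → ℝ} (hb : Continuous b) (hT : Continuous T) :
    Continuous fun t => Gc (b t) (ca (b t) (T t)) := by
  have h1 := continuous_ca hb hT
  unfold Gc
  exact (continuous_Dc.comp ((continuous_const.sub h1).sub hb)).add
    (continuous_Dc.comp ((continuous_const.sub h1).add hb))

theorem integrable_gc (hLW : S_LW) {k : ℝ} (hk : |k| < 2) {b T : (Fin 2 → ℝ) → ℝ} (hb : Continuous b)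
    (hT : Continuous T) (hlog : ∀ t, Real.log |T t| = Real.log |k - 2 * Real.cos (a0 t)|) :
    IntegrableOn (fun t : Fin 2 → ℝ => gc (b t) (T t)) (Icc 0 1) := by
  have h1 := (hLW k hk).1
  have h2 : ContinuousOn (fun t => ca (b t) (T t) - π / 2) (Icc (0 : Fin 2 → ℝ) 1) :=
    ((continuous_ca hb hT).sub continuous_const).continuousOn
  have h3 := h1.continuousOn_mul h2 isCompact_Icc
  have h4 : IntegrableOn (fun t => Gc (b t) (ca (b t) (T t))) (Icc (0 : Fin 2 → ℝ) 1) :=
    (continuous_Gc_ca hb hT).continuousOn.integrableOn_compact isCompact_Icc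
  refine (h3.sub h4).congr_fun (fun t _ => ?_) measurableSet_Icc
  show (ca (b t) (T t) - π / 2) * Real.log |k - 2 * Real.cos (a0 t)| - Gc (b t) (ca (b t) (T t)) = gc (b t) (T t)
  unfold gc
  rw [hlog]

theorem shiftA {F F' : (Fin 2 → ℝ) → ℝ} (hF : IntegrableOn F (Icc 0 1)) (hF' : IntegrableOn F' (Icc 0 1))
    (h : ∀ r s : ℝ, F' ![r, s] = F ![r + 1 / 2, s]) (hp : ∀ r s : ℝ, F ![r + 1, s] = F ![r, s]) :
    ∫ t in Icc (0 : Fin 2 → ℝ) 1, F' t = ∫ t in Icc (0 : Fin 2 → ℝ) 1, F t := by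
  rw [sqA hF', sqA hF]
  refine intervalIntegral.integral_congr fun s _ => ?_
  have h1 : ∫ r in (0 : ℝ)..1, F' ![r, s] = ∫ r in (0 : ℝ)..1, F ![r + 1 / 2, s] :=
    intervalIntegral.integral_congr fun r _ => h r s
  have hper : Function.Periodic (fun r : ℝ => F ![r, s]) 1 := fun r => hp r s
  have h2 := intervalIntegral.integral_comp_add_right (a := 0) (b := 1) (fun r : ℝ => F ![r, s]) (1 / 2)
  have h3 := hper.intervalIntegral_add_eq (0 + 1 / 2) 0
  show (∫ r in (0 : ℝ)..1, F' ![r, s]) = ∫ r in (0 : ℝ)..1, F ![r, s]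
  rw [h1, h2, zero_add, add_comm (1 : ℝ) (1 / 2)]
  rw [zero_add, zero_add] at h3
  exact h3

theorem shiftB {F F' : (Fin 2 → ℝ) → ℝ} (hF : IntegrableOn F (Icc 0 1)) (hF' : IntegrableOn F' (Icc 0 1))
    (h : ∀ r s : ℝ, F' ![r, s] = F ![r, s + 1 / 2]) (hp : ∀ r s : ℝ, F ![r, s + 1] = F ![r, s]) :
    ∫ t in Icc (0 : Fin 2 → ℝ) 1, F' t = ∫ t in Icc (0 : Fin 2 → ℝ) 1, F t := by
  rw [sqB hF', sqB hF]
  refine intervalIntegral.integral_congr fun r _ => ?_
  have h1 : ∫ s in (0 : ℝ)..1, F' ![r, s] = ∫ s in (0 : ℝ)..1, F ![r, s + 1 / 2] :=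
    intervalIntegral.integral_congr fun s _ => h r s
  have hper : Function.Periodic (fun s : ℝ => F ![r, s]) 1 := fun s => hp r s
  have h2 := intervalIntegral.integral_comp_add_right (a := 0) (b := 1) (fun s : ℝ => F ![r, s]) (1 / 2)
  have h3 := hper.intervalIntegral_add_eq (0 + 1 / 2) 0
  show (∫ s in (0 : ℝ)..1, F' ![r, s]) = ∫ s in (0 : ℝ)..1, F ![r, s]
  rw [h1, h2, zero_add, add_comm (1 : ℝ) (1 / 2)]
  rw [zero_add, zero_add] at h3
  exact h3

/-- the odd function of `T` -/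
noncomputable def Gam (b T : ℝ) : ℝ := gc b T - gc b (-T)

theorem Gam_neg (b T : ℝ) : Gam b (-T) = -Gam b T := by
  unfold Gam
  rw [neg_neg]
  ring

theorem Gam_zero (b : ℝ) : Gam b 0 = 0 := by
  unfold Gam
  rw [neg_zero, sub_self]

theorem bracket_neg (hS : S_SGN) (b : ℝ) {k X : ℝ} (hk : 0 < k) : Gam b (k - X) + Gam b (k + X) < 0 := by
  obtain ⟨-, h2, h3⟩ := hS
  have key : ∀ X : ℝ, 0 ≤ X → Gam b (k - X) + Gam b (k + X) < 0 := by
    intro X hX
    have hp : Gam b (k + X) < 0 := h2 b (k + X) (by linarith)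
    rcases lt_trichotomy X k with h | h | h
    · have h4 : Gam b (k - X) < 0 := h2 b (k - X) (by linarith)
      linarith
    · have h4 : Gam b (k - X) = 0 := by rw [h, sub_self, Gam_zero]
      linarith
    · have h4 : Gam b (k + X) < Gam b (X - k) := h3 b (k + X) (X - k) (by linarith) (by linarith)
      have h5 : Gam b (k - X) = -Gam b (X - k) := by
        rw [← Gam_neg, neg_sub]
      linarith
  rcases le_total 0 X with h | h
  · exact key X h
  · have h1 := key (-X) (by linarith)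
    rw [sub_neg_eq_add, ← sub_eq_add_neg] at h1
    linarith

theorem integral_neg_of_neg {F : (Fin 2 → ℝ) → ℝ} (hF : IntegrableOn F (Icc 0 1)) (h : ∀ t, F t < 0) :
    ∫ t in Icc (0 : Fin 2 → ℝ) 1, F t < 0 := by
  have hneg : IntegrableOn (fun t => -F t) (Icc (0 : Fin 2 → ℝ) 1) := hF.neg
  have h1 : 0 < ∫ t in Icc (0 : Fin 2 → ℝ) 1, -F t := by
    refine (setIntegral_pos_iff_support_of_nonneg_ae (Filter.Eventually.of_forall fun t => ?_) hneg).2 ?_
    · show (0 : ℝ) ≤ -F t
      linarith [h t]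
    · have h2 : Function.support (fun t => -F t) = univ := by
        ext t
        simp [(h t).ne]
      rw [h2, univ_inter, Real.volume_Icc_pi]
      simp
  rw [integral_neg] at h1
  linarith

theorem s_neg : S_NEG := by
  intro hS hLW k hk hk0
  have hk' : |(-k)| < 2 := by rwa [abs_neg]
  have c0 : Continuous a0 := a0_smooth.continuous
  have c1 : Continuous a1 := a1_smooth.continuous
  have hX : Continuous fun t : Fin 2 → ℝ => 2 * Real.cos (a0 t) := continuous_const.mul (Real.continuous_cos.comp c0)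
  have hper : ∀ b T : ℝ, gc (b + 2 * π) T = gc b T := by
    intro b T
    have h1 := hS.1 (b + π) T
    rw [show b + π + π = b + 2 * π by ring] at h1
    rw [h1, hS.1, neg_neg, neg_neg]
  -- the four functions
  set F : (Fin 2 → ℝ) → ℝ := fun t => gc (a1 t) (k - 2 * Real.cos (a0 t)) with hFd
  set F1 : (Fin 2 → ℝ) → ℝ := fun t => gc (a1 t) (k + 2 * Real.cos (a0 t)) with hF1d
  set F2 : (Fin 2 → ℝ) → ℝ := fun t => -gc (a1 t) (-(k - 2 * Real.cos (a0 t))) with hF2d
  set F3 : (Fin 2 → ℝ) → ℝ := fun t => -gc (a1 t) (-(k + 2 * Real.cos (a0 t))) with hF3d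
  have hF : IntegrableOn F (Icc 0 1) :=
    integrable_gc hLW hk c1 (continuous_const.sub hX) fun t => rfl
  have hF1 : IntegrableOn F1 (Icc 0 1) :=
    integrable_gc (T := fun t => k + 2 * Real.cos (a0 t)) hLW hk' c1 (continuous_const.add hX) fun t => by
      rw [← abs_neg]
      congr 2
      ring
  have hF2 : IntegrableOn F2 (Icc 0 1) :=
    (integrable_gc (T := fun t => -(k - 2 * Real.cos (a0 t))) hLW hk c1 (continuous_const.sub hX).neg
      fun t => by rw [abs_neg]).neg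
  have hF3 : IntegrableOn F3 (Icc 0 1) :=
    (integrable_gc (T := fun t => -(k + 2 * Real.cos (a0 t))) hLW hk' c1 (continuous_const.add hX).neg fun t => by
      congr 2
      ring).neg
  have v0 : ∀ r s : ℝ, a0 ![r, s] = 2 * π * r := fun r s => by simp [a0]
  have v1 : ∀ r s : ℝ, a1 ![r, s] = 2 * π * s := fun r s => by simp [a1]
  have e1 : ∫ t in Icc (0 : Fin 2 → ℝ) 1, F1 t = ∫ t in Icc (0 : Fin 2 → ℝ) 1, F t := by
    refine shiftA hF hF1 (fun r s => ?_) fun r s => ?_
    · simp only [hFd, hF1d, v0, v1]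
      rw [show 2 * π * (r + 1 / 2) = 2 * π * r + π by ring, Real.cos_add_pi]
      congr 1
      ring
    · simp only [hFd, v0, v1]
      rw [show 2 * π * (r + 1) = 2 * π * r + 2 * π by ring, Real.cos_add_two_pi]
  have e2 : ∫ t in Icc (0 : Fin 2 → ℝ) 1, F2 t = ∫ t in Icc (0 : Fin 2 → ℝ) 1, F t := by
    refine shiftB hF hF2 (fun r s => ?_) fun r s => ?_
    · simp only [hFd, hF2d, v0, v1]
      rw [show 2 * π * (s + 1 / 2) = 2 * π * s + π by ring, hS.1]
    · simp only [hFd, v0, v1]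
      rw [show 2 * π * (s + 1) = 2 * π * s + 2 * π by ring, hper]
  have e3 : ∫ t in Icc (0 : Fin 2 → ℝ) 1, F3 t = ∫ t in Icc (0 : Fin 2 → ℝ) 1, F1 t := by
    refine shiftB hF1 hF3 (fun r s => ?_) fun r s => ?_
    · simp only [hF1d, hF3d, v0, v1]
      rw [show 2 * π * (s + 1 / 2) = 2 * π * s + π by ring, hS.1]
    · simp only [hF1d, v0, v1]
      rw [show 2 * π * (s + 1) = 2 * π * s + 2 * π by ring, hper]
  have hsum : ∫ t in Icc (0 : Fin 2 → ℝ) 1, (Gam (a1 t) (k - 2 * Real.cos (a0 t)) + Gam (a1 t) (k + 2 * Real.cos (a0 t))) =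
      4 * ∫ t in Icc (0 : Fin 2 → ℝ) 1, F t := by
    have h1 : ∀ t, Gam (a1 t) (k - 2 * Real.cos (a0 t)) + Gam (a1 t) (k + 2 * Real.cos (a0 t)) =
        (F t + F2 t) + (F1 t + F3 t) := fun t => by
      simp only [hFd, hF1d, hF2d, hF3d, Gam]
      ring
    simp only [h1]
    have i1 := integral_add (f := fun t => F t + F2 t) (g := fun t => F1 t + F3 t) (hF.add hF2) (hF1.add hF3)
    have i2 := integral_add (f := F) (g := F2) hF hF2
    have i3 := integral_add (f := F1) (g := F3) hF1 hF3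
    rw [i1, i2, i3, e3, e1, e2]
    ring
  have hsumI : IntegrableOn (fun t => Gam (a1 t) (k - 2 * Real.cos (a0 t)) + Gam (a1 t) (k + 2 * Real.cos (a0 t)))
      (Icc 0 1) := by
    refine ((hF.add hF2).add (hF1.add hF3)).congr_fun (fun t _ => ?_) measurableSet_Icc
    simp only [Pi.add_apply, hFd, hF1d, hF2d, hF3d, Gam]
    ring
  have hlw := hLW k hk
  have hhI : IntegrableOn (fun t : Fin 2 → ℝ => hh k (a0 t) (a1 t)) (Icc 0 1) := by
    refine (hF.add (hlw.1.const_mul (π / 2))).congr_fun (fun t _ => ?_) measurableSet_Icc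
    simp only [Pi.add_apply, hFd, hh_eq]
  refine ⟨hhI, ?_⟩
  have hval : ∫ t in Icc (0 : Fin 2 → ℝ) 1, hh k (a0 t) (a1 t) = ∫ t in Icc (0 : Fin 2 → ℝ) 1, F t := by
    simp only [hh_eq]
    rw [integral_add hF (hlw.1.const_mul (π / 2)), integral_const_mul, hlw.2, mul_zero, add_zero]
  rw [hval]
  rcases lt_or_gt_of_ne hk0 with h | h
  · have h1 : ∫ t in Icc (0 : Fin 2 → ℝ) 1,
        -(Gam (a1 t) (k - 2 * Real.cos (a0 t)) + Gam (a1 t) (k + 2 * Real.cos (a0 t))) < 0 := by
      refine integral_neg_of_neg hsumI.neg fun t => ?_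
      have h2 := bracket_neg hS (a1 t) (k := -k) (X := 2 * Real.cos (a0 t)) (by linarith)
      have h3 : Gam (a1 t) (-k - 2 * Real.cos (a0 t)) = -Gam (a1 t) (k + 2 * Real.cos (a0 t)) := by
        rw [← Gam_neg]
        congr 1
        ring
      have h4 : Gam (a1 t) (-k + 2 * Real.cos (a0 t)) = -Gam (a1 t) (k - 2 * Real.cos (a0 t)) := by
        rw [← Gam_neg]
        congr 1
        ring
      rw [h3, h4] at h2
      linarith
    rw [integral_neg, hsum] at h1
    nlinarith
  · have h1 := integral_neg_of_neg hsumI fun t => bracket_neg hS (a1 t) (k := k) (X := 2 * Real.cos (a0 t)) h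
    rw [hsum] at h1
    nlinarith

end Pool.Agent.P8H1.KS
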