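import Pool.Agent.P8H1.KS.Stm
import Pool.Agent.P8H1.PD.Res
set_option autoImplicit false

/-!
The residues of the element `xi` vanish modulo the relations.
-/

namespace Pool.Agent.P8H1.KS.R

open scoped WithZero
open Pool.Agent.N65.TK (Pt Kap red Red one_lt_val_pair val_pair_eq_one val_torsion Five)
open Pool.Agent.P8H1.PD (FS bnd Rels br Qt mk_mul mk_tors mk_self od ub od_mul ub_mul ubh
  od_zpow od_eq_zero val_od ub_of_red red_one red_sub red_ne_zero od_tors)

section five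

variable {κ : Type*} [Field κ]

/-- the inversion relation from the five term relation -/
theorem five_inv {V : Type*} [AddCommGroup V] [Module ℚ V] [Infinite κ] (q : κ → V)
    (h5 : ∀ x y : κ, x ≠ 0 → x ≠ 1 → y ≠ 0 → y ≠ 1 → x ≠ y →
      q x - q y + q (y / x) - q (y * (1 - x) / (x * (1 - y))) + q ((1 - x) / (1 - y)) = 0)
    (a : κ) (ha0 : a ≠ 0) (ha1 : a ≠ 1) : q a + q a⁻¹ = 0 := by
  set I : κ → V := fun a => q a + q a⁻¹ with hI
  have hIinv : ∀ a, I a⁻¹ = I a := by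
    intro a
    simp only [hI, inv_inv]
    abel
  have hmul : ∀ a c : κ, a ≠ 0 → a ≠ 1 → c ≠ 0 → c ≠ 1 → a * c ≠ 1 → I a + I c = I (a * c) := by
    intro a c ha0 ha1 hc0 hc1 hac
    have hd : a * c - 1 ≠ 0 := sub_ne_zero.2 hac
    have hc' : c - 1 ≠ 0 := sub_ne_zero.2 hc1
    have ha' : a - 1 ≠ 0 := sub_ne_zero.2 ha1
    have ha'' : 1 - a ≠ 0 := sub_ne_zero.2 ha1.symm
    set x : κ := (c - 1) / (a * c - 1) with hx
    set y : κ := a * x with hy
    have hx0 : x ≠ 0 := div_ne_zero hc' hd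
    have hx1' : 1 - x = c * (a - 1) / (a * c - 1) := by
      rw [hx, eq_div_iff hd, sub_mul, div_mul_cancel₀ _ hd]
      ring
    have hy1' : 1 - y = (a - 1) / (a * c - 1) := by
      rw [hy, hx, eq_div_iff hd, sub_mul, mul_assoc, div_mul_cancel₀ _ hd]
      ring
    have hx1 : x ≠ 1 := by
      intro h
      have : (1 : κ) - x = 0 := by rw [h, sub_self]
      rw [hx1'] at this
      exact (div_ne_zero (mul_ne_zero hc0 ha') hd) this
    have hy0 : y ≠ 0 := mul_ne_zero ha0 hx0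
    have hy1 : y ≠ 1 := by
      intro h
      have : (1 : κ) - y = 0 := by rw [h, sub_self]
      rw [hy1'] at this
      exact (div_ne_zero ha' hd) this
    have hxy : x ≠ y := by
      intro h
      rw [hy] at h
      have h3 : x * (1 - a) = 0 := by linear_combination h
      exact (mul_ne_zero hx0 ha'') h3
    have e1 := h5 x y hx0 hx1 hy0 hy1 hxy
    have e2 := h5 y x hy0 hy1 hx0 hx1 hxy.symm
    have f1 : y / x = a := by rw [hy, mul_div_cancel_right₀ _ hx0]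
    have f1' : x / y = a⁻¹ := by rw [← f1, inv_div]
    have f2 : (1 - x) / (1 - y) = c := by
      rw [hx1', hy1', div_div_div_cancel_right₀ hd, mul_div_cancel_right₀ _ ha']
    have f2' : (1 - y) / (1 - x) = c⁻¹ := by rw [← f2, inv_div]
    have f3 : y * (1 - x) / (x * (1 - y)) = a * c := by
      rw [← f1, ← f2, div_mul_div_comm]
    have f3' : x * (1 - y) / (y * (1 - x)) = (a * c)⁻¹ := by rw [← f3, inv_div]
    rw [f1, f2, f3] at e1
    rw [f1', f2', f3'] at e2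
    have e3 := congrArg₂ (· + ·) e1 e2
    simp only [add_zero] at e3
    simp only [hI]
    rw [← sub_eq_zero, ← e3]
    abel
  classical
  obtain ⟨c, hc⟩ := Infinite.exists_notMem_finset ({0, 1, a⁻¹} : Finset κ)
  simp only [Finset.mem_insert, Finset.mem_singleton, not_or] at hc
  obtain ⟨hc0, hc1, hca⟩ := hc
  have hac : a * c ≠ 1 := fun h => hca (eq_inv_of_mul_eq_one_right h)
  have h1 := hmul a c ha0 ha1 hc0 hc1 hac
  have h2 := hmul a⁻¹ (a * c) (inv_ne_zero ha0) (inv_ne_one.2 ha1) (mul_ne_zero ha0 hc0) hac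
    (by rw [inv_mul_cancel_left₀ ha0]; exact hc1)
  rw [inv_mul_cancel_left₀ ha0, hIinv, ← h1] at h2
  have h3 : (2 : ℚ) • I a = 0 := by
    have h4 : I a + I a = 0 := by
      rw [← sub_eq_zero] at h2
      rw [← h2]
      abel
    rw [← h4, two_smul]
  exact (smul_eq_zero.1 h3).resolve_left (by norm_num)

theorem five_co {V : Type*} [AddCommGroup V] [Module ℚ V] [Infinite κ] (q : κ → V)
    (h5 : ∀ x y : κ, x ≠ 0 → x ≠ 1 → y ≠ 0 → y ≠ 1 → x ≠ y →
      q x - q y + q (y / x) - q (y * (1 - x) / (x * (1 - y))) + q ((1 - x) / (1 - y)) = 0)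
    (x : κ) (hx0 : x ≠ 0) (hx1 : x ≠ 1) : q x + q (1 - x) = 0 := by
  have hC : ∀ x y : κ, x ≠ 0 → x ≠ 1 → y ≠ 0 → y ≠ 1 → q x + q (1 - x) = q y + q (1 - y) := by
    intro x y hx0 hx1 hy0 hy1
    by_cases hxy : x = y
    · rw [hxy]
    have hx' : 1 - x ≠ 0 := sub_ne_zero.2 hx1.symm
    have hy' : 1 - y ≠ 0 := sub_ne_zero.2 hy1.symm
    have e1 := h5 x y hx0 hx1 hy0 hy1 hxy
    have e2 := h5 (1 - y) (1 - x) hy' (by simpa using hy0) hx' (by simpa using hx0)
      (by intro h; exact hxy (by linear_combination h))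
    rw [sub_sub_cancel, sub_sub_cancel] at e2
    have f1 : (1 - x) * y / ((1 - y) * x) = y * (1 - x) / (x * (1 - y)) := by
      rw [mul_comm (1 - x), mul_comm (1 - y)]
    rw [f1] at e2
    rw [← sub_eq_zero]
    have e3 := congrArg₂ (· - ·) e1 e2
    simp only [sub_zero] at e3
    rw [← e3]
    abel
  have hx' : 1 - x ≠ 0 := sub_ne_zero.2 hx1.symm
  have h1 := five_inv q h5 x hx0 hx1
  have h2 := five_inv q h5 (1 - x) hx' (by simpa using hx0)
  have hxi : x⁻¹ ≠ 1 := inv_ne_one.2 hx1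
  have h3 := five_inv q h5 (1 - x⁻¹) (sub_ne_zero.2 hxi.symm) (by simpa using hx0)
  have e1 := hC x⁻¹ x (inv_ne_zero hx0) hxi hx0 hx1
  have e2 := hC (1 - x)⁻¹ x (inv_ne_zero hx') (inv_ne_one.2 (by simpa using hx0)) hx0 hx1
  have f1 : (1 - x⁻¹)⁻¹ = 1 - (1 - x)⁻¹ := by
    have h4 : x - 1 ≠ 0 := sub_ne_zero.2 hx1
    have h5 : 1 - x⁻¹ = (x - 1) / x := by field_simp
    rw [h5, inv_div]
    field_simp
    ring
  rw [f1] at h3
  have h4 : (3 : ℚ) • (q x + q (1 - x)) = 0 := by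
    have h5 : (3 : ℚ) • (q x + q (1 - x)) =
        (q x + q (1 - x)) + (q x⁻¹ + q (1 - x⁻¹)) + (q (1 - x)⁻¹ + q (1 - (1 - x)⁻¹)) := by
      rw [e1, e2]
      module
    rw [h5]
    have h6 := congrArg₂ (· + ·) (congrArg₂ (· + ·) h1 h2) h3
    simp only [add_zero] at h6
    rw [← h6]
    abel
  exact (smul_eq_zero.1 h4).resolve_left (by norm_num)

/-- the class of `{s}_2 ⊗ g` -/
noncomputable def Pc (s : Pt κ) (g : κˣ) : Qt κ 1 := Submodule.Quotient.mk (br s ![g])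

theorem upd1 (a b : κˣ) : Function.update (![a] : Fin 1 → κˣ) 0 b = ![b] := by
  funext i
  rw [Subsingleton.elim i 0, Function.update_self]
  rfl

/-- the class as a homomorphism in the second variable -/
noncomputable def Ph (s : Pt κ) : Additive κˣ →+ Qt κ 1 :=
  AddMonoidHom.mk' (fun g => Pc s g.toMul) fun a b => by
    have h := mk_mul s ![(1 : κˣ)] 0 a.toMul b.toMul
    rw [upd1, upd1, upd1] at h
    exact h

/-- the class, additively -/
noncomputable def pp (s : Pt κ) (g : κˣ) : Qt κ 1 := Ph s (Additive.ofMul g)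

theorem pp_eq (s : Pt κ) (g : κˣ) : pp s g = Submodule.Quotient.mk (br s ![g]) := rfl

theorem pp_mul (s : Pt κ) (g h : κˣ) : pp s (g * h) = pp s g + pp s h := by
  unfold pp
  rw [ofMul_mul, map_add]

theorem pp_inv (s : Pt κ) (g : κˣ) : pp s g⁻¹ = -pp s g := by
  unfold pp
  rw [ofMul_inv, map_neg]

theorem pp_one (s : Pt κ) : pp s 1 = 0 := by
  unfold pp
  rw [ofMul_one, map_zero]

theorem pp_tors (s : Pt κ) {g : κˣ} {M : ℕ} (hM : 0 < M) (h : g ^ M = 1) : pp s g = 0 := by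
  have h1 := mk_tors s ![(1 : κˣ)] 0 hM h
  rwa [upd1] at h1

theorem pp_self (s : Pt κ) : pp s s.1 = 0 := mk_self s _ 0 rfl

theorem pp_five {x y a b c : Pt κ} (h : Five x y a b c) (g : κˣ) :
    pp x g - pp y g + pp a g - pp b g + pp c g = 0 := by
  simp only [pp_eq]
  rw [← Submodule.Quotient.mk_sub, ← Submodule.Quotient.mk_add, ← Submodule.Quotient.mk_sub,
    ← Submodule.Quotient.mk_add, Submodule.Quotient.mk_eq_zero]
  exact Submodule.subset_span (Or.inl (Or.inr ⟨x, y, a, b, c, ![g], h, rfl⟩))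

open Classical in
/-- the class as a function on the field -/
noncomputable def qq (g : κˣ) (t : κ) : Qt κ 1 :=
  if h : t ≠ 0 ∧ t ≠ 1 then pp ⟨Units.mk0 t h.1, (sub_ne_zero.2 h.2.symm).isUnit⟩ g else 0

theorem pt_ne (s : Pt κ) : (s.1 : κ) ≠ 1 := by
  intro h
  have h1 := s.2.ne_zero
  rw [h, sub_self] at h1
  exact h1 rfl

theorem qq_pt (g : κˣ) (s : Pt κ) {t : κ} (h : (s.1 : κ) = t) : qq g t = pp s g := by
  subst h
  unfold qq
  rw [dif_pos ⟨s.1.ne_zero, pt_ne s⟩]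
  congr 1
  exact Subtype.ext (Units.ext rfl)

/-- a point of the field -/
noncomputable def mkp (t : κ) (h0 : t ≠ 0) (h1 : t ≠ 1) : Pt κ :=
  ⟨Units.mk0 t h0, (sub_ne_zero.2 h1.symm).isUnit⟩

theorem qq_mkp (g : κˣ) {t : κ} (h0 : t ≠ 0) (h1 : t ≠ 1) : qq g t = pp (mkp t h0 h1) g :=
  qq_pt g _ rfl

theorem qq_five (g : κˣ) (x y : κ) (hx0 : x ≠ 0) (hx1 : x ≠ 1) (hy0 : y ≠ 0) (hy1 : y ≠ 1)
    (hxy : x ≠ y) : qq g x - qq g y + qq g (y / x) - qq g (y * (1 - x) / (x * (1 - y))) +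
      qq g ((1 - x) / (1 - y)) = 0 := by
  have hx' : 1 - x ≠ 0 := sub_ne_zero.2 hx1.symm
  have hy' : 1 - y ≠ 0 := sub_ne_zero.2 hy1.symm
  have hy'' : y - 1 ≠ 0 := sub_ne_zero.2 hy1
  have ha0 : y / x ≠ 0 := div_ne_zero hy0 hx0
  have ha1 : y / x ≠ 1 := by
    intro h
    rw [div_eq_one_iff_eq hx0] at h
    exact hxy h.symm
  have hb0 : y * (1 - x) / (x * (1 - y)) ≠ 0 :=
    div_ne_zero (mul_ne_zero hy0 hx') (mul_ne_zero hx0 hy')
  have hb1 : y * (1 - x) / (x * (1 - y)) ≠ 1 := by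
    intro h
    rw [div_eq_one_iff_eq (mul_ne_zero hx0 hy')] at h
    exact hxy (by linear_combination -h)
  have hc0 : (1 - x) / (1 - y) ≠ 0 := div_ne_zero hx' hy'
  have hc1 : (1 - x) / (1 - y) ≠ 1 := by
    intro h
    rw [div_eq_one_iff_eq hy'] at h
    exact hxy (by linear_combination -h)
  rw [qq_mkp g hx0 hx1, qq_mkp g hy0 hy1, qq_mkp g ha0 ha1, qq_mkp g hb0 hb1, qq_mkp g hc0 hc1]
  refine pp_five ⟨?_, ?_, ?_⟩ g
  · show y / x * x = y
    exact div_mul_cancel₀ _ hx0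
  · show y * (1 - x) / (x * (1 - y)) * (x * (y - 1)) = (x - 1) * y
    rw [div_mul_eq_mul_div, div_eq_iff (mul_ne_zero hx0 hy')]
    ring
  · show (1 - x) / (1 - y) * (1 - y) = 1 - x
    exact div_mul_cancel₀ _ hy'

/-- STEP 1 -/
theorem pp_co (s : Pt κ) : pp s s.co = 0 := by
  rcases finite_or_infinite κ with hfin | hinf
  · have := Fintype.ofFinite κˣ
    exact pp_tors s Fintype.card_pos pow_card_eq_one
  · have h1 : (1 - (s.1 : κ)) = (s.co : κ) := rfl
    set s' : Pt κ := ⟨s.co, by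
      rw [← h1, sub_sub_cancel]
      exact s.1.isUnit⟩ with hs'
    have h2 := five_co (qq s.co) (qq_five s.co) (s.1 : κ) s.1.ne_zero (pt_ne s)
    rw [qq_pt s.co s rfl, qq_pt s.co s' (t := 1 - (s.1 : κ)) rfl] at h2
    have h3 : pp s' s.co = 0 := pp_self s'
    rwa [h3, add_zero] at h2

end five

section val

variable {L : Type*} [Field L] (v : Valuation L ℤᵐ⁰)

theorem od_pos {g : Lˣ} : 0 < od v g ↔ v (g : L) < 1 := by
  rw [val_od, ← WithZero.exp_zero, WithZero.exp_lt_exp]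
  omega

theorem od_nonneg {g : Lˣ} : 0 ≤ od v g ↔ v (g : L) ≤ 1 := by
  rw [val_od, ← WithZero.exp_zero, WithZero.exp_le_exp]
  omega

theorem od_inv (g : Lˣ) : od v g⁻¹ = -od v g := by
  have h := od_zpow v g (-1)
  rw [zpow_neg_one] at h
  rw [h]
  ring

variable {v} {π : Lˣ} (hπ : v (π : L) = WithZero.exp (-1))

include hπ

theorem ub_inv (g : Lˣ) : ub v π g⁻¹ = (ub v π g)⁻¹ := map_inv (ubh hπ) g

theorem ub_neg : ub v π (-1 : Lˣ) ^ 2 = 1 := by
  have h := map_pow (ubh hπ) (-1 : Lˣ) 2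
  rw [neg_one_sq, map_one] at h
  exact h.symm

/-- an element with reduction 1 -/
theorem one_red {g : Lˣ} (h : v ((g : L) - 1) < 1) : od v g = 0 ∧ ub v π g = 1 := by
  have h1 : v (g : L) = 1 := by
    have h2 := Valuation.map_one_add_of_lt (v := v) h
    rwa [add_sub_cancel] at h2
  refine ⟨(od_eq_zero v).2 h1, ?_⟩
  set y : v.valuationSubring := ⟨_, (v.mem_valuationSubring_iff _).2 h1.le⟩ with hy
  refine ub_of_red hπ (x := y) ((od_eq_zero v).2 h1) rfl ?_
  have h8 : red v (y - 1) = 0 := by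
    by_contra h9
    rw [← Ne, red_ne_zero] at h9
    exact absurd h9 h.ne
  rw [red_sub, red_one, sub_eq_zero] at h8
  rw [h8, Units.val_one]

/-- the element and its complement reduce to units -/
theorem red_spec {f : Pt L} {u : Pt (Kap v)} (hu : Red v f u) :
    (od v f.1 = 0 ∧ ub v π f.1 = u.1) ∧ (od v f.co = 0 ∧ ub v π f.co = u.co) := by
  obtain ⟨x, hx, hx'⟩ := hu
  have h1 : v (f.1 : L) = 1 := by
    rw [← hx, ← red_ne_zero, hx']
    exact u.1.ne_zero
  have h2 : red v (1 - x) = (u.co : Kap v) := by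
    rw [red_sub, red_one, hx']
    rfl
  have h4 : ((1 - x : v.valuationSubring) : L) = (f.co : L) := by
    show (1 : L) - (x : L) = 1 - (f.1 : L)
    rw [hx]
  have h3 : v (f.co : L) = 1 := by
    rw [← h4, ← red_ne_zero, h2]
    exact u.co.ne_zero
  exact ⟨⟨(od_eq_zero v).2 h1, ub_of_red hπ ((od_eq_zero v).2 h1) hx hx'⟩,
    ⟨(od_eq_zero v).2 h3, ub_of_red hπ ((od_eq_zero v).2 h3) h4 h2⟩⟩

/-- the behaviour of `W` in terms of `X` -/
theorem xw {X W : Lˣ} {k : L} (hk : v k ≤ 1) (h1 : (X : L) + (X⁻¹ : Lˣ) - k = W) :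
    (0 < od v X → od v W = -od v X ∧ ub v π W = (ub v π X)⁻¹) ∧
    (od v X < 0 → od v W = od v X ∧ ub v π W = ub v π X) ∧ (od v X = 0 → 0 ≤ od v W) := by
  refine ⟨fun h => ?_, fun h => ?_, fun h => ?_⟩
  · have h2 : v (X : L) < 1 := (od_pos v).1 h
    have h3 : v (((X * W : Lˣ) : L) - 1) < 1 := by
      have h4 : ((X * W : Lˣ) : L) - 1 = X * (X - k) := by
        rw [Units.val_mul, ← h1]
        linear_combination X.mul_inv
      rw [h4, map_mul]
      exact mul_lt_one_of_lt_of_le h2 ((Valuation.map_sub v _ _).trans (max_le h2.le hk))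
    obtain ⟨h5, h6⟩ := one_red hπ h3
    rw [od_mul] at h5
    rw [ub_mul hπ] at h6
    exact ⟨by omega, (inv_eq_of_mul_eq_one_right h6).symm⟩
  · have h2 : v ((X⁻¹ : Lˣ) : L) < 1 := (od_pos v).1 (by rw [od_inv]; omega)
    have h3 : v (((X⁻¹ * W : Lˣ) : L) - 1) < 1 := by
      have h4 : ((X⁻¹ * W : Lˣ) : L) - 1 = (X⁻¹ : Lˣ) * ((X⁻¹ : Lˣ) - k) := by
        rw [Units.val_mul, ← h1]
        linear_combination X.inv_mul
      rw [h4, map_mul]
      exact mul_lt_one_of_lt_of_le h2 ((Valuation.map_sub v _ _).trans (max_le h2.le hk))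
    obtain ⟨h5, h6⟩ := one_red hπ h3
    rw [od_mul, od_inv] at h5
    rw [ub_mul hπ, ub_inv hπ] at h6
    exact ⟨by omega, (inv_mul_eq_one.1 h6).symm⟩
  · rw [od_nonneg, ← h1]
    have h2 : v (X : L) ≤ 1 := ((od_eq_zero v).1 h).le
    have h3 : v ((X⁻¹ : Lˣ) : L) ≤ 1 := ((od_eq_zero v).1 (by rw [od_inv, h, neg_zero])).le
    exact (Valuation.map_sub v _ _).trans (max_le ((Valuation.map_add v _ _).trans (max_le h2 h3)) hk)

/-- the terms `{-z/y}`, `{-yz}` -/
theorem term_f {X Y Z W : Lˣ} {k : L} (hk : v k ≤ 1) (h1 : (X : L) + (X⁻¹ : Lˣ) - k = W)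
    (h2 : (Y : L) + (Y⁻¹ : Lˣ) + Z + (Z⁻¹ : Lˣ) = -W) {u : Pt (Kap v)} {f : Pt L}
    (hf : f.1 = -1 * (Z * Y⁻¹)) (hu : Red v f u) :
    od v X • pp u (ub v π Y) - od v Y • pp u (ub v π X) = 0 := by
  obtain ⟨⟨a1, a2⟩, a3, a4⟩ := red_spec hπ hu
  obtain ⟨b1, b2, b3⟩ := xw hπ hk h1
  have hm : pp u (ub v π (-1 : Lˣ)) = 0 := pp_tors u (by norm_num : 0 < 2) (ub_neg hπ)
  have om : od v (-1 : Lˣ) = 0 := od_tors v (M := 2) (by norm_num) (neg_one_sq)
  -- the function
  rw [hf, od_mul, od_mul, od_inv, om] at a1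
  have c1 : od v Z = od v Y := by omega
  have c2 : pp u (ub v π Z) = pp u (ub v π Y) := by
    have h3 := pp_self u
    rw [← a2, hf, ub_mul hπ, ub_mul hπ, ub_inv hπ, pp_mul, pp_mul, pp_inv, hm, zero_add,
      ← sub_eq_add_neg, sub_eq_zero] at h3
    exact h3
  -- the complementary function
  obtain ⟨F, hF⟩ : ∃ F : Lˣ, F = f.co⁻¹ * (-1) * (Z * W) := ⟨_, rfl⟩
  have hFv : (F : L) = 1 + Y * Z := by
    have h3 : (f.co : L) * (1 + Y * Z) = -1 * (Z * W) := by
      have h4 : (f.co : L) = 1 + Z * (Y⁻¹ : Lˣ) := by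
        show 1 - (f.1 : L) = _
        rw [hf, Units.val_mul, Units.val_mul, Units.val_neg, Units.val_one]
        ring
      rw [h4]
      linear_combination (Z : L) * h2 + (Z : L) ^ 2 * Y.mul_inv - Z.mul_inv
    rw [hF, Units.val_mul, Units.val_mul, Units.val_mul, Units.val_neg, Units.val_one]
    have h5 := f.co.inv_mul
    linear_combination ((f.co⁻¹ : Lˣ) : L) * (-h3) + (1 + (Y : L) * Z) * h5
  have d1 : od v F = od v Y + od v W := by
    rw [hF, od_mul, od_mul, od_mul, od_inv, a3, om, c1]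
    ring
  have d2 : pp u (ub v π F) = pp u (ub v π Y) + pp u (ub v π W) := by
    rw [hF, ub_mul hπ, ub_mul hπ, ub_mul hπ, ub_inv hπ, a4, pp_mul, pp_mul, pp_mul, pp_inv, hm,
      pp_co, c2]
    abel
  -- the cases
  rcases lt_trichotomy (od v Y) 0 with hb | hb | hb
  · have e1 : v (((F * (Y * Z)⁻¹ : Lˣ) : L) - 1) < 1 := by
      have h4 : ((F * (Y * Z)⁻¹ : Lˣ) : L) - 1 = (((Y * Z)⁻¹ : Lˣ) : L) := by
        have h5 := (Y * Z).mul_inv
        rw [Units.val_mul] at h5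
        rw [Units.val_mul, hFv]
        linear_combination h5
      rw [h4, ← od_pos, od_inv, od_mul]
      omega
    obtain ⟨e2, e3⟩ := one_red hπ e1
    rw [od_mul, od_inv, od_mul, d1, c1] at e2
    have e4 := congrArg (pp u) e3
    rw [ub_mul hπ, ub_inv hπ, ub_mul hπ, pp_mul, pp_inv, pp_mul, d2, c2, pp_one] at e4
    rcases lt_trichotomy (od v X) 0 with ha | ha | ha
    · obtain ⟨g1, g2⟩ := b2 ha
      have e5 : od v X = od v Y := by omega
      rw [g2] at e4
      rw [e5, ← smul_sub]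
      have e6 : pp u (ub v π Y) - pp u (ub v π X) = 0 := by
        rw [← neg_eq_zero, ← e4]
        abel
      rw [e6, smul_zero]
    · have := b3 ha
      omega
    · obtain ⟨g1, g2⟩ := b1 ha
      have e5 : od v X = -od v Y := by omega
      rw [g2, pp_inv] at e4
      rw [e5, neg_smul, ← neg_add', ← smul_add]
      have e6 : pp u (ub v π Y) + pp u (ub v π X) = 0 := by
        rw [← neg_eq_zero, ← e4]
        abel
      rw [e6, smul_zero, neg_zero]
  · have e1 : v (W : L) ≤ 1 := by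
      rw [← Valuation.map_neg, ← h2]
      have g1 : v (Y : L) ≤ 1 := ((od_eq_zero v).1 hb).le
      have g2 : v ((Y⁻¹ : Lˣ) : L) ≤ 1 := ((od_eq_zero v).1 (by rw [od_inv, hb, neg_zero])).le
      have g3 : v (Z : L) ≤ 1 := ((od_eq_zero v).1 (by omega)).le
      have g4 : v ((Z⁻¹ : Lˣ) : L) ≤ 1 := ((od_eq_zero v).1 (by rw [od_inv]; omega)).le
      exact (Valuation.map_add v _ _).trans (max_le ((Valuation.map_add v _ _).trans
        (max_le ((Valuation.map_add v _ _).trans (max_le g1 g2)) g3)) g4)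
    rw [← od_nonneg] at e1
    have e2 : od v X = 0 := by
      rcases lt_trichotomy (od v X) 0 with ha | ha | ha
      · have := (b2 ha).1
        omega
      · exact ha
      · have := (b1 ha).1
        omega
    rw [e2, hb, zero_smul, zero_smul, sub_zero]
  · have e1 : v ((F : L) - 1) < 1 := by
      have h4 : (F : L) - 1 = ((Y * Z : Lˣ) : L) := by
        rw [hFv, Units.val_mul]
        ring
      rw [h4, ← od_pos, od_mul]
      omega
    obtain ⟨e2, e3⟩ := one_red hπ e1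
    rw [d1] at e2
    have e4 := congrArg (pp u) e3
    rw [d2, pp_one] at e4
    rcases lt_trichotomy (od v X) 0 with ha | ha | ha
    · obtain ⟨g1, g2⟩ := b2 ha
      have e5 : od v X = -od v Y := by omega
      rw [g2] at e4
      rw [e5, neg_smul, ← neg_add', ← smul_add, e4, smul_zero, neg_zero]
    · have := b3 ha
      omega
    · obtain ⟨g1, g2⟩ := b1 ha
      have e5 : od v X = od v Y := by omega
      rw [g2, pp_inv, ← sub_eq_add_neg] at e4
      rw [e5, ← smul_sub, e4, smul_zero]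

omit hπ in
theorem pair_aux {f g : Lˣ} (hp : v (((1 - (f : L)) * (1 - ((f⁻¹ : Lˣ) : L))) *
    ((1 - (g : L)) * (1 - ((g⁻¹ : Lˣ) : L)))) ≤ 1) (hg : v (g : L) ≠ 1) :
    v ((f : L) - 1) < 1 := by
  by_contra hcon
  rw [map_mul] at hp
  refine absurd hp (not_le.2 ?_)
  refine lt_of_lt_of_le (one_lt_val_pair v hg) (le_mul_of_one_le_left' ?_)
  by_cases hf : v (f : L) = 1
  · refine (val_pair_eq_one v hf (le_antisymm ?_ ?_)).ge
    · exact (Valuation.map_sub v _ _).trans (max_le v.map_one.le hf.le)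
    · rw [Valuation.map_sub_swap]
      exact not_lt.1 hcon
  · exact (one_lt_val_pair v hf).le

/-- the terms `{x/ζ}`, `{xζ}` -/
theorem term_x {X Y Z W : Lˣ} {k : L} (hk : v k ≤ 1) (h1 : (X : L) + (X⁻¹ : Lˣ) - k = W)
    (h2 : (Y : L) + (Y⁻¹ : Lˣ) + Z + (Z⁻¹ : Lˣ) = -W) (ha : od v X = 0) (u : Pt (Kap v)) :
    od v Y • pp u (ub v π Z) - od v Z • pp u (ub v π Y) = 0 := by
  have hW : v (W : L) ≤ 1 := (od_nonneg v).1 ((xw hπ hk h1).2.2 ha)
  have hm : pp u (ub v π (-1 : Lˣ)) = 0 := pp_tors u (by norm_num : 0 < 2) (ub_neg hπ)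
  have om : od v (-1 : Lˣ) = 0 := od_tors v (M := 2) (by norm_num) (neg_one_sq)
  obtain ⟨f, hf⟩ : ∃ f : Lˣ, f = -1 * (Z * Y⁻¹) := ⟨_, rfl⟩
  obtain ⟨g, hg⟩ : ∃ g : Lˣ, g = -1 * (Y * Z) := ⟨_, rfl⟩
  have hp : v (((1 - (f : L)) * (1 - ((f⁻¹ : Lˣ) : L))) *
      ((1 - (g : L)) * (1 - ((g⁻¹ : Lˣ) : L)))) ≤ 1 := by
    have h3 : ((1 - (f : L)) * (1 - ((f⁻¹ : Lˣ) : L))) *
        ((1 - (g : L)) * (1 - ((g⁻¹ : Lˣ) : L))) = (W : L) ^ 2 := by
      have hY := Y.ne_zero
      have hZ := Z.ne_zero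
      have h4 : (W : L) = -((Y : L) + (Y : L)⁻¹ + Z + (Z : L)⁻¹) := by
        rw [← Units.val_inv_eq_inv_val, ← Units.val_inv_eq_inv_val, h2, neg_neg]
      rw [h4, hf, hg]
      simp only [Units.val_mul, Units.val_inv_eq_inv_val, Units.val_neg, Units.val_one]
      field_simp
      ring
    rw [h3, map_pow]
    exact pow_le_one' hW 2
  have k1 : ∀ (w : Lˣ), v ((w : L) - 1) < 1 → od v w = 0 ∧ pp u (ub v π w) = 0 := by
    intro w hw
    obtain ⟨k1, k2⟩ := one_red hπ hw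
    exact ⟨k1, by rw [k2, pp_one]⟩
  have kf : od v f = 0 ∧ pp u (ub v π f) = 0 →
      od v Y • pp u (ub v π Z) - od v Z • pp u (ub v π Y) = 0 := by
    rintro ⟨a1, a2⟩
    rw [hf, od_mul, od_mul, od_inv, om] at a1
    rw [hf, ub_mul hπ, ub_mul hπ, ub_inv hπ, pp_mul, pp_mul, pp_inv, hm, zero_add,
      ← sub_eq_add_neg, sub_eq_zero] at a2
    have e5 : od v Z = od v Y := by omega
    rw [e5, a2, sub_self]
  have kg : od v g = 0 ∧ pp u (ub v π g) = 0 →
      od v Y • pp u (ub v π Z) - od v Z • pp u (ub v π Y) = 0 := by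
    rintro ⟨a1, a2⟩
    rw [hg, od_mul, od_mul, om] at a1
    rw [hg, ub_mul hπ, ub_mul hπ, pp_mul, pp_mul, hm, zero_add] at a2
    have e5 : od v Z = -od v Y := by omega
    rw [e5, neg_smul, sub_neg_eq_add, ← smul_add, add_comm, a2, smul_zero]
  by_cases h3 : v (f : L) = 1
  · by_cases h4 : v (g : L) = 1
    · rw [← od_eq_zero, hf, od_mul, od_mul, od_inv, om] at h3
      rw [← od_eq_zero, hg, od_mul, od_mul, om] at h4
      have e5 : od v Z = 0 := by omega
      have e6 : od v Y = 0 := by omega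
      rw [e5, e6, zero_smul, zero_smul, sub_zero]
    · exact kf (k1 f (pair_aux hp h4))
  · exact kg (k1 g (pair_aux (by rw [mul_comm]; exact hp) h3))

omit hπ in
/-- the residue of a generator -/
theorem bnd_br {f : Pt L} {g0 g1 : Lˣ} (h : ∀ u : Pt (Kap v), Red v f u →
    od v g0 • pp u (ub v π g1) - od v g1 • pp u (ub v π g0) = 0) :
    bnd v π (br f ![g0, g1]) ∈ Rels (Kap v) 1 := by
  unfold bnd br
  rw [Finsupp.linearCombination_single, one_smul]
  simp only []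
  split_ifs with hh
  · have h1 := h hh.choose hh.choose_spec
    set u := hh.choose with hu
    rw [Fin.sum_univ_two]
    have e0 : (fun k : Fin 1 => ub v π (![g0, g1] ((0 : Fin 2).succAbove k))) =
        ![ub v π g1] := by
      funext k
      fin_cases k
      rfl
    have e1 : (fun k : Fin 1 => ub v π (![g0, g1] ((1 : Fin 2).succAbove k))) =
        ![ub v π g0] := by
      funext k
      fin_cases k
      rfl
    rw [e0, e1]
    have e2 : ((-1 : ℚ) ^ ((0 : Fin 2) : ℕ) * (od v (![g0, g1] 0) : ℚ)) = ((od v g0 : ℤ) : ℚ) := by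
      simp
    have e3 : ((-1 : ℚ) ^ ((1 : Fin 2) : ℕ) * (od v (![g0, g1] 1) : ℚ)) = -((od v g1 : ℤ) : ℚ) := by
      simp
    rw [e2, e3, ← Submodule.Quotient.mk_eq_zero, ← h1, neg_smul, ← sub_eq_add_neg,
      Submodule.Quotient.mk_sub, Submodule.Quotient.mk_smul, Submodule.Quotient.mk_smul,
      Int.cast_smul_eq_zsmul, Int.cast_smul_eq_zsmul]
    rfl
  · exact Submodule.zero_mem _

end val

theorem map_br {A B : Type*} [CommRing A] [CommRing B] (φ : A →+* B) (f : Pt A) (a b : Aˣ) :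
    FS.map φ (br f ![a, b]) =
      br (f.map φ) ![Units.map (φ : A →* B) a, Units.map (φ : A →* B) b] := by
  unfold br FS.map
  rw [Finsupp.lmapDomain_apply, Finsupp.mapDomain_single]
  congr 2
  funext i
  fin_cases i <;> rfl

theorem bnd_map_br {A L : Type*} [CommRing A] [Field L] (φ : A →+* L) {m : Aˣ →* Lˣ}
    (hm : m = Units.map (φ : A →* L)) {v : Valuation L ℤᵐ⁰} {π : Lˣ} {f : Pt A} {a b : Aˣ}
    (h : ∀ u : Pt (Kap v), Red v (f.map φ) u →
      od v (m a) • pp u (ub v π (m b)) - od v (m b) • pp u (ub v π (m a)) = 0) :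
    bnd v π (FS.map φ (br f ![a, b])) ∈ Rels (Kap v) 1 := by
  subst hm
  rw [map_br]
  exact bnd_br h

theorem s_res : S_RES := by
  intro K _ c ⟨N, hN, hc⟩ L _ φ v ϖ hϖ
  obtain ⟨m, hm⟩ : ∃ m : (Srf c)ˣ →* Lˣ, m = Units.map (φ : Srf c →* L) := ⟨_, rfl⟩
  have hmv : ∀ g : (Srf c)ˣ, (m g : L) = φ (g : Srf c) := by
    intro g
    rw [hm]
    rfl
  have t1 : m (uc c c) ^ N = 1 := by
    rw [← map_pow, uc_pow, hc, uc_one, map_one]
  have t2 : m (uc c c⁻¹) ^ N = 1 := by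
    rw [← map_pow, uc_pow, inv_pow, hc, inv_one, uc_one, map_one]
  have hk : v (φ (cst c (EK.tr c))) ≤ 1 := by
    rw [← uc_add, map_add, ← hmv, ← hmv]
    refine (Valuation.map_add v _ _).trans (max_le ?_ ?_)
    · refine (val_torsion v hN ?_).le
      rw [← Units.val_pow_eq_pow_val, t1, Units.val_one]
    · refine (val_torsion v hN ?_).le
      rw [← Units.val_pow_eq_pow_val, t2, Units.val_one]
  have h1 : ((m (cx c) : Lˣ) : L) + ((m (cx c))⁻¹ : Lˣ) - φ (cst c (EK.tr c)) = m (cw c) := by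
    rw [← map_inv, hmv, hmv, hmv, ← rel_x, map_sub, map_add]
  have h2 : ((m (cy c) : Lˣ) : L) + ((m (cy c))⁻¹ : Lˣ) + m (cz c) + ((m (cz c))⁻¹ : Lˣ) =
      -(m (cw c) : L) := by
    rw [← map_inv, ← map_inv, hmv, hmv, hmv, hmv, hmv, ← map_neg, ← rel_y, map_add, map_add,
      map_add]
  have hn : m (uc c (-1)) = -1 := by
    ext1
    rw [hmv, uc_neg_one, map_neg, map_one, Units.val_neg, Units.val_one]
  have key : bnd v ϖ (FS.map φ (xi c)) = bnd v ϖ (FS.map φ (br (px c) ![cy c, cz c])) +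
      bnd v ϖ (FS.map φ (br (qx c) ![cy c, cz c])) -
      bnd v ϖ (FS.map φ (br (pf c) ![cx c, cy c])) -
      bnd v ϖ (FS.map φ (br (qf c) ![cx c, cy c])) := by
    unfold xi
    simp only [map_sub, map_add]
  rw [key]
  refine Submodule.sub_mem _ (Submodule.sub_mem _ (Submodule.add_mem _ ?_ ?_) ?_) ?_
  · refine bnd_map_br φ hm fun u hu => term_x hϖ hk h1 h2 ?_ u
    have h3 := (red_spec hϖ hu).1.1
    have h4 : ((px c).map φ).1 = m (uc c c⁻¹) * m (cx c) := by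
      rw [← map_mul, hm]
      rfl
    rw [h4, od_mul, od_tors v hN t2, zero_add] at h3
    exact h3
  · refine bnd_map_br φ hm fun u hu => term_x hϖ hk h1 h2 ?_ u
    have h3 := (red_spec hϖ hu).1.1
    have h4 : ((qx c).map φ).1 = m (uc c c) * m (cx c) := by
      rw [← map_mul, hm]
      rfl
    rw [h4, od_mul, od_tors v hN t1, zero_add] at h3
    exact h3
  · refine bnd_map_br φ hm fun u hu => term_f hϖ hk h1 h2 ?_ hu
    rw [← hn, ← map_inv, ← map_mul, ← map_mul, hm]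
    rfl
  · refine bnd_map_br φ hm fun u hu => ?_
    have h3 : (((m (cy c))⁻¹ : Lˣ) : L) + (((m (cy c))⁻¹)⁻¹ : Lˣ) + m (cz c) +
        ((m (cz c))⁻¹ : Lˣ) = -(m (cw c) : L) := by
      rw [inv_inv, add_comm (((m (cy c))⁻¹ : Lˣ) : L)]
      exact h2
    have h4 := term_f hϖ hk h1 h3 (f := (qf c).map φ) (by
      rw [← hn, inv_inv, mul_comm (m (cz c)), ← map_mul, ← map_mul, hm]
      rfl) hu
    rw [od_inv, ub_inv hϖ, pp_inv] at h4
    rw [← neg_eq_zero, ← h4]
    module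

end Pool.Agent.P8H1.KS.R
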