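import Pool.Agent.P8H1.KS.Stm
set_option autoImplicit false

/-!
Package SGN of the project KS: the sign and the monotonicity of the primitive (written by helper76).
-/

namespace Pool.Agent.P8H1.KS

open Real Set
open Pool.Agent.N65.TK (Dc Ls hasDerivAt_Dc sin_half_pos)
open Pool.Agent.P8H1.EK (Dc_neg continuous_Dc)

theorem Dc_add_two_pi (θ : ℝ) : Dc (θ + 2 * π) = Dc θ := by
  unfold Dc
  congr 1
  rw [Complex.exp_eq_exp_iff_exists_int]
  exact ⟨1, by push_cast; ring⟩

theorem Dc_sub_int (n : ℤ) (θ : ℝ) : Dc (θ - n * (2 * π)) = Dc θ := by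
  unfold Dc
  congr 1
  rw [Complex.exp_eq_exp_iff_exists_int]
  exact ⟨-n, by push_cast; ring⟩

/-- the derivative at all points which are not multiples of `2π` -/
theorem hasDerivAt_Dc' {θ : ℝ} (h : Real.sin (θ / 2) ≠ 0) : HasDerivAt Dc (-Real.log (2 * Real.sin (θ / 2))) θ := by
  have hpi := Real.two_pi_pos
  set n : ℤ := ⌊θ / (2 * π)⌋ with hn
  have h1 : 0 ≤ θ - n * (2 * π) := by
    have := Int.floor_le (θ / (2 * π))
    rw [le_div_iff₀ hpi] at this
    linarith
  have h2 : θ - n * (2 * π) < 2 * π := by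
    have := Int.lt_floor_add_one (θ / (2 * π))
    rw [div_lt_iff₀ hpi] at this
    linarith
  have hs : Real.sin ((θ - n * (2 * π)) / 2) = (-1) ^ n * Real.sin (θ / 2) := by
    have e : (θ - n * (2 * π)) / 2 = θ / 2 - n * π := by ring
    rw [e, Real.sin_sub_int_mul_pi]
  have h3 : 0 < θ - n * (2 * π) := by
    refine lt_of_le_of_ne h1 fun h0 => ?_
    rw [← h0, zero_div, Real.sin_zero] at hs
    have h4 : ((-1 : ℝ) ^ n) ≠ 0 := zpow_ne_zero _ (by norm_num)
    exact (mul_ne_zero h4 h) hs.symm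
  have h4 := (hasDerivAt_Dc h3 h2).comp_sub_const θ (n * (2 * π))
  have e1 : (fun x => Dc (x - n * (2 * π))) = Dc := funext fun x => Dc_sub_int n x
  rw [e1] at h4
  refine h4.congr_deriv ?_
  unfold Ls
  rw [hs, neg_inj, ← Real.log_abs, ← Real.log_abs (2 * Real.sin (θ / 2)), abs_mul, abs_mul, abs_mul, abs_zpow, abs_neg,
    abs_one, one_zpow, one_mul]

theorem continuous_Gc (b : ℝ) : Continuous (Gc b) := by
  unfold Gc
  exact (continuous_Dc.comp (by fun_prop)).add (continuous_Dc.comp (by fun_prop))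

theorem four_cos (s b : ℝ) : (2 * Real.sin ((π - s - b) / 2)) * (2 * Real.sin ((π - s + b) / 2)) =
    2 * Real.cos s + 2 * Real.cos b := by
  have e1 : Real.sin ((π - s - b) / 2) = Real.cos ((s + b) / 2) := by
    rw [← Real.cos_pi_div_two_sub]; congr 1; ring
  have e2 : Real.sin ((π - s + b) / 2) = Real.cos ((s - b) / 2) := by
    rw [← Real.cos_pi_div_two_sub]; congr 1; ring
  have e3 := Real.cos_add_cos s b
  rw [e1, e2]
  linarith

theorem hasDerivAt_Gc {b s : ℝ} (h : 2 * Real.cos s + 2 * Real.cos b ≠ 0) :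
    HasDerivAt (Gc b) (Real.log |2 * Real.cos s + 2 * Real.cos b|) s := by
  have h0 := h
  rw [← four_cos] at h0
  have h1 : Real.sin ((π - s - b) / 2) ≠ 0 := fun h' => h0 (by rw [h']; ring)
  have h2 : Real.sin ((π - s + b) / 2) ≠ 0 := fun h' => h0 (by rw [h']; ring)
  have d1 : HasDerivAt (fun x : ℝ => π - x - b) (-1) s := by
    simpa using ((hasDerivAt_id s).const_sub π).sub_const b
  have d2 : HasDerivAt (fun x : ℝ => π - x + b) (-1) s := by
    simpa using ((hasDerivAt_id s).const_sub π).add_const b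
  have h3 := ((hasDerivAt_Dc' h1).comp s d1).add ((hasDerivAt_Dc' h2).comp s d2)
  refine h3.congr_deriv ?_
  have e : Real.log |2 * Real.cos s + 2 * Real.cos b| = Real.log (2 * Real.sin ((π - s - b) / 2)) +
      Real.log (2 * Real.sin ((π - s + b) / 2)) := by
    rw [← four_cos, Real.log_abs]
    exact Real.log_mul (mul_ne_zero two_ne_zero h1) (mul_ne_zero two_ne_zero h2)
  rw [e]
  ring

theorem ca_mem (b T : ℝ) : 0 ≤ ca b T ∧ ca b T ≤ π := ⟨Real.arccos_nonneg _, Real.arccos_le_pi _⟩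

theorem ca_anti (b : ℝ) {T₁ T₂ : ℝ} (h : T₁ ≤ T₂) : ca b T₂ ≤ ca b T₁ :=
  Real.antitone_arccos (by linarith)

theorem cos_lt_of {x s : ℝ} (h0 : 0 ≤ s) (h1 : s ≤ π) (h : Real.arccos x < s) : Real.cos s < x := by
  by_contra h2
  rw [not_lt] at h2
  have h3 := Real.antitone_arccos h2
  rw [Real.arccos_cos h0 h1] at h3
  linarith

theorem lt_cos_of {x s : ℝ} (h0 : 0 ≤ s) (h1 : s ≤ π) (h : s < Real.arccos x) : x < Real.cos s := by
  by_contra h2
  rw [not_lt] at h2
  have h3 := Real.antitone_arccos h2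
  rw [Real.arccos_cos h0 h1] at h3
  linarith

/-- the auxiliary function -/
noncomputable def ph (b T s : ℝ) : ℝ := Gc b s - s * Real.log T

theorem ph_anti_aux {b T u v : ℝ} (hu : 0 ≤ u) (hv : v ≤ π) (h1 : ca b T ≤ u) (h2 : v ≤ ca b (-T))
    (hne : ∀ s, u < s → s < v → 2 * Real.cos s + 2 * Real.cos b ≠ 0) : StrictAntiOn (ph b T) (Icc u v) := by
  refine strictAntiOn_of_hasDerivWithinAt_neg (convex_Icc u v)
    (f' := fun s => Real.log |2 * Real.cos s + 2 * Real.cos b| - Real.log T) ?_ ?_ ?_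
  · exact ((continuous_Gc b).sub (continuous_id.mul continuous_const)).continuousOn
  · intro s hs
    rw [interior_Icc] at hs
    have h3 := (hasDerivAt_Gc (hne s hs.1 hs.2)).sub ((hasDerivAt_id s).mul_const (Real.log T))
    rw [one_mul] at h3
    exact h3.hasDerivWithinAt
  · intro s hs
    rw [interior_Icc] at hs
    have h3 := hne s hs.1 hs.2
    have h4 : Real.cos s < (T - 2 * Real.cos b) / 2 :=
      cos_lt_of (hu.trans hs.1.le) (hs.2.le.trans hv) (lt_of_le_of_lt h1 hs.1)
    have h5 : (-T - 2 * Real.cos b) / 2 < Real.cos s :=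
      lt_cos_of (hu.trans hs.1.le) (hs.2.le.trans hv) (lt_of_lt_of_le hs.2 h2)
    have h6 : |2 * Real.cos s + 2 * Real.cos b| < T := by
      rw [abs_lt]
      constructor <;> linarith
    have h7 := Real.log_lt_log (abs_pos.2 h3) h6
    linarith

theorem ph_anti {b T : ℝ} (hT : 0 < T) : StrictAntiOn (ph b T) (Icc (ca b T) (ca b (-T))) := by
  set m := Real.arccos (-Real.cos b) with hm
  have hb1 := Real.neg_one_le_cos b
  have hb2 := Real.cos_le_one b
  have hcm : Real.cos m = -Real.cos b := Real.cos_arccos (by linarith) (by linarith)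
  have hm1 : ca b T ≤ m := Real.antitone_arccos (by linarith)
  have hm2 : m ≤ ca b (-T) := Real.antitone_arccos (by linarith)
  have hm0 : 0 ≤ m := Real.arccos_nonneg _
  have hmp : m ≤ π := Real.arccos_le_pi _
  have hA : StrictAntiOn (ph b T) (Icc (ca b T) m) := by
    refine ph_anti_aux (ca_mem b T).1 hmp le_rfl hm2 fun s hs1 hs2 h => ?_
    have h3 := lt_cos_of ((ca_mem b T).1.trans hs1.le) (hs2.le.trans hmp) hs2
    linarith
  have hB : StrictAntiOn (ph b T) (Icc m (ca b (-T))) := by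
    refine ph_anti_aux hm0 (ca_mem b (-T)).2 hm1 le_rfl fun s hs1 hs2 h => ?_
    have h3 := cos_lt_of (hm0.trans hs1.le) (hs2.le.trans (ca_mem b (-T)).2) hs1
    linarith
  have h2 := hA.union hB (c := m) ⟨⟨hm1, le_rfl⟩, fun x hx => hx.2⟩ ⟨⟨le_rfl, hm2⟩, fun x hx => hx.1⟩
  rwa [Icc_union_Icc_eq_Icc hm1 hm2] at h2

theorem ca_lt {b T : ℝ} (hT : 0 < T) : ca b T < ca b (-T) := by
  have hb1 := Real.neg_one_le_cos b
  have hb2 := Real.cos_le_one b
  set m := Real.arccos (-Real.cos b) with hm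
  have hcm : Real.cos m = -Real.cos b := Real.cos_arccos (by linarith) (by linarith)
  have hm1 : ca b T ≤ m := Real.antitone_arccos (by linarith)
  have hm2 : m ≤ ca b (-T) := Real.antitone_arccos (by linarith)
  refine lt_of_le_of_ne (hm1.trans hm2) fun h => ?_
  have e1 : ca b T = m := le_antisymm hm1 (by rw [h]; exact hm2)
  have e2 : ca b (-T) = m := by rw [← h, e1]
  -- if the cosine of b is at most 0 then the lower truncation is not active, else the upper one
  rcases le_total (Real.cos b) 0 with hc | hc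
  · -- look at the point with `-T`, `-cos b ≥ 0`
    have h3 : m < π := by
      rw [hm, ← Real.arccos_neg_one]
      exact Real.strictAntiOn_arccos ⟨le_rfl, by norm_num⟩ ⟨by linarith, by linarith⟩ (by linarith)
    have h4 := cos_lt_of (x := -Real.cos b) (s := m) (Real.arccos_nonneg _) h3.le
    by_cases h5 : -1 ≤ (-T - 2 * Real.cos b) / 2
    · have h6 : m < ca b (-T) :=
        Real.strictAntiOn_arccos ⟨h5, by linarith⟩ ⟨by linarith, by linarith⟩ (by linarith)
      linarith
    · have h6 : ca b (-T) = π := Real.arccos_of_le_neg_one (by linarith)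
      linarith
  · have h3 : 0 < m := by
      rw [hm, Real.arccos_pos]
      linarith
    by_cases h5 : (T - 2 * Real.cos b) / 2 ≤ 1
    · have h6 : ca b T < m :=
        Real.strictAntiOn_arccos ⟨by linarith, by linarith⟩ ⟨by linarith, h5⟩ (by linarith)
      linarith
    · have h6 : ca b T = 0 := Real.arccos_of_one_le (by linarith)
      linarith

theorem gc_sub {b T : ℝ} (hT : 0 < T) : gc b T - gc b (-T) = ph b T (ca b (-T)) - ph b T (ca b T) := by
  unfold gc ph
  rw [abs_neg, abs_of_pos hT]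
  ring

theorem s_sgn : S_SGN := by
  refine ⟨fun b T => ?_, fun b T hT => ?_, fun b T₁ T₂ h2 h12 => ?_⟩
  · have e1 : ca (b + π) T = π - ca b (-T) := by
      unfold ca
      rw [← Real.arccos_neg, Real.cos_add_pi]
      congr 1
      ring
    have e2 : ∀ s, Gc (b + π) (π - s) = -Gc b s := by
      intro s
      unfold Gc
      have a1 : Dc (π - (π - s) - (b + π)) = -Dc (π - s + b) := by
        rw [← Dc_neg]
        congr 1
        ring
      have a2 : Dc (π - (π - s) + (b + π)) = -Dc (π - s - b) := by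
        rw [← Dc_neg, ← Dc_add_two_pi (-(π - s - b))]
        congr 1
        ring
      rw [a1, a2]
      ring
    unfold gc
    rw [e1, e2, abs_neg]
    ring
  · rw [gc_sub hT]
    have := ph_anti (b := b) hT ⟨le_rfl, (ca_lt hT).le⟩ ⟨(ca_lt hT).le, le_rfl⟩ (ca_lt hT)
    linarith
  · have h1 : 0 < T₁ := h2.trans h12
    rw [gc_sub h1, gc_sub h2]
    have a1 : ca b T₁ ≤ ca b T₂ := ca_anti b h12.le
    have a2 : ca b (-T₂) ≤ ca b (-T₁) := ca_anti b (by linarith)
    have a3 : ca b T₂ < ca b (-T₂) := ca_lt h2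
    have hanti := (ph_anti (b := b) h1).antitoneOn
    have b1 : ph b T₁ (ca b (-T₁)) ≤ ph b T₁ (ca b (-T₂)) :=
      hanti ⟨a1.trans a3.le, a2⟩ ⟨(ca_lt h1).le, le_rfl⟩ a2
    have b2 : ph b T₁ (ca b T₂) ≤ ph b T₁ (ca b T₁) :=
      hanti ⟨le_rfl, (ca_lt h1).le⟩ ⟨a1, a3.le.trans a2⟩ a1
    have b3 : 0 < (ca b (-T₂) - ca b T₂) * (Real.log T₁ - Real.log T₂) :=
      mul_pos (by linarith) (by linarith [Real.log_lt_log h2 h12])
    unfold ph at b1 b2 ⊢
    nlinarith [b1, b2, b3]

end Pool.Agent.P8H1.KS
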