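import Pool.Agent.P8H1.KS.Lim
import Pool.Agent.P8H1.KS.Limc
import Pool.Agent.P8H1.KS.Eval
import Pool.Agent.P8H1.KS.Neg
import Pool.Agent.P8H1.KS.Res
import Pool.Agent.P8H1.KS.Sgn
set_option autoImplicit false

/-!
The torus with nonzero regulator, unconditionally.
-/

namespace Pool.Agent.P8H1.KS

open Pool.Agent.P8H1.PD (FS Tor Rels)
open Pool.Agent.P8H1.EK (tr)

variable {K : Type*} [Field K] (c : Kˣ) (σ : K →+* ℂ)

/-- The value of `tr c = c + 1/c` under an embedding is a real number of absolute value less than two,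
and different from zero, if `c` is a root of unity with `c^4 ≠ 1`. -/
theorem tr_real (hc : ∃ N : ℕ, 0 < N ∧ c ^ N = 1) (h4 : c ^ 4 ≠ 1) :
    ∃ k : ℝ, σ (tr c) = k ∧ |k| < 2 ∧ k ≠ 0 := by
  have hz := Pool.Agent.N65.TK.norm_root σ hc
  have hz0 : (σ c : ℂ) ≠ 0 := norm_ne_zero_iff.1 (by rw [hz]; exact one_ne_zero)
  have h1 : σ (tr c) = σ c + (σ c)⁻¹ := by
    unfold tr
    rw [map_add, Units.val_inv_eq_inv_val, map_inv₀]
  have h2 : (σ c)⁻¹ = (starRingEnd ℂ) (σ c) := by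
    rw [Complex.inv_def, Complex.normSq_eq_norm_sq, hz]
    simp
  have h3 : σ (tr c) = ((2 * (σ c).re : ℝ) : ℂ) := by
    rw [h1, h2, Complex.add_conj]
  have h5 : (σ c).re ^ 2 + (σ c).im ^ 2 = 1 := by
    have := Complex.sq_norm (σ c)
    rw [hz, Complex.normSq_apply] at this
    nlinarith
  have h6 : (σ c) ^ 4 ≠ 1 := by
    intro h
    apply h4
    ext
    apply σ.injective
    rw [Units.val_pow_eq_pow_val, map_pow, h, Units.val_one, map_one]
  refine ⟨2 * (σ c).re, h3, ?_, ?_⟩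
  · have h7 : (σ c).im ≠ 0 := by
      intro h
      apply h6
      have h8 : σ c = (((σ c).re : ℝ) : ℂ) := Complex.ext (by simp) (by simpa using h)
      rw [h] at h5
      have h9 : (σ c).re ^ 2 = 1 := by linarith
      rw [h8]
      have h10 : ((σ c).re) ^ 4 = 1 := by nlinarith
      exact_mod_cast h10
    have h8 : 0 < (σ c).im ^ 2 := by positivity
    rw [abs_lt]
    constructor <;> nlinarith
  · intro h
    apply h6
    have h7 : (σ c).re = 0 := by linarith
    have h8 : σ c = (((σ c).im : ℝ) : ℂ) * Complex.I :=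
      Complex.ext (by simpa using h7) (by simp)
    rw [h7] at h5
    have h9 : (σ c).im ^ 2 = 1 := by linarith
    have h10 : (σ c).im ^ 4 = 1 := by nlinarith
    rw [h8, mul_pow, Complex.I_pow_four, mul_one]
    exact_mod_cast h10

/-- For every embedding there is a torus with nonzero regulator. -/
theorem exists_torus (hc : ∃ N : ℕ, 0 < N ∧ c ^ N = 1) (h4 : c ^ 4 ≠ 1) :
    ∃ γ : Tor (Srf c) 2, (∀ t a, γ.e t (cst c a) = σ a) ∧ (∀ s ∈ Rels (Srf c) 2, γ.reg s = 0) ∧
      γ.reg (xi c) * (σ (tr c)).re < 0 := by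
  obtain ⟨k, h1, h2, h3⟩ := tr_real c σ hc h4
  obtain ⟨e, he, h5⟩ := exists_tor c σ h1 h2 hc s_eval s_limc s_lw s_ae s_sgn s_neg h3
  refine ⟨tor c σ h1 h2 he, fun t a => tor_cst c σ h1 h2 he t a, fun s hs => Tor.reg_of_mem _ hs, ?_⟩
  rw [h1, Complex.ofReal_re]
  exact h5

end Pool.Agent.P8H1.KS
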