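import Pool.Agent.P8H1.KS.Crd
import Pool.Agent.N65.TK.Defs
set_option autoImplicit false

/-!
The integrand of the regulator on the torus, after integration by parts.
-/

namespace Pool.Agent.P8H1.KS

open Real
open Pool.Agent.N65.TK (D)

/-- the logarithmic derivative of `x` -/
noncomputable def Xd (e a : ℝ) : ℂ := (2 * π : ℝ) * (Complex.I * ad e a)

/-- the derivative of `Z` -/
noncomputable def Zd (e a : ℝ) : ℂ := (2 * π : ℝ) * (2 * Complex.sin (an e a) * ad e a)

/-- the function `w` -/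
noncomputable def wf (k e a : ℝ) : ℂ := Ce e a - (k : ℂ)

/-- the logarithmic derivative of `x w` -/
noncomputable def Vx (k e a : ℝ) : ℂ := Xd e a - Zd e a / wf k e a

/-- `log |x w|` -/
noncomputable def Lw (k e a : ℝ) : ℝ := -(e * Real.sin a) + Real.log ‖wf k e a‖

/-- the derivative of `D(x / ζ) + D(x ζ)` -/
noncomputable def Ax (k e a : ℝ) : ℝ := -(e * Real.sin a) * (Vx k e a).im - 2 * π * Lw k e a

/-- the coefficient `∑ log |1 - u| ∂ log |u| - log |u| ∂ log |1 - u|`, `u = x / ζ, x ζ` -/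
noncomputable def pX (k e a : ℝ) : ℝ :=
  Lw k e a * (-(2 * π * (e * Real.cos a))) + e * Real.sin a * (Vx k e a).re

/-- the argument of `z` -/
noncomputable def mu (k e a b : ℝ) : ℝ := (lf (Ze k e a b)).im

/-- the logarithm of the absolute value of `z` -/
noncomputable def nu (k e a b : ℝ) : ℝ := (lf (Ze k e a b)).re

/-- the first part of the integrand -/
noncomputable def Ph1 (k e a b : ℝ) : ℝ :=
  Ax k e a * (2 * π * mu k e a b + 2 * π / 3 * (e * Real.cos b) * nu k e a b) -
    2 * π / 3 * (e * Real.cos b) * pX k e a * mu k e a b + 2 * π / 3 * nu k e a b * pX k e a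

/-- `log |1 - f| Re l - log |f| Re l'`, `l' = - f l / (1 - f)` -/
noncomputable def pp (f l : ℂ) : ℝ :=
  Real.log ‖1 - f‖ * l.re - Real.log ‖f‖ * (-(f * l) / (1 - f)).re

/-- the second part of the integrand -/
noncomputable def Phf (e a b : ℝ) (f l0 l1 : ℂ) : ℝ :=
  4 * π ^ 2 * (D f * (1 - 1 / 3 * (e ^ 2 * Real.cos a * Real.cos b))) +
    2 * π / 3 * (e * Real.sin a * pp f l0) + 2 * π / 3 * (e * Real.sin b * pp f l1)

/-- the function `- z / y` -/
noncomputable def f3 (k e a b : ℝ) : ℂ := -(zf (Ze k e a b) * (xe e b)⁻¹)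

/-- the function `- y z` -/
noncomputable def f4 (k e a b : ℝ) : ℂ := -(xe e b * zf (Ze k e a b))

/-- the logarithmic derivatives of `z` -/
noncomputable def zl (k e a b c : ℝ) : ℂ := -(Zd e c / rf (Ze k e a b))

/-- the integrand of the regulator -/
noncomputable def Phi (k e a b : ℝ) : ℝ :=
  Ph1 k e a b - Phf e a b (f3 k e a b) (zl k e a b a) (zl k e a b b - Xd e b) -
    Phf e a b (f4 k e a b) (zl k e a b a) (zl k e a b b + Xd e b)

end Pool.Agent.P8H1.KS
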