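import Pool.Agent.P8H1.KS.Tor
import Pool.Agent.P8H1.KS.Frm
import Pool.Agent.P8H1.KS.Phi
import Pool.Agent.P8H1.EK.Lim
set_option autoImplicit false

/-!
The regulator of `xi` on the torus.
-/

namespace Pool.Agent.P8H1.KS

open Real Set Filter Topology MeasureTheory
open Pool.Agent.N65.TK (Pt D norm_root hasDerivAt_D)
open Pool.Agent.P8H1.PD (Tor FS br frm dl)
open Pool.Agent.P8H1.EK (tr contAt_D)
open Pool.Agent.W367.KT (eta)

section deriv

variable {k e : ℝ}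

theorem Xd_eq (e a : ℝ) : Xd e a = ((-(2 * π * (e * Real.cos a)) : ℝ) : ℂ) +
    ((2 * π : ℝ) : ℂ) * Complex.I := by
  unfold Xd ad
  push_cast
  linear_combination (2 * (π : ℂ) * (e * Complex.cos a)) * Complex.I_sq

theorem Xd_re (e a : ℝ) : (Xd e a).re = -(2 * π * (e * Real.cos a)) := by
  rw [Xd_eq, Complex.add_re, Complex.ofReal_re, Complex.re_ofReal_mul, Complex.I_re, mul_zero,
    add_zero]

theorem Xd_im (e a : ℝ) : (Xd e a).im = 2 * π := by
  rw [Xd_eq, Complex.add_im, Complex.ofReal_im, Complex.im_ofReal_mul, Complex.I_im, mul_one,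
    zero_add]

theorem hd_ang (r : ℝ) : HasDerivAt (fun r : ℝ => 2 * π * r) (2 * π) r := by
  simpa using (hasDerivAt_id r).const_mul (2 * π)

theorem hx (e r : ℝ) : HasDerivAt (fun r : ℝ => xe e (2 * π * r))
    (xe e (2 * π * r) * Xd e (2 * π * r)) r := by
  have h2 := (hd_xe e (2 * π * r)).scomp r (hd_ang r)
  refine h2.congr_deriv ?_
  unfold Xd
  rw [Complex.real_smul]
  ring

theorem hC (e r : ℝ) : HasDerivAt (fun r : ℝ => Ce e (2 * π * r)) (-Zd e (2 * π * r)) r := by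
  have h2 := (hd_Ce e (2 * π * r)).scomp r (hd_ang r)
  refine h2.congr_deriv ?_
  unfold Zd
  rw [Complex.real_smul]
  ring

theorem hZ0 (k e r b : ℝ) : HasDerivAt (fun r : ℝ => Ze k e (2 * π * r) b) (Zd e (2 * π * r)) r := by
  unfold Ze
  refine (((hC e r).const_sub (k : ℂ)).sub_const (Ce e b)).congr_deriv ?_
  rw [neg_neg]

theorem hZ1 (k e a s : ℝ) : HasDerivAt (fun s : ℝ => Ze k e a (2 * π * s)) (Zd e (2 * π * s)) s := by
  unfold Ze
  refine ((hC e s).const_sub ((k : ℂ) - Ce e a)).congr_deriv ?_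
  rw [neg_neg]

variable (he : 0 < e) (hk : |k| < 2)

include he hk

theorem hz0 (r b : ℝ) : HasDerivAt (fun r : ℝ => zf (Ze k e (2 * π * r) b))
    (zf (Ze k e (2 * π * r) b) * zl k e (2 * π * r) b (2 * π * r)) r := by
  have h1 := (ok_Ze he hk (2 * π * r) b).deriv_zf
  have h2 := HasDerivAt.comp (h₂ := zf) (h := fun r : ℝ => Ze k e (2 * π * r) b) r h1 (hZ0 k e r b)
  have h3 : zf (Ze k e (2 * π * r) b) * zl k e (2 * π * r) b (2 * π * r) =
      -(zf (Ze k e (2 * π * r) b) / rf (Ze k e (2 * π * r) b)) * Zd e (2 * π * r) := by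
    unfold zl
    ring
  rw [h3]
  exact h2

theorem hz1 (a s : ℝ) : HasDerivAt (fun s : ℝ => zf (Ze k e a (2 * π * s)))
    (zf (Ze k e a (2 * π * s)) * zl k e a (2 * π * s) (2 * π * s)) s := by
  have h1 := (ok_Ze he hk a (2 * π * s)).deriv_zf
  have h2 := HasDerivAt.comp (h₂ := zf) (h := fun s : ℝ => Ze k e a (2 * π * s)) s h1 (hZ1 k e a s)
  have h3 : zf (Ze k e a (2 * π * s)) * zl k e a (2 * π * s) (2 * π * s) =
      -(zf (Ze k e a (2 * π * s)) / rf (Ze k e a (2 * π * s))) * Zd e (2 * π * s) := by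
    unfold zl
    ring
  rw [h3]
  exact h2

theorem hl0 (r b : ℝ) : HasDerivAt (fun r : ℝ => lf (Ze k e (2 * π * r) b))
    (zl k e (2 * π * r) b (2 * π * r)) r := by
  have h1 := (ok_Ze he hk (2 * π * r) b).deriv_lf
  have h2 := HasDerivAt.comp (h₂ := lf) (h := fun r : ℝ => Ze k e (2 * π * r) b) r h1 (hZ0 k e r b)
  have h3 : zl k e (2 * π * r) b (2 * π * r) =
      -(rf (Ze k e (2 * π * r) b))⁻¹ * Zd e (2 * π * r) := by
    unfold zl
    ring
  rw [h3]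
  exact h2

theorem hl1 (a s : ℝ) : HasDerivAt (fun s : ℝ => lf (Ze k e a (2 * π * s)))
    (zl k e a (2 * π * s) (2 * π * s)) s := by
  have h1 := (ok_Ze he hk a (2 * π * s)).deriv_lf
  have h2 := HasDerivAt.comp (h₂ := lf) (h := fun s : ℝ => Ze k e a (2 * π * s)) s h1 (hZ1 k e a s)
  have h3 : zl k e a (2 * π * s) (2 * π * s) =
      -(rf (Ze k e a (2 * π * s)))⁻¹ * Zd e (2 * π * s) := by
    unfold zl
    ring
  rw [h3]
  exact h2

theorem hmu0 (r b : ℝ) : HasDerivAt (fun r : ℝ => mu k e (2 * π * r) b)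
    (zl k e (2 * π * r) b (2 * π * r)).im r :=
  Complex.imCLM.hasFDerivAt.comp_hasDerivAt r (hl0 he hk r b)

theorem hnu0 (r b : ℝ) : HasDerivAt (fun r : ℝ => nu k e (2 * π * r) b)
    (zl k e (2 * π * r) b (2 * π * r)).re r :=
  Complex.reCLM.hasFDerivAt.comp_hasDerivAt r (hl0 he hk r b)

theorem hmu1 (a s : ℝ) : HasDerivAt (fun s : ℝ => mu k e a (2 * π * s))
    (zl k e a (2 * π * s) (2 * π * s)).im s :=
  Complex.imCLM.hasFDerivAt.comp_hasDerivAt s (hl1 he hk a s)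

theorem log_norm_zf (a b : ℝ) : Real.log ‖zf (Ze k e a b)‖ = nu k e a b := by
  rw [← (ok_Ze he hk a b).exp_lf, Complex.norm_exp, Real.log_exp]
  rfl

end deriv

section xpart

theorem Xd_mul (e a : ℝ) : Xd e a * (xe e a - (xe e a)⁻¹) = -Zd e a := by
  unfold Xd Zd
  rw [xe_sub]
  linear_combination ((2 * π : ℝ) * ad e a * 2 * Complex.sin (an e a)) * Complex.I_sq

variable {k e : ℝ} {z : ℂ} (hz : ‖z‖ = 1) (hzk : z + z⁻¹ = k)

/-- `D(x / ζ) + D(x ζ)` -/
noncomputable def DX (z : ℂ) (e a : ℝ) : ℝ := D (z⁻¹ * xe e a) + D (z * xe e a)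

include hz hzk

theorem prodX (e a : ℝ) : (1 - z⁻¹ * xe e a) * (1 - z * xe e a) = xe e a * wf k e a := by
  have hz0 : z ≠ 0 := norm_ne_zero_iff.1 (by rw [hz]; exact one_ne_zero)
  have h1 : z * z⁻¹ = 1 := mul_inv_cancel₀ hz0
  have h2 : xe e a * (xe e a)⁻¹ = 1 := mul_inv_cancel₀ (xe_ne e a)
  unfold wf
  rw [← xe_add, ← hzk]
  linear_combination (xe e a) ^ 2 * h1 - h2

variable (he : 0 < e) (hk : |k| < 2)

include he hk

theorem one_sub_ne (a : ℝ) : 1 - z⁻¹ * xe e a ≠ 0 ∧ 1 - z * xe e a ≠ 0 := by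
  have h := prodX hz hzk e a
  have h1 : (1 - z⁻¹ * xe e a) * (1 - z * xe e a) ≠ 0 := by
    rw [h]
    exact mul_ne_zero (xe_ne e a) (w_ne he hk a)
  exact ⟨left_ne_zero_of_mul h1, right_ne_zero_of_mul h1⟩

theorem sum_log (a : ℝ) : Real.log ‖1 - z⁻¹ * xe e a‖ + Real.log ‖1 - z * xe e a‖ = Lw k e a := by
  obtain ⟨h1, h2⟩ := one_sub_ne hz hzk he hk a
  rw [← Real.log_mul (norm_ne_zero_iff.2 h1) (norm_ne_zero_iff.2 h2), ← norm_mul,
    prodX hz hzk, norm_mul, Real.log_mul (norm_ne_zero_iff.2 (xe_ne e a))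
      (norm_ne_zero_iff.2 (show wf k e a ≠ 0 from w_ne he hk a)), log_norm_xe]
  rfl

theorem sum_V (a : ℝ) : -(z⁻¹ * xe e a * Xd e a) / (1 - z⁻¹ * xe e a) +
    -(z * xe e a * Xd e a) / (1 - z * xe e a) = Vx k e a := by
  obtain ⟨h1, h2⟩ := one_sub_ne hz hzk he hk a
  have h3 := w_ne he hk a
  have h4 := prodX hz hzk e a
  have h5 := Xd_mul e a
  have hz0 : z ≠ 0 := norm_ne_zero_iff.1 (by rw [hz]; exact one_ne_zero)
  have h6 : z * z⁻¹ = 1 := mul_inv_cancel₀ hz0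
  have h7 : xe e a * (xe e a)⁻¹ = 1 := mul_inv_cancel₀ (xe_ne e a)
  have hw : wf k e a = xe e a + (xe e a)⁻¹ - k := by
    unfold wf
    rw [xe_add]
  have hw0 : wf k e a ≠ 0 := h3
  have h8 : (Xd e a - Zd e a / wf k e a) * (xe e a * wf k e a) =
      (Xd e a * wf k e a - Zd e a) * xe e a := by
    field_simp
  have h9 : z⁻¹ * z = 1 := inv_mul_cancel₀ hz0
  unfold Vx
  rw [div_add_div _ _ h1 h2, h4, div_eq_iff (mul_ne_zero (xe_ne e a) hw0), h8, hw]
  linear_combination (xe e a) * h5 + (2 * xe e a ^ 2 * Xd e a) * h9 -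
    (xe e a * Xd e a) * hzk

end xpart

end Pool.Agent.P8H1.KS
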