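import Pool.Agent.P8H1.KS.Reg
set_option autoImplicit false

/-!
The regulator of `xi` on the torus, continued.
-/

namespace Pool.Agent.P8H1.KS

open Real Set Filter Topology MeasureTheory
open Pool.Agent.N65.TK (Pt D norm_root hasDerivAt_D)
open Pool.Agent.P8H1.PD (Tor FS br frm dl)
open Pool.Agent.P8H1.EK (tr contAt_D inv_val)
open Pool.Agent.W367.KT (eta)

section general

variable {u : (Fin 2 → ℝ) → ℂ} (hu : Differentiable ℝ u) {l : ℂ} {r s : ℝ} (h0 : u ![r, s] ≠ 0)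

include hu h0

theorem dl0' (h : HasDerivAt (fun r => u ![r, s]) (u ![r, s] * l) r) : dl u ![r, s] 0 = l := by
  rw [dl0 hu h, mul_div_cancel_left₀ _ h0]

theorem dl1' (h : HasDerivAt (fun s => u ![r, s]) (u ![r, s] * l) s) : dl u ![r, s] 1 = l := by
  rw [dl1 hu h, mul_div_cancel_left₀ _ h0]

end general

/-- the coefficient for `1 - f` -/
theorem pq_eq {u : (Fin 2 → ℝ) → ℂ} (hu : Differentiable ℝ u) {l0 l1 : ℂ} {r s : ℝ}
    (h0 : u ![r, s] ≠ 0) (h : HasDerivAt (fun r => u ![r, s]) (u ![r, s] * l0) r)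
    (h' : HasDerivAt (fun s => u ![r, s]) (u ![r, s] * l1) s) :
    pq u ![r, s] 0 = pp (u ![r, s]) l0 ∧ pq u ![r, s] 1 = pp (u ![r, s]) l1 := by
  have hu' : Differentiable ℝ fun t => 1 - u t := (differentiable_const 1).sub hu
  have e0 := dl0' hu h0 h
  have e1 := dl1' hu h0 h'
  have c0 : dl (fun t => 1 - u t) ![r, s] 0 = -(u ![r, s] * l0) / (1 - u ![r, s]) :=
    dl0 hu' (h.const_sub 1)
  have c1 : dl (fun t => 1 - u t) ![r, s] 1 = -(u ![r, s] * l1) / (1 - u ![r, s]) :=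
    dl1 hu' (h'.const_sub 1)
  unfold pq pp
  rw [e0, e1, c0, c1]
  exact ⟨rfl, rfl⟩

section torus

variable {K : Type*} [Field K] (c : Kˣ) (σ : K →+* ℂ) {k e : ℝ} (hk0 : σ (tr c) = k)
  (hk : |k| < 2) (he : 0 < e)

theorem tor_diff (g : Srf c) : Differentiable ℝ fun t => (tor c σ hk0 hk he).e t g :=
  ((tor c σ hk0 hk he).smooth g).differentiable (by norm_num)

theorem tor_ne (g : (Srf c)ˣ) (t : Fin 2 → ℝ) : (tor c σ hk0 hk he).e t g ≠ 0 :=
  (g.isUnit.map ((tor c σ hk0 hk he).e t)).ne_zero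

theorem val_px (t : Fin 2 → ℝ) : (tor c σ hk0 hk he).e t (px c).1 = (σ c)⁻¹ * xe e (a0 t) := by
  show (tor c σ hk0 hk he).e t ((uc c c⁻¹ * cx c : (Srf c)ˣ) : Srf c) = _
  rw [Units.val_mul, map_mul, tor_uc, tor_x, inv_val]

theorem val_qx (t : Fin 2 → ℝ) : (tor c σ hk0 hk he).e t (qx c).1 = σ c * xe e (a0 t) := by
  show (tor c σ hk0 hk he).e t ((uc c c * cx c : (Srf c)ˣ) : Srf c) = _
  rw [Units.val_mul, map_mul, tor_uc, tor_x]

theorem val_pf (t : Fin 2 → ℝ) : (tor c σ hk0 hk he).e t (pf c).1 = f3 k e (a0 t) (a1 t) := by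
  show (tor c σ hk0 hk he).e t ((uc c (-1) * (cz c * (cy c)⁻¹) : (Srf c)ˣ) : Srf c) = _
  rw [Units.val_mul, Units.val_mul, map_mul, map_mul, uc_neg_one, map_neg, map_one, tor_z,
    map_units_inv, tor_y]
  unfold f3 Zt
  ring

theorem val_qf (t : Fin 2 → ℝ) : (tor c σ hk0 hk he).e t (qf c).1 = f4 k e (a0 t) (a1 t) := by
  show (tor c σ hk0 hk he).e t ((uc c (-1) * (cy c * cz c) : (Srf c)ˣ) : Srf c) = _
  rw [Units.val_mul, Units.val_mul, map_mul, map_mul, uc_neg_one, map_neg, map_one, tor_z, tor_y]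
  unfold f4 Zt
  ring

/-- the derivatives of the functions on the torus -/
theorem x_deriv (r s : ℝ) :
    HasDerivAt (fun r => (tor c σ hk0 hk he).e ![r, s] (cx c))
      ((tor c σ hk0 hk he).e ![r, s] (cx c) * Xd e (2 * π * r)) r ∧
    HasDerivAt (fun s => (tor c σ hk0 hk he).e ![r, s] (cx c))
      ((tor c σ hk0 hk he).e ![r, s] (cx c) * 0) s := by
  have h : ∀ r s : ℝ, (tor c σ hk0 hk he).e ![r, s] (cx c) = xe e (2 * π * r) := fun r s => by
    rw [tor_x]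
    rfl
  simp only [h]
  refine ⟨hx e r, ?_⟩
  rw [mul_zero]
  exact hasDerivAt_const _ _

theorem y_deriv (r s : ℝ) :
    HasDerivAt (fun r => (tor c σ hk0 hk he).e ![r, s] (cy c))
      ((tor c σ hk0 hk he).e ![r, s] (cy c) * 0) r ∧
    HasDerivAt (fun s => (tor c σ hk0 hk he).e ![r, s] (cy c))
      ((tor c σ hk0 hk he).e ![r, s] (cy c) * Xd e (2 * π * s)) s := by
  have h : ∀ r s : ℝ, (tor c σ hk0 hk he).e ![r, s] (cy c) = xe e (2 * π * s) := fun r s => by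
    rw [tor_y]
    rfl
  simp only [h]
  refine ⟨?_, hx e s⟩
  rw [mul_zero]
  exact hasDerivAt_const _ _

theorem z_deriv (r s : ℝ) :
    HasDerivAt (fun r => (tor c σ hk0 hk he).e ![r, s] (cz c))
      ((tor c σ hk0 hk he).e ![r, s] (cz c) * zl k e (2 * π * r) (2 * π * s) (2 * π * r)) r ∧
    HasDerivAt (fun s => (tor c σ hk0 hk he).e ![r, s] (cz c))
      ((tor c σ hk0 hk he).e ![r, s] (cz c) * zl k e (2 * π * r) (2 * π * s) (2 * π * s)) s := by
  have h : ∀ r s : ℝ, (tor c σ hk0 hk he).e ![r, s] (cz c) =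
      zf (Ze k e (2 * π * r) (2 * π * s)) := fun r s => by
    rw [tor_z]
    rfl
  simp only [h]
  exact ⟨hz0 he hk r (2 * π * s), hz1 he hk (2 * π * r) s⟩

include he hk in
theorem f3_deriv (r s : ℝ) :
    HasDerivAt (fun r => f3 k e (2 * π * r) (2 * π * s))
      (f3 k e (2 * π * r) (2 * π * s) * zl k e (2 * π * r) (2 * π * s) (2 * π * r)) r ∧
    HasDerivAt (fun s => f3 k e (2 * π * r) (2 * π * s))
      (f3 k e (2 * π * r) (2 * π * s) *
        (zl k e (2 * π * r) (2 * π * s) (2 * π * s) - Xd e (2 * π * s))) s := by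
  unfold f3
  constructor
  · refine ((hz0 he hk r (2 * π * s)).mul_const ((xe e (2 * π * s))⁻¹)).neg.congr_deriv ?_
    ring
  · refine ((hz1 he hk (2 * π * r) s).mul ((hx e s).inv (xe_ne _ _))).neg.congr_deriv ?_
    have h := xe_ne e (2 * π * s)
    simp only [Pi.inv_apply]
    field_simp
    ring

include he hk in
theorem f4_deriv (r s : ℝ) :
    HasDerivAt (fun r => f4 k e (2 * π * r) (2 * π * s))
      (f4 k e (2 * π * r) (2 * π * s) * zl k e (2 * π * r) (2 * π * s) (2 * π * r)) r ∧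
    HasDerivAt (fun s => f4 k e (2 * π * r) (2 * π * s))
      (f4 k e (2 * π * r) (2 * π * s) *
        (zl k e (2 * π * r) (2 * π * s) (2 * π * s) + Xd e (2 * π * s))) s := by
  unfold f4
  constructor
  · refine ((hz0 he hk r (2 * π * s)).const_mul (xe e (2 * π * s))).neg.congr_deriv ?_
    ring
  · refine ((hx e s).mul (hz1 he hk (2 * π * r) s)).neg.congr_deriv ?_
    ring

/-- the first two terms -/
noncomputable def R12 (z : ℂ) (k e a b : ℝ) : ℝ :=
  DX z e a * (-(2 * π * (zl k e a b a).im) - 1 / 3 * (2 * π * (e * Real.cos b) * (zl k e a b a).re)) +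
    1 / 3 * (e * Real.sin b * (pX k e a * (zl k e a b b).im)) +
    1 / 3 * (nu k e a b * (pX k e a * (2 * π)))

variable (hc : ∃ N : ℕ, 0 < N ∧ c ^ N = 1)

theorem zk (hk0 : σ (tr c) = k) : σ c + (σ c)⁻¹ = (k : ℂ) := by
  rw [← hk0]
  unfold tr
  rw [map_add, inv_val]

include hc in
theorem frm_x (t : Fin 2 → ℝ) :
    frm (fun s => (tor c σ hk0 hk he).e s (px c).1)
      (fun j s => (tor c σ hk0 hk he).e s (![cy c, cz c] j)) t +
    frm (fun s => (tor c σ hk0 hk he).e s (qx c).1)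
      (fun j s => (tor c σ hk0 hk he).e s (![cy c, cz c] j)) t = R12 (σ c) k e (a0 t) (a1 t) := by
  have hz := norm_root σ hc
  have hzk := zk c σ hk0
  obtain ⟨r, s, rfl⟩ : ∃ r s : ℝ, t = ![r, s] := ⟨t 0, t 1, (vec_eta t).symm⟩
  set a := 2 * π * r with ha
  set b := 2 * π * s with hb
  have ea : a0 ![r, s] = a := rfl
  have eb : a1 ![r, s] = b := rfl
  rw [ea, eb, frm2, frm2]
  set γ := tor c σ hk0 hk he with hγ
  have hd : ∀ g : Srf c, Differentiable ℝ fun t => γ.e t g := tor_diff c σ hk0 hk he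
  have hne : ∀ (g : (Srf c)ˣ) (t : Fin 2 → ℝ), γ.e t g ≠ 0 := tor_ne c σ hk0 hk he
  have g0 : (fun j s => γ.e s (![cy c, cz c] j : (Srf c)ˣ)) 0 = fun s => γ.e s (cy c) := rfl
  have g1 : (fun j s => γ.e s (![cy c, cz c] j : (Srf c)ˣ)) 1 = fun s => γ.e s (cz c) := rfl
  have y0 : dl (fun s => γ.e s (cy c)) ![r, s] 0 = 0 :=
    dl0' (hd _) (hne _ _) (y_deriv c σ hk0 hk he r s).1
  have y1 : dl (fun s => γ.e s (cy c)) ![r, s] 1 = Xd e b :=
    dl1' (hd _) (hne _ _) (y_deriv c σ hk0 hk he r s).2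
  have z0 : dl (fun s => γ.e s (cz c)) ![r, s] 0 = zl k e a b a :=
    dl0' (hd _) (hne _ _) (z_deriv c σ hk0 hk he r s).1
  have z1 : dl (fun s => γ.e s (cz c)) ![r, s] 1 = zl k e a b b :=
    dl1' (hd _) (hne _ _) (z_deriv c σ hk0 hk he r s).2
  have vy : γ.e ![r, s] ((![cy c, cz c] : Fin 2 → (Srf c)ˣ) 0) = xe e b := by
    show γ.e ![r, s] (cy c) = xe e b
    rw [hγ, tor_y]
    rfl
  have vz : γ.e ![r, s] ((![cy c, cz c] : Fin 2 → (Srf c)ˣ) 1) = zf (Ze k e a b) := by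
    show γ.e ![r, s] (cz c) = zf (Ze k e a b)
    rw [hγ, tor_z]
    rfl
  have vp : γ.e ![r, s] (px c).1 = (σ c)⁻¹ * xe e a := val_px c σ hk0 hk he _
  have vq : γ.e ![r, s] (qx c).1 = σ c * xe e a := val_qx c σ hk0 hk he _
  have fp : (fun t => γ.e t (px c).1) = fun t => (σ c)⁻¹ * γ.e t (cx c) := by
    funext t
    rw [hγ, val_px, tor_x]
  have fq : (fun t => γ.e t (qx c).1) = fun t => σ c * γ.e t (cx c) := by
    funext t
    rw [hγ, val_qx, tor_x]
  have p1 : HasDerivAt (fun r => (fun t => γ.e t (px c).1) ![r, s])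
      ((fun t => γ.e t (px c).1) ![r, s] * Xd e a) r := by
    rw [fp]
    refine ((x_deriv c σ hk0 hk he r s).1.const_mul ((σ c)⁻¹)).congr_deriv ?_
    ring
  have p2 : HasDerivAt (fun s => (fun t => γ.e t (px c).1) ![r, s])
      ((fun t => γ.e t (px c).1) ![r, s] * 0) s := by
    rw [fp]
    refine ((x_deriv c σ hk0 hk he r s).2.const_mul ((σ c)⁻¹)).congr_deriv ?_
    ring
  have q1 : HasDerivAt (fun r => (fun t => γ.e t (qx c).1) ![r, s])
      ((fun t => γ.e t (qx c).1) ![r, s] * Xd e a) r := by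
    rw [fq]
    refine ((x_deriv c σ hk0 hk he r s).1.const_mul (σ c)).congr_deriv ?_
    ring
  have q2 : HasDerivAt (fun s => (fun t => γ.e t (qx c).1) ![r, s])
      ((fun t => γ.e t (qx c).1) ![r, s] * 0) s := by
    rw [fq]
    refine ((x_deriv c σ hk0 hk he r s).2.const_mul (σ c)).congr_deriv ?_
    ring
  obtain ⟨pp0, pp1⟩ := pq_eq (hd (px c).1) (hne (px c).1 ![r, s]) p1 p2
  obtain ⟨qq0, qq1⟩ := pq_eq (hd (qx c).1) (hne (qx c).1 ![r, s]) q1 q2
  simp only [g0, g1, y0, y1, z0, z1, pp0, pp1, qq0, qq1, vy, vz, vp, vq]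
  have hpp : ∀ f : ℂ, pp f 0 = 0 := by
    intro f
    unfold pp
    simp
  have hz0 : ‖(σ c)⁻¹‖ = 1 := by rw [norm_inv, hz, inv_one]
  have s1 := sum_log hz hzk he hk a
  have s2 := congrArg Complex.re (sum_V hz hzk he hk a)
  rw [Complex.add_re] at s2
  have n1 : Real.log ‖(σ c)⁻¹ * xe e a‖ = -(e * Real.sin a) := by
    rw [norm_mul, hz0, one_mul, log_norm_xe]
  have n2 : Real.log ‖σ c * xe e a‖ = -(e * Real.sin a) := by
    rw [norm_mul, hz, one_mul, log_norm_xe]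
  have hsum : pp ((σ c)⁻¹ * xe e a) (Xd e a) + pp (σ c * xe e a) (Xd e a) = pX k e a := by
    unfold pp pX
    rw [n1, n2, Xd_re]
    linear_combination (-(2 * π * (e * Real.cos a))) * s1 + (e * Real.sin a) * s2
  rw [hpp, hpp, log_norm_xe, log_norm_zf he hk, Xd_im, Xd_re, Complex.zero_im, Complex.zero_re]
  unfold R12 DX
  rw [← hsum]
  ring

include hc in
theorem frm_p (t : Fin 2 → ℝ) :
    frm (fun s => (tor c σ hk0 hk he).e s (pf c).1)
      (fun j s => (tor c σ hk0 hk he).e s (![cx c, cy c] j)) t =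
    Phf e (a0 t) (a1 t) (f3 k e (a0 t) (a1 t)) (zl k e (a0 t) (a1 t) (a0 t))
      (zl k e (a0 t) (a1 t) (a1 t) - Xd e (a1 t)) ∧
    frm (fun s => (tor c σ hk0 hk he).e s (qf c).1)
      (fun j s => (tor c σ hk0 hk he).e s (![cx c, cy c] j)) t =
    Phf e (a0 t) (a1 t) (f4 k e (a0 t) (a1 t)) (zl k e (a0 t) (a1 t) (a0 t))
      (zl k e (a0 t) (a1 t) (a1 t) + Xd e (a1 t)) := by
  obtain ⟨r, s, rfl⟩ : ∃ r s : ℝ, t = ![r, s] := ⟨t 0, t 1, (vec_eta t).symm⟩
  set a := 2 * π * r with ha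
  set b := 2 * π * s with hb
  have ea : a0 ![r, s] = a := rfl
  have eb : a1 ![r, s] = b := rfl
  rw [ea, eb, frm2, frm2]
  set γ := tor c σ hk0 hk he with hγ
  have hd : ∀ g : Srf c, Differentiable ℝ fun t => γ.e t g := tor_diff c σ hk0 hk he
  have hne : ∀ (g : (Srf c)ˣ) (t : Fin 2 → ℝ), γ.e t g ≠ 0 := tor_ne c σ hk0 hk he
  have g0 : (fun j s => γ.e s (![cx c, cy c] j : (Srf c)ˣ)) 0 = fun s => γ.e s (cx c) := rfl
  have g1 : (fun j s => γ.e s (![cx c, cy c] j : (Srf c)ˣ)) 1 = fun s => γ.e s (cy c) := rfl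
  have x0 : dl (fun s => γ.e s (cx c)) ![r, s] 0 = Xd e a :=
    dl0' (hd _) (hne _ _) (x_deriv c σ hk0 hk he r s).1
  have x1 : dl (fun s => γ.e s (cx c)) ![r, s] 1 = 0 :=
    dl1' (hd _) (hne _ _) (x_deriv c σ hk0 hk he r s).2
  have y0 : dl (fun s => γ.e s (cy c)) ![r, s] 0 = 0 :=
    dl0' (hd _) (hne _ _) (y_deriv c σ hk0 hk he r s).1
  have y1 : dl (fun s => γ.e s (cy c)) ![r, s] 1 = Xd e b :=
    dl1' (hd _) (hne _ _) (y_deriv c σ hk0 hk he r s).2
  have vx : γ.e ![r, s] ((![cx c, cy c] : Fin 2 → (Srf c)ˣ) 0) = xe e a := by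
    show γ.e ![r, s] (cx c) = xe e a
    rw [hγ, tor_x]
    rfl
  have vy : γ.e ![r, s] ((![cx c, cy c] : Fin 2 → (Srf c)ˣ) 1) = xe e b := by
    show γ.e ![r, s] (cy c) = xe e b
    rw [hγ, tor_y]
    rfl
  have fp : (fun t => γ.e t (pf c).1) = fun t => f3 k e (a0 t) (a1 t) :=
    funext (val_pf c σ hk0 hk he)
  have fq : (fun t => γ.e t (qf c).1) = fun t => f4 k e (a0 t) (a1 t) :=
    funext (val_qf c σ hk0 hk he)
  have vp : γ.e ![r, s] (pf c).1 = f3 k e a b := val_pf c σ hk0 hk he _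
  have vq : γ.e ![r, s] (qf c).1 = f4 k e a b := val_qf c σ hk0 hk he _
  have p1 : HasDerivAt (fun r => (fun t => γ.e t (pf c).1) ![r, s])
      ((fun t => γ.e t (pf c).1) ![r, s] * zl k e a b a) r := by
    rw [fp]
    exact (f3_deriv hk he r s).1
  have p2 : HasDerivAt (fun s => (fun t => γ.e t (pf c).1) ![r, s])
      ((fun t => γ.e t (pf c).1) ![r, s] * (zl k e a b b - Xd e b)) s := by
    rw [fp]
    exact (f3_deriv hk he r s).2
  have q1 : HasDerivAt (fun r => (fun t => γ.e t (qf c).1) ![r, s])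
      ((fun t => γ.e t (qf c).1) ![r, s] * zl k e a b a) r := by
    rw [fq]
    exact (f4_deriv hk he r s).1
  have q2 : HasDerivAt (fun s => (fun t => γ.e t (qf c).1) ![r, s])
      ((fun t => γ.e t (qf c).1) ![r, s] * (zl k e a b b + Xd e b)) s := by
    rw [fq]
    exact (f4_deriv hk he r s).2
  obtain ⟨pp0, pp1⟩ := pq_eq (hd (pf c).1) (hne (pf c).1 ![r, s]) p1 p2
  obtain ⟨qq0, qq1⟩ := pq_eq (hd (qf c).1) (hne (qf c).1 ![r, s]) q1 q2
  simp only [g0, g1, x0, x1, y0, y1, pp0, pp1, qq0, qq1, vx, vy, vp, vq]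
  rw [log_norm_xe, log_norm_xe, Xd_im, Xd_im, Xd_re, Xd_re, Complex.zero_im, Complex.zero_re]
  unfold Phf
  constructor <;> ring

end torus

end Pool.Agent.P8H1.KS
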