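import Pool.Agent.P8H1.KS.Reg2
set_option autoImplicit false

/-!
The regulator of `xi` on the torus is the integral of `Phi`.
-/

namespace Pool.Agent.P8H1.KS

open Real Set Filter Topology MeasureTheory
open Pool.Agent.N65.TK (Pt D norm_root hasDerivAt_D)
open Pool.Agent.P8H1.PD (Tor FS br frm dl differentiableAt_D)
open Pool.Agent.P8H1.EK (tr contAt_D inv_val)
open Pool.Agent.W367.KT (eta)

section cont

theorem cont_dl {u : (Fin 2 → ℝ) → ℂ} (hu : ContDiff ℝ 2 u) (h0 : ∀ t, u t ≠ 0) (i : Fin 2) :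
    Continuous fun t => dl u t i := by
  unfold dl
  exact ((hu.continuous_fderiv (by norm_num)).clm_apply continuous_const).div hu.continuous h0

theorem cont_pq {u : (Fin 2 → ℝ) → ℂ} (hu : ContDiff ℝ 2 u) (h0 : ∀ t, u t ≠ 0)
    (h1 : ∀ t, 1 - u t ≠ 0) (i : Fin 2) : Continuous fun t => pq u t i := by
  unfold pq
  have hc : ContDiff ℝ 2 fun t => 1 - u t := contDiff_const.sub hu
  have c1 := Complex.continuous_re.comp (cont_dl hu h0 i)
  have c2 := Complex.continuous_re.comp (cont_dl hc h1 i)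
  have c3 : Continuous fun t => Real.log ‖u t‖ :=
    hu.continuous.norm.log fun t => norm_ne_zero_iff.2 (h0 t)
  have c4 : Continuous fun t => Real.log ‖1 - u t‖ :=
    hc.continuous.norm.log fun t => norm_ne_zero_iff.2 (h1 t)
  exact (c4.mul c1).sub (c3.mul c2)

variable {A : Type*} [CommRing A] (γ : Tor A 2)

theorem cont_DT (f : Pt A) : Continuous fun t => D (γ.e t f.1) := by
  rw [continuous_iff_continuousAt]
  intro t
  exact ContinuousAt.comp (g := D) (differentiableAt_D (γ.ne_zero f.1 t) (γ.ne_one f t)).continuousAt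
    (γ.smooth f.1).continuous.continuousAt

theorem cont_frm (f : Pt A) (g : Fin 2 → Aˣ) :
    Continuous fun t => frm (fun s => γ.e s f.1) (fun j s => γ.e s (g j)) t := by
  simp only [frm2]
  have hu : ∀ h : A, ContDiff ℝ 2 fun t => γ.e t h := γ.smooth
  have cd : ∀ (u : Aˣ) (i : Fin 2), Continuous fun t => dl (fun s => γ.e s u) t i := fun u i =>
    cont_dl (hu u) (γ.ne_zero u) i
  have cre : ∀ (u : Aˣ) (i : Fin 2), Continuous fun t => (dl (fun s => γ.e s u) t i).re :=
    fun u i => Complex.continuous_re.comp (cd u i)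
  have cim : ∀ (u : Aˣ) (i : Fin 2), Continuous fun t => (dl (fun s => γ.e s u) t i).im :=
    fun u i => Complex.continuous_im.comp (cd u i)
  have cl : ∀ u : Aˣ, Continuous fun t => Real.log ‖γ.e t u‖ := fun u =>
    (hu u).continuous.norm.log fun t => norm_ne_zero_iff.2 (γ.ne_zero u t)
  have cp : ∀ i : Fin 2, Continuous fun t => pq (fun s => γ.e s f.1) t i := fun i =>
    cont_pq (hu f.1) (γ.ne_zero f.1) (fun t => sub_ne_zero.2 (Ne.symm (γ.ne_one f t))) i
  have cD := cont_DT γ f
  exact ((cD.mul ((((cim _ _).mul (cim _ _)).sub ((cim _ _).mul (cim _ _))).sub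
    (continuous_const.mul (((cre _ _).mul (cre _ _)).sub ((cre _ _).mul (cre _ _)))))).sub
    (continuous_const.mul ((cl _).mul (((cp _).mul (cim _ _)).sub ((cp _).mul (cim _ _)))))).add
    (continuous_const.mul ((cl _).mul (((cp _).mul (cim _ _)).sub ((cp _).mul (cim _ _)))))

theorem reg_br2 (f : Pt A) (g : Fin 2 → Aˣ) : γ.reg (br f g) =
    ∫ t in Icc (0 : Fin 2 → ℝ) 1, frm (fun s => γ.e s f.1) (fun j s => γ.e s (g j)) t := by
  unfold Tor.reg br
  rw [Finsupp.linearCombination_single, one_smul]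

theorem int_cont {F : (Fin 2 → ℝ) → ℝ} (hF : Continuous F) : IntegrableOn F (Icc 0 1) :=
  hF.continuousOn.integrableOn_compact isCompact_Icc

theorem int4 {A B C E : (Fin 2 → ℝ) → ℝ} {S : Set (Fin 2 → ℝ)} (iA : IntegrableOn A S)
    (iB : IntegrableOn B S) (iC : IntegrableOn C S) (iE : IntegrableOn E S) :
    (∫ t in S, (A t + B t - C t - E t)) = (∫ t in S, A t) + (∫ t in S, B t) - (∫ t in S, C t) -
      ∫ t in S, E t := by
  have h1 : IntegrableOn (fun t => A t + B t) S := iA.add iB
  have h2 : IntegrableOn (fun t => A t + B t - C t) S := h1.sub iC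
  rw [integral_sub h2 iE, integral_sub h1 iC, integral_add iA iB]

theorem reg_four (f1 f2 f3 f4 : Pt A) (g h : Fin 2 → Aˣ) :
    γ.reg (br f1 g + br f2 g - br f3 h - br f4 h) = ∫ t in Icc (0 : Fin 2 → ℝ) 1,
      ((frm (fun s => γ.e s f1.1) (fun j s => γ.e s (g j)) t +
        frm (fun s => γ.e s f2.1) (fun j s => γ.e s (g j)) t) -
        frm (fun s => γ.e s f3.1) (fun j s => γ.e s (h j)) t -
        frm (fun s => γ.e s f4.1) (fun j s => γ.e s (h j)) t) := by
  have i1 := int_cont (cont_frm γ f1 g)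
  have i2 := int_cont (cont_frm γ f2 g)
  have i3 := int_cont (cont_frm γ f3 h)
  have i4 := int_cont (cont_frm γ f4 h)
  rw [map_sub, map_sub, map_add, reg_br2, reg_br2, reg_br2, reg_br2, int4 i1 i2 i3 i4]

end cont

section main

variable {K : Type*} [Field K] (c : Kˣ) (σ : K →+* ℂ) {k e : ℝ} (hk0 : σ (tr c) = k)
  (hk : |k| < 2) (he : 0 < e) (hc : ∃ N : ℕ, 0 < N ∧ c ^ N = 1)

/-- the first derivative -/
noncomputable def dH1 (z : ℂ) (k e a b : ℝ) : ℝ :=
  Ax k e a * (2 * π * mu k e a b + 2 * π / 3 * (e * Real.cos b) * nu k e a b) +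
    DX z e a * (2 * π * (zl k e a b a).im + 2 * π / 3 * (e * Real.cos b) * (zl k e a b a).re)

/-- the second derivative -/
noncomputable def dH2 (k e a b : ℝ) : ℝ :=
  2 * π / 3 * (e * Real.cos b) * pX k e a * mu k e a b +
    1 / 3 * (e * Real.sin b) * pX k e a * (zl k e a b b).im

theorem Ph1_eq (z : ℂ) (k e a b : ℝ) : Ph1 k e a b = R12 z k e a b + dH1 z k e a b - dH2 k e a b := by
  unfold Ph1 R12 dH1 dH2
  ring

theorem cont_ad (e : ℝ) : Continuous (ad e) := by
  unfold ad
  exact continuous_const.add ((Complex.continuous_ofReal.comp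
    (continuous_const.mul Real.continuous_cos)).mul continuous_const)

theorem cont_Xd (e : ℝ) : Continuous (Xd e) := by
  unfold Xd
  exact continuous_const.mul (continuous_const.mul (cont_ad e))

theorem cont_Zd (e : ℝ) : Continuous (Zd e) := by
  unfold Zd
  exact continuous_const.mul ((continuous_const.mul
    (Complex.continuous_sin.comp (smooth_an e).continuous)).mul (cont_ad e))

theorem cont_wf (k e : ℝ) : Continuous (wf k e) := by
  unfold wf
  exact (smooth_Ce e).continuous.sub continuous_const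

theorem cont_es (e : ℝ) : Continuous fun a : ℝ => e * Real.sin a :=
  continuous_const.mul Real.continuous_sin

include hk he in
theorem cont_Vx : Continuous (Vx k e) := by
  unfold Vx
  exact (cont_Xd e).sub ((cont_Zd e).div (cont_wf k e) (w_ne he hk))

include hk he in
theorem cont_Lw : Continuous (Lw k e) := by
  unfold Lw
  exact (cont_es e).neg.add ((cont_wf k e).norm.log fun a => norm_ne_zero_iff.2 (w_ne he hk a))

include hk he in
theorem cont_Ax : Continuous (Ax k e) := by
  unfold Ax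
  exact ((cont_es e).neg.mul (Complex.continuous_im.comp (cont_Vx hk he))).sub
    (continuous_const.mul (cont_Lw hk he))

include hk he in
theorem cont_pX : Continuous (pX k e) := by
  unfold pX
  exact ((cont_Lw hk he).mul ((continuous_const.mul (continuous_const.mul
    Real.continuous_cos)).neg)).add ((cont_es e).mul (Complex.continuous_re.comp (cont_Vx hk he)))

theorem cont_a0 : Continuous a0 := a0_smooth.continuous

theorem cont_a1 : Continuous a1 := a1_smooth.continuous

include hk he in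
theorem cont_lf : Continuous fun t => lf (Zt k e t) := by
  rw [continuous_iff_continuousAt]
  intro t
  exact ContinuousAt.comp (g := lf) (ok_Ze he hk (a0 t) (a1 t)).deriv_lf.continuousAt
    (Zt_smooth k e).continuous.continuousAt

include hk he in
theorem cont_mu : Continuous fun t => mu k e (a0 t) (a1 t) :=
  Complex.continuous_im.comp (cont_lf hk he)

include hk he in
theorem cont_nu : Continuous fun t => nu k e (a0 t) (a1 t) :=
  Complex.continuous_re.comp (cont_lf hk he)

theorem zl_eq (t : Fin 2 → ℝ) :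
    dl (fun s => (tor c σ hk0 hk he).e s (cz c)) t 0 = zl k e (a0 t) (a1 t) (a0 t) ∧
    dl (fun s => (tor c σ hk0 hk he).e s (cz c)) t 1 = zl k e (a0 t) (a1 t) (a1 t) := by
  obtain ⟨r, s, rfl⟩ : ∃ r s : ℝ, t = ![r, s] := ⟨t 0, t 1, (vec_eta t).symm⟩
  exact ⟨dl0' (tor_diff c σ hk0 hk he _) (tor_ne c σ hk0 hk he _ _) (z_deriv c σ hk0 hk he r s).1,
    dl1' (tor_diff c σ hk0 hk he _) (tor_ne c σ hk0 hk he _ _) (z_deriv c σ hk0 hk he r s).2⟩

include c hk0 hk he in
theorem cont_zl : (Continuous fun t => zl k e (a0 t) (a1 t) (a0 t)) ∧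
    Continuous fun t => zl k e (a0 t) (a1 t) (a1 t) := by
  have h0 := cont_dl ((tor c σ hk0 hk he).smooth (cz c)) (tor_ne c σ hk0 hk he (cz c)) 0
  have h1 := cont_dl ((tor c σ hk0 hk he).smooth (cz c)) (tor_ne c σ hk0 hk he (cz c)) 1
  constructor
  · refine h0.congr fun t => (zl_eq c σ hk0 hk he t).1
  · refine h1.congr fun t => (zl_eq c σ hk0 hk he t).2

include hk0 hk he in
theorem cont_DX : Continuous fun t => DX (σ c) e (a0 t) := by
  have h1 := cont_DT (tor c σ hk0 hk he) (px c)
  have h2 := cont_DT (tor c σ hk0 hk he) (qx c)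
  simp only [val_px] at h1
  simp only [val_qx] at h2
  exact h1.add h2

include hc hk0 hk he in
theorem hd_DX (r : ℝ) : HasDerivAt (fun r : ℝ => DX (σ c) e (2 * π * r)) (Ax k e (2 * π * r)) r := by
  have hz := norm_root σ hc
  have hzk := zk c σ hk0
  set a := 2 * π * r with ha
  obtain ⟨h1, h2⟩ := one_sub_ne hz hzk he hk a
  have hz0 : (σ c : ℂ) ≠ 0 := norm_ne_zero_iff.1 (by rw [hz]; exact one_ne_zero)
  have u1 : HasDerivAt (fun r : ℝ => (σ c)⁻¹ * xe e (2 * π * r)) ((σ c)⁻¹ * xe e a * Xd e a) r :=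
    ((hx e r).const_mul ((σ c)⁻¹)).congr_deriv (by ring)
  have u2 : HasDerivAt (fun r : ℝ => σ c * xe e (2 * π * r)) (σ c * xe e a * Xd e a) r :=
    ((hx e r).const_mul (σ c)).congr_deriv (by ring)
  have n1 : (σ c)⁻¹ * xe e a ≠ 0 := mul_ne_zero (inv_ne_zero hz0) (xe_ne _ _)
  have n2 : σ c * xe e a ≠ 0 := mul_ne_zero hz0 (xe_ne _ _)
  have d1 := hasDerivAt_D u1 n1 (fun h => h1 (by rw [h, sub_self]))
  have d2 := hasDerivAt_D u2 n2 (fun h => h2 (by rw [h, sub_self]))
  refine (d1.add d2).congr_deriv ?_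
  have s1 := sum_log hz hzk he hk a
  have s2 := congrArg Complex.im (sum_V hz hzk he hk a)
  rw [Complex.add_im] at s2
  have hzi : ‖(σ c)⁻¹‖ = 1 := by rw [norm_inv, hz, inv_one]
  have l1 : Real.log ‖(σ c)⁻¹ * xe e a‖ = -(e * Real.sin a) := by
    rw [norm_mul, hzi, one_mul, log_norm_xe]
  have l2 : Real.log ‖σ c * xe e a‖ = -(e * Real.sin a) := by
    rw [norm_mul, hz, one_mul, log_norm_xe]
  unfold eta Ax
  rw [l1, l2, mul_div_cancel_left₀ _ n1, mul_div_cancel_left₀ _ n2, Xd_im]
  linear_combination (-(e * Real.sin a)) * s2 - 2 * π * s1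

theorem reg_tor (hk0 : σ (tr c) = k) (hk : |k| < 2) (he : 0 < e)
    (hc : ∃ N : ℕ, 0 < N ∧ c ^ N = 1) : (tor c σ hk0 hk he).reg (xi c) =
    ∫ t in Icc (0 : Fin 2 → ℝ) 1, Phi k e (a0 t) (a1 t) := by
  obtain ⟨cz0, cz1⟩ := cont_zl c σ hk0 hk he
  have cim0 := Complex.continuous_im.comp cz0
  have cre0 := Complex.continuous_re.comp cz0
  have cim1 := Complex.continuous_im.comp cz1
  have cA : Continuous fun t => Ax k e (a0 t) := (cont_Ax hk he).comp cont_a0
  have cP : Continuous fun t => pX k e (a0 t) := (cont_pX hk he).comp cont_a0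
  have cM := cont_mu (e := e) hk he
  have cN := cont_nu (e := e) hk he
  have cX := cont_DX c σ hk0 hk he
  have cc : Continuous fun t => e * Real.cos (a1 t) :=
    continuous_const.mul (Real.continuous_cos.comp cont_a1)
  have cs : Continuous fun t => e * Real.sin (a1 t) :=
    continuous_const.mul (Real.continuous_sin.comp cont_a1)
  have c1 : Continuous fun t => dH1 (σ c) k e (a0 t) (a1 t) := by
    unfold dH1
    exact (cA.mul ((continuous_const.mul cM).add ((continuous_const.mul cc).mul cN))).add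
      (cX.mul ((continuous_const.mul cim0).add ((continuous_const.mul cc).mul cre0)))
  have c2 : Continuous fun t => dH2 k e (a0 t) (a1 t) := by
    unfold dH2
    exact (((continuous_const.mul cc).mul cP).mul cM).add
      (((continuous_const.mul cs).mul cP).mul cim1)
  have z1 : ∫ t in Icc (0 : Fin 2 → ℝ) 1, dH1 (σ c) k e (a0 t) (a1 t) = 0 := by
    refine ibp0 (H := fun t => DX (σ c) e (a0 t) * (2 * π * mu k e (a0 t) (a1 t) +
      2 * π / 3 * (e * Real.cos (a1 t)) * nu k e (a0 t) (a1 t))) c1 (fun s r => ?_) (fun s => ?_)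
    · refine ((hd_DX c σ hk0 hk he hc r).mul (((hmu0 he hk r (2 * π * s)).const_mul (2 * π)).add
        ((hnu0 he hk r (2 * π * s)).const_mul (2 * π / 3 * (e * Real.cos (2 * π * s)))))).congr_deriv ?_
      show _ = dH1 (σ c) k e (2 * π * r) (2 * π * s)
      unfold dH1
      simp only [Pi.add_apply]
    · have e0 : a0 ![1, s] = 0 + 2 * π := by
        show 2 * π * 1 = 0 + 2 * π
        ring
      have e1 : a0 ![0, s] = 0 := by
        show 2 * π * 0 = 0
        ring
      have e2 : a1 ![1, s] = a1 ![0, s] := rfl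
      simp only [e0, e1, e2]
      have h1 : DX (σ c) e (0 + 2 * π) = DX (σ c) e 0 := by
        unfold DX
        rw [xe_per]
      have h2 : ∀ b, Ze k e (0 + 2 * π) b = Ze k e 0 b := by
        intro b
        unfold Ze
        rw [Ce_per]
      unfold mu nu
      rw [h1, h2]
  have z2 : ∫ t in Icc (0 : Fin 2 → ℝ) 1, dH2 k e (a0 t) (a1 t) = 0 := by
    refine ibp1 (H := fun t => 1 / 3 * (e * Real.sin (a1 t)) * pX k e (a0 t) *
      mu k e (a0 t) (a1 t)) c2 (fun r s => ?_) (fun r => ?_)
    · have hs : HasDerivAt (fun s : ℝ => 1 / 3 * (e * Real.sin (2 * π * s)) * pX k e (2 * π * r))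
          (2 * π / 3 * (e * Real.cos (2 * π * s)) * pX k e (2 * π * r)) s := by
        have h1 : HasDerivAt (fun s : ℝ => Real.sin (2 * π * s)) (Real.cos (2 * π * s) * (2 * π)) s :=
          (hd_ang s).sin
        refine (((h1.const_mul e).const_mul (1 / 3)).mul_const (pX k e (2 * π * r))).congr_deriv ?_
        ring
      refine (hs.mul (hmu1 he hk (2 * π * r) s)).congr_deriv ?_
      show _ = dH2 k e (2 * π * r) (2 * π * s)
      unfold dH2
      ring
    · have e0 : a1 ![r, 1] = 0 + 2 * π := by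
        show 2 * π * 1 = 0 + 2 * π
        ring
      have e1 : a1 ![r, 0] = 0 := by
        show 2 * π * 0 = 0
        ring
      have e2 : a0 ![r, 1] = a0 ![r, 0] := rfl
      simp only [e0, e1, e2]
      have h2 : ∀ a, Ze k e a (0 + 2 * π) = Ze k e a 0 := by
        intro b
        unfold Ze
        rw [Ce_per]
      unfold mu
      rw [h2, Real.sin_add_two_pi]
  unfold xi
  rw [reg_four]
  have hP : ∀ t, Phi k e (a0 t) (a1 t) =
      ((frm (fun s => (tor c σ hk0 hk he).e s (px c).1)
        (fun j s => (tor c σ hk0 hk he).e s (![cy c, cz c] j)) t +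
      frm (fun s => (tor c σ hk0 hk he).e s (qx c).1)
        (fun j s => (tor c σ hk0 hk he).e s (![cy c, cz c] j)) t) -
      frm (fun s => (tor c σ hk0 hk he).e s (pf c).1)
        (fun j s => (tor c σ hk0 hk he).e s (![cx c, cy c] j)) t -
      frm (fun s => (tor c σ hk0 hk he).e s (qf c).1)
        (fun j s => (tor c σ hk0 hk he).e s (![cx c, cy c] j)) t) +
      (dH1 (σ c) k e (a0 t) (a1 t) - dH2 k e (a0 t) (a1 t)) := by
    intro t
    rw [frm_x c σ hk0 hk he hc, (frm_p c σ hk0 hk he hc t).1, (frm_p c σ hk0 hk he hc t).2]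
    unfold Phi
    rw [Ph1_eq (σ c)]
    ring
  have i1 := int_cont (cont_frm (tor c σ hk0 hk he) (px c) ![cy c, cz c])
  have i2 := int_cont (cont_frm (tor c σ hk0 hk he) (qx c) ![cy c, cz c])
  have i3 := int_cont (cont_frm (tor c σ hk0 hk he) (pf c) ![cx c, cy c])
  have i4 := int_cont (cont_frm (tor c σ hk0 hk he) (qf c) ![cx c, cy c])
  have j1 := int_cont c1
  have j2 := int_cont c2
  simp only [hP]
  have h1 := (i1.add i2)
  have h2 := (h1.sub i3).sub i4
  have h3 := j1.sub j2
  have h4 := integral_add h2 h3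
  have h5 := integral_sub j1 j2
  rw [z1, z2, sub_zero] at h5
  refine (h4.trans ?_).symm
  have h6 : (∫ t in Icc (0 : Fin 2 → ℝ) 1, ((fun t => dH1 (σ c) k e (a0 t) (a1 t)) -
      fun t => dH2 k e (a0 t) (a1 t)) t) = 0 := h5
  rw [h6, add_zero]
  rfl

end main

end Pool.Agent.P8H1.KS
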