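import Pool.Agent.P8H1.KS.Defs
import Pool.Agent.P8H1.PD.Rel
set_option autoImplicit false

/-!
Packages of the project KS, third part.
-/

namespace Pool.Agent.P8H1.KS

open Pool.Agent.P8H1.PD (FS Tor)
open Pool.Agent.P8H1.EK (tr)

/-- PACKAGE ODD (250 lines); model: `Pool/Agent/P8H1/CG/Odd.lean` (`flp`, `idl_le_flp`, `inv_single`,
`D_inv'`, `co_inv`, and the regulator part). The endomorphism with `x ↦ x^(s_0)`, `y ↦ y^(s_1)`,
`z ↦ z^(s_2)`, `w ↦ w` of the coordinate ring. It is enough to treat the three cases where one `s_i`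
is `-1` and the others are `1` (compose), or do all at once. `x ↦ 1/x`: `x/ζ ↦ 1/(x ζ)`,
`x ζ ↦ 1/(x/ζ)`; `y ↦ 1/y`: exchanges `- z/y` and `- y z`; `z ↦ 1/z`: `- z/y ↦ 1/(- y z)`,
`- y z ↦ 1/(- z/y)`. The regulator of `br f g` changes sign if `f` is replaced by `1/f` (`D(1/f) =
-D(f)` and the same for `log |1 - f| d log |f| - log |f| d log |1 - f|`, as
`log |1 - 1/f| = log |1 - f| - log |f|`) or one `g_i` by `1/g_i` (`PD.Rels` contains the bilinearity, so
`Tor.reg_of_mem` gives this). No root of unity condition is needed. For `f ↦ 1/f` use the formula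
`frm2` in `Pool/Agent/P8H1/KS/Frm.lean` for the form (`m = 2`), or a general argument with
`PD.mat`. -/
def S_ODD.{u} : Prop := ∀ {K : Type u} [Field K] (c : Kˣ) (s : Fin 3 → ℤ),
  (∀ i, s i = 1 ∨ s i = -1) → ∃ f : Srf c →+* Srf c, (∀ a, f (cst c a) = cst c a) ∧
    Units.map (f : Srf c →* Srf c) (cx c) = cx c ^ s 0 ∧
    Units.map (f : Srf c →* Srf c) (cy c) = cy c ^ s 1 ∧
    Units.map (f : Srf c →* Srf c) (cz c) = cz c ^ s 2 ∧
    ∀ γ : Tor (Srf c) 2, γ.reg (FS.map f (xi c)) = ((s 0 * s 1 * s 2 : ℤ) : ℝ) * γ.reg (xi c)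

end Pool.Agent.P8H1.KS
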