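import Pool.Agent.P8H1.KS.Alg
set_option autoImplicit false

/-!
The element `xi` is equivariant for the automorphisms of the field which map `ζ + 1/ζ` to
`-(ζ + 1/ζ)`, together with `(x, y, z) ↦ (-x, -y, -z)`.
-/

namespace Pool.Agent.P8H1.KS

open Pool.Agent.N65.TK (Pt UQ tu)
open Pool.Agent.P8H1.PD (LP mo FS br dif al LL Rels)
open Pool.Agent.P8H1.EK (tr)

section rels

variable {A : Type*} [CommRing A]

theorem upd0 (g h a : Aˣ) : Function.update ![g, h] 0 a = ![a, h] := by
  funext i
  fin_cases i <;> rfl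

theorem upd1 (g h a : Aˣ) : Function.update ![g, h] 1 a = ![g, a] := by
  funext i
  fin_cases i <;> rfl

theorem rel_mul0 (f : Pt A) (a b h : Aˣ) :
    br f ![a * b, h] - br f ![a, h] - br f ![b, h] ∈ Rels A 2 := by
  refine Submodule.subset_span (Or.inl (Or.inl (Or.inl ⟨f, ![1, h], 0, a, b, ?_⟩)))
  rw [upd0, upd0, upd0]

theorem rel_mul1 (f : Pt A) (g a b : Aˣ) :
    br f ![g, a * b] - br f ![g, a] - br f ![g, b] ∈ Rels A 2 := by
  refine Submodule.subset_span (Or.inl (Or.inl (Or.inl ⟨f, ![g, 1], 1, a, b, ?_⟩)))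
  rw [upd1, upd1, upd1]

theorem rel_one0 (f : Pt A) (h : Aˣ) : br f ![1, h] ∈ Rels A 2 := by
  have h1 := rel_mul0 f 1 1 h
  rw [mul_one] at h1
  have h2 : br f ![1, h] = -(br f ![1, h] - br f ![1, h] - br f ![1, h]) := by abel
  rw [h2]
  exact Submodule.neg_mem _ h1

theorem rel_one1 (f : Pt A) (g : Aˣ) : br f ![g, 1] ∈ Rels A 2 := by
  have h1 := rel_mul1 f g 1 1
  rw [mul_one] at h1
  have h2 : br f ![g, 1] = -(br f ![g, 1] - br f ![g, 1] - br f ![g, 1]) := by abel
  rw [h2]
  exact Submodule.neg_mem _ h1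

theorem rel_neg0 (f : Pt A) (h : Aˣ) : br f ![-1, h] ∈ Rels A 2 := by
  have h1 := rel_mul0 f (-1) (-1) h
  rw [neg_mul_neg, one_mul] at h1
  have h3 := rel_one0 f h
  have h2 : br f ![-1, h] = (1 / 2 : ℚ) • (br f ![1, h] -
      (br f ![1, h] - br f ![-1, h] - br f ![-1, h])) := by
    module
  rw [h2]
  exact Submodule.smul_mem _ _ (Submodule.sub_mem _ h3 h1)

theorem rel_neg1 (f : Pt A) (g : Aˣ) : br f ![g, -1] ∈ Rels A 2 := by
  have h1 := rel_mul1 f g (-1) (-1)
  rw [neg_mul_neg, one_mul] at h1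
  have h3 := rel_one1 f g
  have h2 : br f ![g, -1] = (1 / 2 : ℚ) • (br f ![g, 1] -
      (br f ![g, 1] - br f ![g, -1] - br f ![g, -1])) := by
    module
  rw [h2]
  exact Submodule.smul_mem _ _ (Submodule.sub_mem _ h3 h1)

theorem rel_neg (f : Pt A) (g h : Aˣ) : br f ![-g, -h] - br f ![g, h] ∈ Rels A 2 := by
  have h1 := rel_mul0 f (-1) g (-h)
  have h2 := rel_mul1 f g (-1) h
  rw [neg_one_mul] at h1 h2
  have h3 := rel_neg0 f (-h)
  have h4 := rel_neg1 f g
  have h5 : br f ![-g, -h] - br f ![g, h] =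
      (br f ![-g, -h] - br f ![-1, -h] - br f ![g, -h]) + br f ![-1, -h] +
        (br f ![g, -h] - br f ![g, -1] - br f ![g, h]) + br f ![g, -1] := by
    abel
  rw [h5]
  exact Submodule.add_mem _ (Submodule.add_mem _ (Submodule.add_mem _ h1 h3) h2) h4

end rels

section twist

variable {K : Type*} [Field K]

/-- the sign of the monomial `x^k` under `(x, y, z, w) ↦ (-x, -y, -z, -w)` -/
def chi (k : Fin 4 → ℤ) : Kˣ := (-1) ^ (∑ i, k i)

theorem chi_zero : chi (0 : Fin 4 → ℤ) = (1 : Kˣ) := by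
  unfold chi
  simp

theorem chi_add (k l : Fin 4 → ℤ) : (chi (k + l) : Kˣ) = chi k * chi l := by
  unfold chi
  rw [← zpow_add]
  congr 1
  simp only [Pi.add_apply, Finset.sum_add_distrib]

theorem chi_one (i : Fin 4) : chi (Pi.single i (1 : ℤ)) = (-1 : Kˣ) := by
  unfold chi
  rw [Finset.sum_pi_single']
  simp

theorem chi_neg_one (i : Fin 4) : chi (Pi.single i (-1 : ℤ)) = (-1 : Kˣ) := by
  unfold chi
  rw [Finset.sum_pi_single']
  simp

variable (K)

/-- the monomials with their signs -/
noncomputable def sg : Multiplicative (Fin 4 → ℤ) →* LP K 4 where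
  toFun k := AddMonoidAlgebra.single k.toAdd ((chi k.toAdd : Kˣ) : K)
  map_one' := by
    show AddMonoidAlgebra.single (0 : Fin 4 → ℤ) ((chi (0 : Fin 4 → ℤ) : Kˣ) : K) = 1
    rw [chi_zero, Units.val_one]
    rfl
  map_mul' k l := by
    rw [AddMonoidAlgebra.single_mul_single, toAdd_mul, chi_add, Units.val_mul]

variable {K} (c : Kˣ) (τ : K →+* K)

/-- `τ` on the coefficients of the Laurent polynomials, and `-1` on the coordinates. -/
noncomputable def coefS : LP K 4 →+* LP K 4 :=
  AddMonoidAlgebra.liftNCRingHom ((con : K →+* LP K 4).comp τ) (sg K) fun _ _ => Commute.all _ _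

theorem coefS_single (k : Fin 4 → ℤ) (a : K) :
    coefS τ (AddMonoidAlgebra.single k a) =
      AddMonoidAlgebra.single k (τ a * ((chi k : Kˣ) : K)) := by
  unfold coefS
  rw [AddMonoidAlgebra.liftNCRingHom_single]
  show AddMonoidAlgebra.single (0 : Fin 4 → ℤ) (τ a) *
    AddMonoidAlgebra.single k ((chi k : Kˣ) : K) = _
  rw [AddMonoidAlgebra.single_mul_single, zero_add]

theorem coefS_mono (i : Fin 4) :
    coefS τ (mono K i 1 : LP K 4) = -(mono K i 1 : LP K 4) := by
  show coefS τ (AddMonoidAlgebra.single _ _) = -AddMonoidAlgebra.single _ _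
  rw [coefS_single, chi_one, Units.val_one, map_one, Units.val_neg, Units.val_one, one_mul]
  exact AddMonoidAlgebra.single_neg _ _

theorem coefS_mono' (i : Fin 4) :
    coefS τ (mono K i (-1) : LP K 4) = -(mono K i (-1) : LP K 4) := by
  show coefS τ (AddMonoidAlgebra.single _ _) = -AddMonoidAlgebra.single _ _
  rw [coefS_single, chi_neg_one, Units.val_one, map_one, Units.val_neg, Units.val_one, one_mul]
  exact AddMonoidAlgebra.single_neg _ _

theorem coefS_con (a : K) : coefS τ (con a) = con (τ a) := by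
  show coefS τ (AddMonoidAlgebra.single _ _) = AddMonoidAlgebra.single _ _
  rw [coefS_single, chi_zero, Units.val_one, mul_one]

variable (h : τ (tr c) = -tr c)

include h in
theorem idl_leS : idl c ≤ (idl c).comap (coefS τ) := by
  conv_lhs => unfold idl
  rw [Ideal.span_le]
  rintro P (rfl | rfl)
  · show coefS τ (eq1 c) ∈ idl c
    have e : coefS τ (eq1 c) = -eq1 c := by
      unfold eq1
      rw [map_sub, map_sub, map_add, coefS_mono, coefS_mono', coefS_mono, coefS_con, h, map_neg]
      ring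
    rw [e]
    exact Ideal.neg_mem_iff _ |>.2 (Ideal.subset_span (Set.mem_insert _ _))
  · show coefS τ (eq2 K) ∈ idl c
    have e : coefS τ (eq2 K) = -eq2 K := by
      unfold eq2
      rw [map_add, map_add, map_add, map_add, coefS_mono, coefS_mono', coefS_mono, coefS_mono',
        coefS_mono]
      ring
    rw [e]
    exact Ideal.neg_mem_iff _ |>.2 (Ideal.subset_span (Set.mem_insert_of_mem _ rfl))

/-- The endomorphism of the coordinate ring given by `τ` on the coefficients and `-1` on the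
coordinates. -/
noncomputable def galS : Srf c →+* Srf c := Ideal.quotientMap (idl c) (coefS τ) (idl_leS c τ h)

theorem galS_cst (a : K) : galS c τ h (cst c a) = cst c (τ a) := by
  show Ideal.quotientMap (idl c) (coefS τ) (idl_leS c τ h) (Ideal.Quotient.mk (idl c) (con a)) = _
  rw [Ideal.quotientMap_mk, coefS_con]
  rfl

theorem galS_mn (a : Kˣ) (k : Fin 4 → ℤ) :
    Units.map (galS c τ h : Srf c →* Srf c) (mn c a k) =
      mn c (Units.map (τ : K →* K) a * chi k) k := by
  ext
  show Ideal.quotientMap (idl c) (coefS τ) (idl_leS c τ h)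
    (Ideal.Quotient.mk (idl c) (AddMonoidAlgebra.single k (a : K))) = _
  rw [Ideal.quotientMap_mk, coefS_single]
  rfl

theorem mn_neg (a : Kˣ) (k : Fin 4 → ℤ) : mn c (-a) k = -mn c a k := by
  ext
  show proj c (AddMonoidAlgebra.single k ((-a : Kˣ) : K)) =
    -proj c (AddMonoidAlgebra.single k (a : K))
  rw [← map_neg, Units.val_neg]
  congr 1
  exact AddMonoidAlgebra.single_neg _ _

theorem uc_neg (a : Kˣ) : uc c (-a) = -uc c a := mn_neg c a 0

theorem galS_x : Units.map (galS c τ h : Srf c →* Srf c) (cx c) = -cx c := by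
  unfold cx
  rw [galS_mn, map_one, one_mul, chi_one, mn_neg]

theorem galS_y : Units.map (galS c τ h : Srf c →* Srf c) (cy c) = -cy c := by
  unfold cy
  rw [galS_mn, map_one, one_mul, chi_one, mn_neg]

theorem galS_z : Units.map (galS c τ h : Srf c →* Srf c) (cz c) = -cz c := by
  unfold cz
  rw [galS_mn, map_one, one_mul, chi_one, mn_neg]

theorem galS_uc (a : Kˣ) : Units.map (galS c τ h : Srf c →* Srf c) (uc c a) =
    uc c (Units.map (τ : K →* K) a) := by
  unfold uc
  rw [galS_mn, chi_zero, mul_one]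

variable {c} in
include h in
theorem tauS_eq :
    Units.map (τ : K →* K) c = -c ∨ Units.map (τ : K →* K) c = -c⁻¹ := by
  have h1 : τ c + (τ c)⁻¹ = -((c : K) + (c : K)⁻¹) := by
    have h' := h
    unfold tr at h'
    rw [map_add, Units.val_inv_eq_inv_val, map_inv₀] at h'
    exact h'
  have hc0 : (c : K) ≠ 0 := c.ne_zero
  have ht0 : τ c ≠ 0 := (map_ne_zero τ).2 hc0
  have h2 : (τ c + c) * (τ c + (c : K)⁻¹) = 0 := by
    field_simp at h1 ⊢
    linear_combination h1
  rcases mul_eq_zero.1 h2 with h3 | h3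
  · left
    ext
    rw [Units.val_neg]
    exact eq_neg_of_add_eq_zero_left h3
  · right
    ext
    rw [Units.val_neg, Units.val_inv_eq_inv_val]
    exact eq_neg_of_add_eq_zero_left h3

theorem galS_xi : FS.map (galS c τ h) (xi c) - xi c ∈ Rels (Srf c) 2 := by
  have hpx : ∀ f : Pt (Srf c), ∀ a : Kˣ, f.1 = uc c a * cx c →
      (f.map (galS c τ h)).1 = uc c (-Units.map (τ : K →* K) a) * cx c := by
    intro f a hf
    show Units.map (galS c τ h : Srf c →* Srf c) f.1 = _
    rw [hf, map_mul, galS_uc, galS_x, uc_neg, neg_mul, mul_neg]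
  have hneg : Units.map (τ : K →* K) (-1 : Kˣ) = -1 := by
    ext
    simp
  have e1 : br ((px c).map (galS c τ h)) ![-cy c, -cz c] +
      br ((qx c).map (galS c τ h)) ![-cy c, -cz c] =
      br (px c) ![-cy c, -cz c] + br (qx c) ![-cy c, -cz c] := by
    rcases tauS_eq τ h with h1 | h1
    · have h2 : (px c).map (galS c τ h) = px c := by
        apply Subtype.ext
        rw [hpx (px c) c⁻¹ rfl, map_inv, h1, inv_neg, neg_neg]
        rfl
      have h3 : (qx c).map (galS c τ h) = qx c := by
        apply Subtype.ext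
        rw [hpx (qx c) c rfl, h1, neg_neg]
        rfl
      rw [h2, h3]
    · have h2 : (px c).map (galS c τ h) = qx c := by
        apply Subtype.ext
        rw [hpx (px c) c⁻¹ rfl, map_inv, h1, inv_neg, inv_inv, neg_neg]
        rfl
      have h3 : (qx c).map (galS c τ h) = px c := by
        apply Subtype.ext
        rw [hpx (qx c) c rfl, h1, neg_neg]
        rfl
      rw [h2, h3, add_comm]
  have e2 : (pf c).map (galS c τ h) = pf c := by
    apply Subtype.ext
    show Units.map (galS c τ h : Srf c →* Srf c) (uc c (-1) * (cz c * (cy c)⁻¹)) =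
      uc c (-1) * (cz c * (cy c)⁻¹)
    rw [map_mul, map_mul, map_inv, galS_uc, galS_y, galS_z, hneg, inv_neg, neg_mul_neg]
  have e3 : (qf c).map (galS c τ h) = qf c := by
    apply Subtype.ext
    show Units.map (galS c τ h : Srf c →* Srf c) (uc c (-1) * (cy c * cz c)) =
      uc c (-1) * (cy c * cz c)
    rw [map_mul, map_mul, galS_uc, galS_y, galS_z, hneg, neg_mul_neg]
  have e4 : FS.map (galS c τ h) (xi c) - xi c =
      (br (px c) ![-cy c, -cz c] - br (px c) ![cy c, cz c]) +
      (br (qx c) ![-cy c, -cz c] - br (qx c) ![cy c, cz c]) -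
      (br (pf c) ![-cx c, -cy c] - br (pf c) ![cx c, cy c]) -
      (br (qf c) ![-cx c, -cy c] - br (qf c) ![cx c, cy c]) := by
    unfold xi
    rw [map_sub, map_sub, map_add, map_br, map_br, map_br, map_br, galS_x, galS_y, galS_z, e1, e2,
      e3]
    abel
  rw [e4]
  exact Submodule.sub_mem _ (Submodule.sub_mem _ (Submodule.add_mem _ (rel_neg _ _ _)
    (rel_neg _ _ _)) (rel_neg _ _ _)) (rel_neg _ _ _)

end twist

end Pool.Agent.P8H1.KS
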